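import Pool.Agent.W5h37.HF.Interp

/-!
# The admissible numerators
-/

set_option autoImplicit false

namespace Pool.Agent.W5h37.HF

open Finset Polynomial

lemma class_count {A : ℕ} (hA : 0 < A) (M : ℕ) (S : Finset ℤ) (hS : ∀ z ∈ S, |z| ≤ (M : ℤ))
    (h : ∀ z ∈ S, ∀ z' ∈ S, (A : ℤ) ∣ z - z') : S.card ≤ 2 * M / A + 1 := by
  rcases S.eq_empty_or_nonempty with rfl | hne
  · simp
  set c := S.min' hne with hc
  have hcS : c ∈ S := S.min'_mem hne
  have h1 : S.card ≤ (Finset.range (2 * M / A + 1)).card := by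
    refine Finset.card_le_card_of_injOn (fun z => ((z - c) / A).toNat) ?_ ?_
    · intro z hz
      rw [Finset.mem_coe] at hz
      rw [Finset.mem_coe, Finset.mem_range]
      have h2 : c ≤ z := S.min'_le z hz
      have h3 := abs_le.1 (hS z hz)
      have h4 := abs_le.1 (hS c hcS)
      have h5 : z - c ≤ 2 * M := by linarith
      have h6 : (z - c) / A ≤ ((2 * M : ℕ) : ℤ) / A :=
        Int.ediv_le_ediv (by exact_mod_cast hA) (by push_cast; exact h5)
      have h7 : ((2 * M : ℕ) : ℤ) / A = ((2 * M / A : ℕ) : ℤ) := by push_cast; rfl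
      rw [h7] at h6
      rw [Nat.lt_succ_iff]
      exact Int.toNat_le.2 h6
    · intro z hz z' hz' heq
      rw [Finset.mem_coe] at hz hz'
      obtain ⟨k, hk⟩ := h z hz c hcS
      obtain ⟨k', hk'⟩ := h z' hz' c hcS
      have hA0 : (A : ℤ) ≠ 0 := by exact_mod_cast hA.ne'
      have h2 : c ≤ z := S.min'_le z hz
      have h2' : c ≤ z' := S.min'_le z' hz'
      simp only at heq
      rw [hk, hk', Int.mul_ediv_cancel_left _ hA0, Int.mul_ediv_cancel_left _ hA0] at heq
      have hApos : (0 : ℤ) < A := by exact_mod_cast hA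
      have hk0 : 0 ≤ k := by
        by_contra hcon
        push Not at hcon
        have : (A : ℤ) * k < 0 := mul_neg_of_pos_of_neg hApos hcon
        linarith
      have hk0' : 0 ≤ k' := by
        by_contra hcon
        push Not at hcon
        have : (A : ℤ) * k' < 0 := mul_neg_of_pos_of_neg hApos hcon
        linarith
      have : k = k' := by omega
      rw [this] at hk
      linarith
  rwa [Finset.card_range] at h1

/-- the exponent of the prime `p` in the modulus: `⌈(d - 2) v / d⌉`, `v` the exponent of `p` in `a` -/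
def ex (d : ℕ) (a : ℤ) (p : ℕ) : ℕ := ((d - 2) * a.natAbs.factorization p + (d - 1)) / d

/-- the modulus: the least positive integer whose `d`-th power is divisible by `a ^ (d - 2)` -/
def mdl (d : ℕ) (a : ℤ) : ℕ := ∏ p ∈ a.natAbs.primeFactors, p ^ ex d a p

lemma mdl_pos (d : ℕ) (a : ℤ) : 0 < mdl d a :=
  Finset.prod_pos fun _ hp => pow_pos (Nat.prime_of_mem_primeFactors hp).pos _

/-- the polynomial -/
noncomputable def pg (d : ℕ) (c : ℕ → ℤ) : ℤ[X] :=
  X ^ d + ∑ i ∈ Finset.Ico 1 d, C (c i * c d ^ (d - 1 - i)) * X ^ i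

lemma pg_degree (d : ℕ) (c : ℕ → ℤ) :
    degree (∑ i ∈ Finset.Ico 1 d, C (c i * c d ^ (d - 1 - i)) * X ^ i) < (d : WithBot ℕ) := by
  refine mem_degreeLT.1 (Submodule.sum_mem _ fun i hi => mem_degreeLT.2 ?_)
  refine (degree_C_mul_X_pow_le _ _).trans_lt ?_
  exact_mod_cast (Finset.mem_Ico.1 hi).2

lemma pg_monic (d : ℕ) (c : ℕ → ℤ) : (pg d c).Monic := monic_X_pow_add (pg_degree d c)

lemma pg_natDegree (d : ℕ) (c : ℕ → ℤ) : (pg d c).natDegree = d := by
  refine natDegree_eq_of_degree_eq_some ?_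
  unfold pg
  rw [degree_add_eq_left_of_degree_lt, degree_X_pow]
  rw [degree_X_pow]
  exact pg_degree d c

lemma pg_eval (d : ℕ) (c : ℕ → ℤ) (z : ℤ) :
    (pg d c).eval z = z ^ d + ∑ i ∈ Finset.Ico 1 d, c i * c d ^ (d - 1 - i) * z ^ i := by
  unfold pg
  rw [eval_add, eval_pow, eval_X, eval_finsetSum]
  congr 1
  refine Finset.sum_congr rfl fun i _ => ?_
  rw [eval_mul, eval_C, eval_pow, eval_X]

/-- the admissible numerators -/
noncomputable def admG (d : ℕ) (c : ℕ → ℤ) (M W : ℕ) : Finset ℤ :=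
  (Finset.Icc (-(M : ℤ)) M).filter fun z => c d ^ (d - 2) ∣ (pg d c).eval z ∧
    |(pg d c).eval z| ≤ (W : ℤ)

lemma residues {d : ℕ} (c : ℕ → ℤ) (hd : 3 ≤ d) (hc : c d ≠ 0) (S : Finset ℤ)
    (hS : ∀ z ∈ S, c d ^ (d - 2) ∣ (pg d c).eval z) (p : ℕ) (hp : p ∈ (c d).natAbs.primeFactors) :
    (S.image fun z : ℤ => z % ((p ^ ex d (c d) p : ℕ) : ℤ)).card ≤ d := by
  classical
  have hpp := Nat.prime_of_mem_primeFactors hp
  have hpdvd := Nat.dvd_of_mem_primeFactors hp
  have hn0 : (c d).natAbs ≠ 0 := Int.natAbs_ne_zero.2 hc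
  have hv : 1 ≤ (c d).natAbs.factorization p := (hpp.dvd_iff_one_le_factorization hn0).1 hpdvd
  have h1 := padic_classes (pg_monic d c) (pg_natDegree d c) hpp
    (w := (d - 2) * (c d).natAbs.factorization p) (c := ex d (c d) p) (by
      unfold ex
      set w := (d - 2) * (c d).natAbs.factorization p with hw
      have hw1 : 1 ≤ w := Nat.mul_pos (by omega) hv
      have h2 : d * ((w + (d - 1)) / d) ≤ w + (d - 1) := Nat.mul_div_le _ _
      have h3 : 1 ≤ (w + (d - 1)) / d := by
        rw [Nat.one_le_div_iff (by omega)]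
        omega
      rw [Nat.mul_sub, mul_one]
      have h4 : d ≤ d * ((w + (d - 1)) / d) := Nat.le_mul_of_pos_right _ h3
      omega) S (by
      intro z hz
      refine dvd_trans ?_ (hS z hz)
      rw [mul_comm, pow_mul]
      push_cast
      refine pow_dvd_pow_of_dvd ?_ _
      have h5 := Nat.ordProj_dvd (c d).natAbs p
      have h6 := Int.natCast_dvd.2 h5
      push_cast at h6
      exact h6)
  refine le_trans ?_ h1
  have h2 : (S.image fun z : ℤ => z % ((p ^ ex d (c d) p : ℕ) : ℤ)) =
      (S.image fun z : ℤ => (z : ZMod (p ^ ex d (c d) p))).image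
        fun y : ZMod (p ^ ex d (c d) p) => (y.cast : ℤ) := by
    rw [Finset.image_image]
    refine Finset.image_congr fun z _ => ?_
    simp only [Function.comp_apply]
    rw [ZMod.coe_intCast]
  rw [h2]
  exact Finset.card_image_le

/-- **The number of the admissible numerators.** -/
theorem admG_card {d : ℕ} (c : ℕ → ℤ) (hd : 3 ≤ d) (hc : c d ≠ 0) (M W L : ℕ)
    (hL : (d + 1) * W < L ^ d) :
    (admG d c M W).card ≤ d ^ ((c d).natAbs.primeFactors.card + 1) * (2 * L / mdl d (c d) + 1) := by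
  classical
  set S := admG d c M W with hSdef
  have hS : ∀ z ∈ S, c d ^ (d - 2) ∣ (pg d c).eval z ∧ |(pg d c).eval z| ≤ (W : ℤ) := fun z hz =>
    (Finset.mem_filter.1 hz).2
  obtain ⟨T, hTd, hT⟩ := arch_clusters (pg_monic d c) (pg_natDegree d c) hL S fun z hz => (hS z hz).2
  set f : ℤ → ({p // p ∈ (c d).natAbs.primeFactors} → ℤ) := fun z p =>
    z % (((p : ℕ) ^ ex d (c d) p : ℕ) : ℤ) with hf
  have him : (S.image f).card ≤ d ^ (c d).natAbs.primeFactors.card := by
    have h1 : S.image f ⊆ Fintype.piFinset fun p : {p // p ∈ (c d).natAbs.primeFactors} =>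
        S.image fun z : ℤ => z % (((p : ℕ) ^ ex d (c d) p : ℕ) : ℤ) := by
      intro y hy
      obtain ⟨z, hz, rfl⟩ := Finset.mem_image.1 hy
      rw [Fintype.mem_piFinset]
      intro p
      exact Finset.mem_image.2 ⟨z, hz, rfl⟩
    refine (Finset.card_le_card h1).trans ?_
    rw [Fintype.card_piFinset]
    calc ∏ p : {p // p ∈ (c d).natAbs.primeFactors},
          (S.image fun z : ℤ => z % (((p : ℕ) ^ ex d (c d) p : ℕ) : ℤ)).card
        ≤ ∏ _p : {p // p ∈ (c d).natAbs.primeFactors}, d :=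
          Finset.prod_le_prod' fun p _ => residues c hd hc S (fun z hz => (hS z hz).1) p p.2
      _ = _ := by rw [Finset.prod_const, Finset.card_univ, Fintype.card_coe]
  have hfib : ∀ y ∈ S.image f, (S.filter fun z => f z = y).card ≤
      d * (2 * L / mdl d (c d) + 1) := by
    intro y _
    have h1 : S.filter (fun z => f z = y) ⊆
        T.biUnion fun t => (S.filter fun z => f z = y ∧ |z - t| < (L : ℤ)) := by
      intro z hz
      rw [Finset.mem_filter] at hz
      obtain ⟨t, ht, htz⟩ := hT z hz.1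
      rw [Finset.mem_biUnion]
      exact ⟨t, ht, Finset.mem_filter.2 ⟨hz.1, hz.2, htz⟩⟩
    refine (Finset.card_le_card h1).trans (Finset.card_biUnion_le.trans ?_)
    refine (Finset.sum_le_card_nsmul _ _ (2 * L / mdl d (c d) + 1) ?_).trans (by
      rw [nsmul_eq_mul, Nat.cast_id]
      exact Nat.mul_le_mul_right _ hTd)
    intro t _
    rw [← Finset.card_image_of_injective (S.filter fun z => f z = y ∧ |z - t| < (L : ℤ))
      (f := fun z : ℤ => z - t) (fun a b h => by simpa using h)]
    refine class_count (mdl_pos d (c d)) L _ ?_ ?_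
    · intro w hw
      obtain ⟨z, hz, rfl⟩ := Finset.mem_image.1 hw
      exact (Finset.mem_filter.1 hz).2.2.le
    · intro w hw w' hw'
      obtain ⟨z, hz, rfl⟩ := Finset.mem_image.1 hw
      obtain ⟨z', hz', rfl⟩ := Finset.mem_image.1 hw'
      have hz1 := (Finset.mem_filter.1 hz).2.1
      have hz2 := (Finset.mem_filter.1 hz').2.1
      have h2 : z - t - (z' - t) = z - z' := by ring
      rw [h2]
      unfold mdl
      push_cast
      refine Finset.prod_dvd_of_coprime ?_ ?_
      · intro p hp q hq hpq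
        rw [Finset.mem_coe] at hp hq
        refine IsCoprime.pow ?_
        exact Nat.isCoprime_iff_coprime.2 ((Nat.coprime_primes (Nat.prime_of_mem_primeFactors hp)
          (Nat.prime_of_mem_primeFactors hq)).2 hpq)
      · intro p hp
        have h3 := congrFun (hz1.trans hz2.symm) ⟨p, hp⟩
        simp only [hf] at h3
        have h5 := Int.ModEq.dvd (n := ((p ^ ex d (c d) p : ℕ) : ℤ)) (a := z') (b := z) h3.symm
        push_cast at h5
        exact h5
  have h1 := Finset.card_le_mul_card_image S (d * (2 * L / mdl d (c d) + 1)) hfib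
  refine h1.trans ((Nat.mul_le_mul_left _ him).trans (le_of_eq ?_))
  ring

end Pool.Agent.W5h37.HF
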