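import Pool.Agent.W5h37.HF.Fibre
import Pool.Agent.W5h37.Thin.PowersMain
import Pool.Agent.W5h37.Thin.Strong

/-!
# Bounds for the number of the admissible numerators
-/

set_option autoImplicit false

namespace Pool.Agent.W5h37.HF

open Finset Filter Pool.Agent.H674R3 Pool.Agent.W5h37.Thin

lemma ex_ge {d : ℕ} (hd : 3 ≤ d) (a : ℤ) (p : ℕ) :
    (d - 2) * a.natAbs.factorization p ≤ d * ex d a p := by
  unfold ex
  set w := (d - 2) * a.natAbs.factorization p
  have h := Nat.lt_mul_div_succ (w + (d - 1)) (by omega : 0 < d)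
  rw [mul_add, mul_one] at h
  omega

lemma ex_pos {d : ℕ} (hd : 3 ≤ d) {a : ℤ} {p : ℕ} (hp : p ∈ a.natAbs.primeFactors) :
    1 ≤ ex d a p := by
  have hpp := Nat.prime_of_mem_primeFactors hp
  have hn0 : a.natAbs ≠ 0 := (Nat.mem_primeFactors.1 hp).2.2
  have hv : 1 ≤ a.natAbs.factorization p :=
    (hpp.dvd_iff_one_le_factorization hn0).1 (Nat.dvd_of_mem_primeFactors hp)
  have h := ex_ge hd a p
  by_contra hcon
  have h0 : ex d a p = 0 := by omega
  rw [h0, mul_zero] at h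
  have : 1 ≤ (d - 2) * a.natAbs.factorization p := Nat.mul_pos (by omega) hv
  omega

lemma natAbs_prod {a : ℤ} (ha : a ≠ 0) :
    a.natAbs = ∏ p ∈ a.natAbs.primeFactors, p ^ a.natAbs.factorization p :=
  (Nat.prod_factorization_pow_eq_self (Int.natAbs_ne_zero.2 ha)).symm

/-- the modulus is at least `|a| ^ (1 - 2 / d)` -/
lemma mdl_ge {d : ℕ} (hd : 3 ≤ d) {a : ℤ} (ha : a ≠ 0) : a.natAbs ^ (d - 2) ≤ mdl d a ^ d := by
  have h1 : a.natAbs ^ (d - 2) = ∏ p ∈ a.natAbs.primeFactors,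
      p ^ ((d - 2) * a.natAbs.factorization p) := by
    conv_lhs => rw [natAbs_prod ha]
    rw [← Finset.prod_pow]
    refine Finset.prod_congr rfl fun p _ => ?_
    rw [← pow_mul, mul_comm]
  rw [h1]
  unfold mdl
  rw [← Finset.prod_pow]
  refine Finset.prod_le_prod' fun p hp => ?_
  rw [← pow_mul, mul_comm (ex d a p)]
  exact Nat.pow_le_pow_right (Nat.prime_of_mem_primeFactors hp).pos (ex_ge hd a p)

lemma rad_le_mdl {d : ℕ} (hd : 3 ≤ d) (a : ℤ) : rad a ≤ mdl d a := by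
  unfold rad mdl
  refine Finset.prod_le_prod' fun p hp => ?_
  calc p = p ^ 1 := (pow_one p).symm
    _ ≤ _ := Nat.pow_le_pow_right (Nat.prime_of_mem_primeFactors hp).pos (ex_pos hd hp)

/-- for `d ≥ 7` -/
lemma mdl_cube {d : ℕ} (hd : 7 ≤ d) {a : ℤ} (ha : a ≠ 0) :
    a.natAbs ^ 2 * rad a ≤ mdl d a ^ 3 := by
  have h1 : a.natAbs ^ 2 * rad a = ∏ p ∈ a.natAbs.primeFactors,
      p ^ (2 * a.natAbs.factorization p + 1) := by
    have h2 : rad a = ∏ p ∈ a.natAbs.primeFactors, p := rfl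
    have h3 : a.natAbs ^ 2 = ∏ p ∈ a.natAbs.primeFactors, (p ^ a.natAbs.factorization p) ^ 2 := by
      conv_lhs => rw [natAbs_prod ha]
      rw [← Finset.prod_pow]
    rw [h3, h2, ← Finset.prod_mul_distrib]
    refine Finset.prod_congr rfl fun p _ => ?_
    rw [← pow_mul, pow_succ, mul_comm 2]
  rw [h1]
  unfold mdl
  rw [← Finset.prod_pow]
  refine Finset.prod_le_prod' fun p hp => ?_
  rw [← pow_mul]
  refine Nat.pow_le_pow_right (Nat.prime_of_mem_primeFactors hp).pos ?_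
  have hpp := Nat.prime_of_mem_primeFactors hp
  have hv : 1 ≤ a.natAbs.factorization p :=
    (hpp.dvd_iff_one_le_factorization (Int.natAbs_ne_zero.2 ha)).1 (Nat.dvd_of_mem_primeFactors hp)
  have h := ex_ge (by omega : 3 ≤ d) a p
  obtain ⟨e, rfl⟩ : ∃ e, d = e + 7 := ⟨d - 7, by omega⟩
  have h3 : e + 7 - 2 = e + 5 := by omega
  rw [h3] at h
  by_contra hcon
  push Not at hcon
  have h4 : 3 * ex (e + 7) a p ≤ 2 * a.natAbs.factorization p := by omega
  nlinarith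

/-- the modulus of an integer which is not divisible by a large power -/
lemma mdl_thin {d k : ℕ} (hd : 3 ≤ d) (hk : 2 * k ≤ d + 1) (hk0 : 0 < k) {a : ℤ} (ha : a ≠ 0)
    {E : ℕ} (hE : ∀ e : ℕ, e ^ k ∣ a.natAbs → e < E) :
    a.natAbs ≤ mdl d a * E ^ 3 := by
  set e := ∏ p ∈ a.natAbs.primeFactors, p ^ (a.natAbs.factorization p / k) with he
  have h1 : e ^ k ∣ a.natAbs := by
    conv_rhs => rw [natAbs_prod ha]
    rw [he, ← Finset.prod_pow]
    refine Finset.prod_dvd_prod_of_dvd _ _ fun p _ => ?_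
    rw [← pow_mul]
    exact pow_dvd_pow _ (Nat.div_mul_le_self _ _)
  have h2 : a.natAbs ≤ mdl d a * e ^ 3 := by
    conv_lhs => rw [natAbs_prod ha]
    rw [he, ← Finset.prod_pow]
    unfold mdl
    rw [← Finset.prod_mul_distrib]
    refine Finset.prod_le_prod' fun p hp => ?_
    rw [← pow_mul, ← pow_add]
    refine Nat.pow_le_pow_right (Nat.prime_of_mem_primeFactors hp).pos ?_
    have h := ex_ge hd a p
    set v := a.natAbs.factorization p
    set q := v / k with hq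
    have h3 : v < k * (q + 1) := Nat.lt_mul_div_succ v hk0
    by_contra hcon
    push Not at hcon
    have h4 : ex d a p + q * 3 + 1 ≤ v := hcon
    obtain ⟨f, rfl⟩ : ∃ f, d = f + 2 := ⟨d - 2, by omega⟩
    have h5 : f + 2 - 2 = f := by omega
    rw [h5] at h
    have h6 : (f + 2) * (ex (f + 2) a p + q * 3 + 1) ≤ (f + 2) * v := Nat.mul_le_mul_left _ h4
    have h7 : 2 * v + 2 ≤ 2 * (k * (q + 1)) := by omega
    have h8 : 2 * (k * (q + 1)) ≤ (f + 2 + 1) * (q + 1) := by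
      calc 2 * (k * (q + 1)) = (2 * k) * (q + 1) := by ring
        _ ≤ _ := Nat.mul_le_mul_right _ hk
    nlinarith
  exact h2.trans (Nat.mul_le_mul_left _ (Nat.pow_le_pow_left (hE e h1).le 3))

/-- **The bound for the number of the admissible numerators.** -/
theorem adm_bound (d : ℕ) (hd : 3 ≤ d) (ε : ℝ) (hε : 0 < ε) :
    ∃ C : ℝ, 1 ≤ C ∧ ∀ H : ℕ, 1 ≤ H → ∀ c : ℕ → ℤ, c d ≠ 0 → |c d| ≤ (H : ℤ) →
      ((admG d c ((d + 2) * H) (WW d H (c d))).card : ℝ) ≤ C * (H : ℝ) ^ ε *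
        ((H : ℝ) ^ (2 / d : ℝ) * ((c d).natAbs : ℝ) ^ (1 - 2 / d : ℝ) / mdl d (c d) + 1) := by
  obtain ⟨Cd, hCd0, hCd⟩ := divisor_bound (ε / d) (by positivity)
  have hd0 : (0 : ℝ) < d := by exact_mod_cast (by omega : 0 < d)
  obtain ⟨κ, hκ⟩ : ∃ κ : ℕ, κ = (d + 1) * (2 * d + 5) := ⟨_, rfl⟩
  have hκ1 : (1 : ℝ) ≤ κ := by
    have : 1 ≤ κ := by rw [hκ]; exact Nat.mul_pos (by omega) (by omega)
    exact_mod_cast this
  refine ⟨(Cd + 1) ^ d * d * (2 * κ + 3), ?_, ?_⟩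
  · have h1 : (1 : ℝ) ≤ (Cd + 1) ^ d := one_le_pow₀ (by linarith)
    have h2 : (1 : ℝ) ≤ d := by exact_mod_cast (by omega : 1 ≤ d)
    have h3 : (1 : ℝ) ≤ 2 * κ + 3 := by linarith
    have h4 : (1 : ℝ) ≤ (Cd + 1) ^ d * d := one_le_mul_of_one_le_of_one_le h1 h2
    exact one_le_mul_of_one_le_of_one_le h4 h3
  intro H hH c hc hcH
  have hH1 : (1 : ℝ) ≤ H := by exact_mod_cast hH
  have hH0 : (0 : ℝ) < H := by linarith
  set a := c d with ha
  have ha0 : 0 < a.natAbs := Int.natAbs_pos.2 hc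
  have haR : (0 : ℝ) < a.natAbs := by exact_mod_cast ha0
  have haH : a.natAbs ≤ H := by
    have : ((a.natAbs : ℕ) : ℤ) ≤ H := by rw [Int.natCast_natAbs]; exact hcH
    exact_mod_cast this
  set V : ℕ := (d + 1) * WW d H a with hV
  have hVR : (V : ℝ) = κ * (H : ℝ) ^ 2 * (a.natAbs : ℝ) ^ (d - 2) := by
    rw [hV, hκ]; unfold WW; push_cast; ring
  have hV0 : (0 : ℝ) ≤ V := Nat.cast_nonneg _
  set L : ℕ := ⌊(V : ℝ) ^ (1 / d : ℝ)⌋₊ + 1 with hL
  have hVL : V < L ^ d := by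
    have h1 : (V : ℝ) ^ (1 / d : ℝ) < L := by
      rw [hL]; push_cast; exact Nat.lt_floor_add_one _
    have h2 : ((V : ℝ) ^ (1 / d : ℝ)) ^ d = V := by
      rw [← Real.rpow_natCast, ← Real.rpow_mul hV0, one_div, inv_mul_cancel₀ hd0.ne', Real.rpow_one]
    have h3 : ((V : ℝ) ^ (1 / d : ℝ)) ^ d < (L : ℝ) ^ d :=
      pow_lt_pow_left₀ h1 (by positivity) (by omega)
    rw [h2] at h3
    exact_mod_cast h3
  have hmain := admG_card c hd hc ((d + 2) * H) (WW d H a) L hVL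
  rw [← ha] at hmain
  -- the size of `L`
  have hLle : (L : ℝ) ≤ κ * ((H : ℝ) ^ (2 / d : ℝ) * (a.natAbs : ℝ) ^ (1 - 2 / d : ℝ)) + 1 := by
    have h1 : (L : ℝ) ≤ (V : ℝ) ^ (1 / d : ℝ) + 1 := by
      rw [hL]; push_cast
      linarith [Nat.floor_le (Real.rpow_nonneg hV0 (1 / d : ℝ))]
    have h2 : (V : ℝ) ^ (1 / d : ℝ) =
        (κ : ℝ) ^ (1 / d : ℝ) * ((H : ℝ) ^ (2 / d : ℝ) * (a.natAbs : ℝ) ^ (1 - 2 / d : ℝ)) := by
      rw [hVR, Real.mul_rpow (by positivity) (by positivity),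
        Real.mul_rpow (by positivity) (by positivity), ← Real.rpow_natCast (H : ℝ) 2,
        ← Real.rpow_mul hH0.le, ← Real.rpow_natCast (a.natAbs : ℝ) (d - 2), ← Real.rpow_mul haR.le,
        mul_assoc]
      congr 3
      · push_cast; ring
      · rw [Nat.cast_sub (by omega)]
        push_cast
        field_simp
    have h3 : (κ : ℝ) ^ (1 / d : ℝ) ≤ κ := by
      calc (κ : ℝ) ^ (1 / d : ℝ) ≤ (κ : ℝ) ^ (1 : ℝ) := by
            apply Real.rpow_le_rpow_of_exponent_le hκ1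
            rw [div_le_one hd0]
            exact_mod_cast (by omega : 1 ≤ d)
        _ = κ := Real.rpow_one _
    rw [h2] at h1
    refine h1.trans ?_
    gcongr
  -- the number of the classes
  have hω : ((d ^ (a.natAbs.primeFactors.card + 1) : ℕ) : ℝ) ≤ (Cd + 1) ^ d * d * (H : ℝ) ^ ε := by
    have h1 : 2 ^ a.natAbs.primeFactors.card ≤ a.natAbs.divisors.card := by
      rw [← Finset.card_powerset]
      refine Finset.card_le_card_of_injOn (fun T => ∏ p ∈ T, p) ?_ ?_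
      · intro T hT
        rw [Finset.mem_coe, Finset.mem_powerset] at hT
        rw [Finset.mem_coe, Nat.mem_divisors]
        refine ⟨?_, ha0.ne'⟩
        exact Finset.prod_primes_dvd _ (fun p hp => (Nat.prime_of_mem_primeFactors (hT hp)).prime)
          fun p hp => Nat.dvd_of_mem_primeFactors (hT hp)
      · intro T hT T' hT' heq
        rw [Finset.mem_coe, Finset.mem_powerset] at hT hT'
        rw [← Nat.primeFactors_prod fun p hp => Nat.prime_of_mem_primeFactors (hT hp),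
          ← Nat.primeFactors_prod fun p hp => Nat.prime_of_mem_primeFactors (hT' hp)]
        exact congrArg Nat.primeFactors heq
    have h2 : d ^ a.natAbs.primeFactors.card ≤ a.natAbs.divisors.card ^ d := by
      calc d ^ a.natAbs.primeFactors.card ≤ (2 ^ d) ^ a.natAbs.primeFactors.card :=
            Nat.pow_le_pow_left Nat.lt_two_pow_self.le _
        _ = (2 ^ a.natAbs.primeFactors.card) ^ d := by rw [← pow_mul, ← pow_mul, mul_comm]
        _ ≤ _ := Nat.pow_le_pow_left h1 d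
    have h3 : ((a.natAbs.divisors.card : ℕ) : ℝ) ≤ (Cd + 1) * (H : ℝ) ^ (ε / d) := by
      refine (hCd a.natAbs ha0.ne').trans ?_
      have h4 : ((a.natAbs : ℕ) : ℝ) ≤ H := by exact_mod_cast haH
      have h5 : ((a.natAbs : ℕ) : ℝ) ^ (ε / d) ≤ (H : ℝ) ^ (ε / d) :=
        Real.rpow_le_rpow haR.le h4 (by positivity)
      have h6 : (0 : ℝ) ≤ (H : ℝ) ^ (ε / d) := by positivity
      nlinarith
    have h4 : ((a.natAbs.divisors.card ^ d : ℕ) : ℝ) ≤ (Cd + 1) ^ d * (H : ℝ) ^ ε := by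
      push_cast
      calc ((a.natAbs.divisors.card : ℕ) : ℝ) ^ d ≤ ((Cd + 1) * (H : ℝ) ^ (ε / d)) ^ d :=
            pow_le_pow_left₀ (by positivity) h3 d
        _ = (Cd + 1) ^ d * (H : ℝ) ^ ε := by
            rw [mul_pow, ← Real.rpow_natCast ((H : ℝ) ^ (ε / d)), ← Real.rpow_mul hH0.le,
              div_mul_cancel₀ _ hd0.ne']
    have h5 : ((d ^ a.natAbs.primeFactors.card : ℕ) : ℝ) ≤ (Cd + 1) ^ d * (H : ℝ) ^ ε :=
      le_trans (by exact_mod_cast h2) h4
    rw [pow_succ]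
    push_cast at h5 ⊢
    nlinarith
  -- put together
  set m := mdl d a with hm
  have hm0 : 0 < m := mdl_pos d a
  have hmR : (1 : ℝ) ≤ m := by exact_mod_cast hm0
  have hq : ((2 * L / m + 1 : ℕ) : ℝ) ≤ (2 * κ + 3) *
      ((H : ℝ) ^ (2 / d : ℝ) * (a.natAbs : ℝ) ^ (1 - 2 / d : ℝ) / m + 1) := by
    push_cast
    have h1 : ((2 * L / m : ℕ) : ℝ) ≤ 2 * L / m := by
      refine Nat.cast_div_le.trans ?_
      push_cast; rfl
    set y := (H : ℝ) ^ (2 / d : ℝ) * (a.natAbs : ℝ) ^ (1 - 2 / d : ℝ) with hy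
    have hy0 : 0 ≤ y := by positivity
    have h2 : (2 * L / m : ℝ) ≤ 2 * κ * (y / m) + 2 := by
      calc (2 * L / m : ℝ) ≤ 2 * (κ * y + 1) / m := by gcongr
        _ = 2 * κ * (y / m) + 2 / m := by ring
        _ ≤ 2 * κ * (y / m) + 2 := by
            have : (2 : ℝ) / m ≤ 2 := by
              rw [div_le_iff₀ (by linarith)]; linarith
            linarith
    have h3 : 0 ≤ y / m := by positivity
    nlinarith
  calc ((admG d c ((d + 2) * H) (WW d H a)).card : ℝ)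
      ≤ ((d ^ (a.natAbs.primeFactors.card + 1) * (2 * L / m + 1) : ℕ) : ℝ) := by exact_mod_cast hmain
    _ = ((d ^ (a.natAbs.primeFactors.card + 1) : ℕ) : ℝ) * ((2 * L / m + 1 : ℕ) : ℝ) := by
        rw [Nat.cast_mul]
    _ ≤ ((Cd + 1) ^ d * d * (H : ℝ) ^ ε) * ((2 * κ + 3) *
      ((H : ℝ) ^ (2 / d : ℝ) * (a.natAbs : ℝ) ^ (1 - 2 / d : ℝ) / m + 1)) := by gcongr
    _ = _ := by ring

end Pool.Agent.W5h37.HF
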