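import Pool.Agent.W5h37.HF.Interp

/-!
# Iterated clusters
-/

set_option autoImplicit false

namespace Pool.Agent.W5h37.HF

open Finset Polynomial

lemma class_count' {A : ℕ} (hA : 0 < A) (M : ℕ) (S : Finset ℤ) (hS : ∀ z ∈ S, |z| ≤ (M : ℤ))
    (h : ∀ z ∈ S, ∀ z' ∈ S, (A : ℤ) ∣ z - z') : S.card ≤ 2 * M / A + 1 := by
  rcases S.eq_empty_or_nonempty with rfl | hne
  · simp
  set c := S.min' hne with hc
  have hcS : c ∈ S := S.min'_mem hne
  have h1 : S.card ≤ (Finset.range (2 * M / A + 1)).card := by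
    refine Finset.card_le_card_of_injOn (fun z => ((z - c) / A).toNat) ?_ ?_
    · intro z hz
      rw [Finset.mem_coe] at hz
      rw [Finset.mem_coe, Finset.mem_range]
      have h2 : c ≤ z := S.min'_le z hz
      have h3 := abs_le.1 (hS z hz)
      have h4 := abs_le.1 (hS c hcS)
      have h5 : z - c ≤ 2 * M := by linarith
      have h6 : (z - c) / A ≤ ((2 * M : ℕ) : ℤ) / A :=
        Int.ediv_le_ediv (by exact_mod_cast hA) (by push_cast; exact h5)
      have h7 : ((2 * M : ℕ) : ℤ) / A = ((2 * M / A : ℕ) : ℤ) := by push_cast; rfl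
      rw [h7] at h6
      rw [Nat.lt_succ_iff]
      exact Int.toNat_le.2 h6
    · intro z hz z' hz' heq
      rw [Finset.mem_coe] at hz hz'
      obtain ⟨k, hk⟩ := h z hz c hcS
      obtain ⟨k', hk'⟩ := h z' hz' c hcS
      have hA0 : (A : ℤ) ≠ 0 := by exact_mod_cast hA.ne'
      have h2 : c ≤ z := S.min'_le z hz
      have h2' : c ≤ z' := S.min'_le z' hz'
      simp only at heq
      rw [hk, hk', Int.mul_ediv_cancel_left _ hA0, Int.mul_ediv_cancel_left _ hA0] at heq
      have hApos : (0 : ℤ) < A := by exact_mod_cast hA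
      have hk0 : 0 ≤ k := by
        by_contra hcon
        push Not at hcon
        have : (A : ℤ) * k < 0 := mul_neg_of_pos_of_neg hApos hcon
        linarith
      have hk0' : 0 ≤ k' := by
        by_contra hcon
        push Not at hcon
        have : (A : ℤ) * k' < 0 := mul_neg_of_pos_of_neg hApos hcon
        linarith
      have : k = k' := by omega
      rw [this] at hk
      linarith
  rwa [Finset.card_range] at h1

/-- the residues modulo `p ^ c` -/
def res (p c : ℕ) (z : ℤ) : ℤ := z % ((p ^ c : ℕ) : ℤ)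

lemma res_eq_iff {p c : ℕ} {z z' : ℤ} : res p c z = res p c z' ↔ ((p ^ c : ℕ) : ℤ) ∣ z - z' := by
  unfold res
  constructor
  · intro h
    exact Int.ModEq.dvd (n := ((p ^ c : ℕ) : ℤ)) (a := z') (b := z) h.symm
  · intro h
    exact ((Int.modEq_iff_dvd (n := ((p ^ c : ℕ) : ℤ)) (a := z') (b := z)).2 h).symm

lemma padic_res {P : ℤ[X]} {d : ℕ} (hP : P.Monic) (hd : P.natDegree = d) (hd1 : 1 ≤ d) {p : ℕ}
    (hp : p.Prime) {w c : ℕ} (hwc : d * (c - 1) < w ∨ c = 0) (S : Finset ℤ)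
    (hS : ∀ z ∈ S, ((p ^ w : ℕ) : ℤ) ∣ P.eval z) :
    (S.image (res p c)).card ≤ d := by
  classical
  rcases hwc with hwc | hc0
  · refine le_trans ?_ (padic_classes hP hd hp hwc S hS)
    have h2 : (S.image (res p c)) =
        (S.image fun z : ℤ => (z : ZMod (p ^ c))).image
          fun y : ZMod (p ^ c) => (y.cast : ℤ) := by
      rw [Finset.image_image]
      refine Finset.image_congr fun z _ => ?_
      simp only [Function.comp_apply]
      rw [ZMod.coe_intCast]
      rfl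
    rw [h2]
    exact Finset.card_image_le
  · subst hc0
    have h1 : S.image (res p 0) ⊆ {0} := by
      intro y hy
      obtain ⟨z, -, rfl⟩ := Finset.mem_image.1 hy
      unfold res
      simp
    refine (Finset.card_le_card h1).trans ?_
    simpa using hd1

/-- one step, `p`-adic -/
lemma padic_step {P : ℤ[X]} {d : ℕ} (hP : P.Monic) (hd : P.natDegree = d) (hd1 : 1 ≤ d) {p : ℕ}
    (hp : p.Prime) {μ μ' r₀ : ℤ} {w c c' n : ℕ} (hwc : d * (c' - 1) < w ∨ c' = 0)
    (hμ : ((p ^ w : ℕ) : ℤ) ∣ μ * ((p ^ c : ℕ) : ℤ)) (hμ' : ((p ^ w : ℕ) : ℤ) ∣ μ' * ((p ^ c : ℕ) : ℤ))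
    (S : Finset ℤ)
    (hS : ∀ z ∈ S, ∃ z' ∈ S, ∃ z'' ∈ S, ∃ r : ℤ, P.eval z = μ * z' + μ' * z'' + r ∧
      ((p ^ w : ℕ) : ℤ) ∣ r - r₀)
    (hn : (S.image (res p c)).card ≤ n) :
    (S.image (res p c')).card ≤ d * n ^ 2 := by
  classical
  choose! f hf g hg r hr hrr using hS
  set pr : ℤ → ℤ × ℤ := fun z => (res p c (f z), res p c (g z)) with hpr
  have him : (S.image pr).card ≤ n ^ 2 := by
    have h1 : S.image pr ⊆ (S.image (res p c)) ×ˢ (S.image (res p c)) := by
      intro y hy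
      obtain ⟨z, hz, rfl⟩ := Finset.mem_image.1 hy
      rw [Finset.mem_product]
      exact ⟨Finset.mem_image_of_mem _ (hf z hz), Finset.mem_image_of_mem _ (hg z hz)⟩
    refine (Finset.card_le_card h1).trans ?_
    rw [Finset.card_product, sq]
    exact Nat.mul_le_mul hn hn
  have hcover : S.image (res p c') ⊆
      (S.image pr).biUnion fun κ => (S.filter fun z => pr z = κ).image (res p c') := by
    intro y hy
    obtain ⟨z, hz, rfl⟩ := Finset.mem_image.1 hy
    rw [Finset.mem_biUnion]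
    exact ⟨pr z, Finset.mem_image_of_mem _ hz, Finset.mem_image_of_mem _
      (Finset.mem_filter.2 ⟨hz, rfl⟩)⟩
  refine (Finset.card_le_card hcover).trans (Finset.card_biUnion_le.trans ?_)
  refine (Finset.sum_le_card_nsmul _ _ d ?_).trans (by
    rw [nsmul_eq_mul, Nat.cast_id, mul_comm]
    exact Nat.mul_le_mul_left _ him)
  intro κ hκ
  obtain ⟨y, hy, rfl⟩ := Finset.mem_image.1 hκ
  -- the polynomial `P - P(y)`
  have hlt : (C (P.eval y)).degree < P.degree := by
    rw [degree_eq_natDegree hP.ne_zero, hd]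
    refine (degree_C_le).trans_lt ?_
    exact_mod_cast hd1
  have hmon : (P - C (P.eval y)).Monic := hP.sub_of_left hlt
  have hdeg : (P - C (P.eval y)).natDegree = d := by
    rw [← hd]
    exact natDegree_sub_eq_left_of_natDegree_lt (by rw [natDegree_C, hd]; omega)
  refine padic_res hmon hdeg hd1 hp hwc _ ?_
  intro z hz
  rw [Finset.mem_filter] at hz
  obtain ⟨hzS, hzy⟩ := hz
  simp only [hpr, Prod.mk.injEq, res_eq_iff] at hzy
  rw [eval_sub, eval_C, hr z hzS, hr y hy]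
  obtain ⟨k1, hk1⟩ := hzy.1
  obtain ⟨k2, hk2⟩ := hzy.2
  have e : μ * f z + μ' * g z + r z - (μ * f y + μ' * g y + r y) =
      (μ * ((p ^ c : ℕ) : ℤ)) * k1 + (μ' * ((p ^ c : ℕ) : ℤ)) * k2 + ((r z - r₀) - (r y - r₀)) := by
    have e1 : μ * f z - μ * f y = (μ * ((p ^ c : ℕ) : ℤ)) * k1 := by
      rw [← mul_sub, hk1]; ring
    have e2 : μ' * g z - μ' * g y = (μ' * ((p ^ c : ℕ) : ℤ)) * k2 := by
      rw [← mul_sub, hk2]; ring
    linarith
  rw [e]
  exact dvd_add (dvd_add (hμ.mul_right _) (hμ'.mul_right _)) (dvd_sub (hrr z hzS) (hrr y hy))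

/-- one step, absolute value -/
lemma arch_step {P : ℤ[X]} {d : ℕ} (hP : P.Monic) (hd : P.natDegree = d) (hd1 : 1 ≤ d)
    {μ μ' r₀ : ℤ} {W L L' n : ℕ} (hL' : (d + 1) * W < L' ^ d) (Wr : ℤ)
    (hW : (|μ| + |μ'|) * (L : ℤ) + Wr ≤ (W : ℤ)) (S : Finset ℤ)
    (hS : ∀ z ∈ S, ∃ z' ∈ S, ∃ z'' ∈ S, ∃ r : ℤ, P.eval z = μ * z' + μ' * z'' + r ∧
      |r - r₀| ≤ Wr)
    (hT : ∃ T : Finset ℤ, T.card ≤ n ∧ ∀ z ∈ S, ∃ t ∈ T, |z - t| < (L : ℤ)) :
    ∃ T : Finset ℤ, T.card ≤ d * n ^ 2 ∧ ∀ z ∈ S, ∃ t ∈ T, |z - t| < (L' : ℤ) := by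
  classical
  obtain ⟨T, hTn, hT⟩ := hT
  choose! f hf g hg r hr hrr using hS
  choose! τ hτ hτ2 using hT
  have hex : ∀ κ : ℤ × ℤ, ∃ U : Finset ℤ, U.card ≤ d ∧
      ∀ z ∈ S, τ (f z) = κ.1 → τ (g z) = κ.2 → ∃ u ∈ U, |z - u| < (L' : ℤ) := by
    intro κ
    set c₀ : ℤ := μ * κ.1 + μ' * κ.2 + r₀ with hc₀
    have hlt : (C c₀).degree < P.degree := by
      rw [degree_eq_natDegree hP.ne_zero, hd]
      refine (degree_C_le).trans_lt ?_
      exact_mod_cast hd1
    have hmon : (P - C c₀).Monic := hP.sub_of_left hlt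
    have hdeg : (P - C c₀).natDegree = d := by
      rw [← hd]
      exact natDegree_sub_eq_left_of_natDegree_lt (by rw [natDegree_C, hd]; omega)
    obtain ⟨U, hU, hU2⟩ := arch_clusters hmon hdeg hL'
      (S.filter fun z => τ (f z) = κ.1 ∧ τ (g z) = κ.2) (by
        intro z hz
        rw [Finset.mem_filter] at hz
        obtain ⟨hzS, h1, h2⟩ := hz
        rw [eval_sub, eval_C, hr z hzS, hc₀]
        have e : μ * f z + μ' * g z + r z - (μ * κ.1 + μ' * κ.2 + r₀) =
            μ * (f z - κ.1) + μ' * (g z - κ.2) + (r z - r₀) := by ring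
        rw [e]
        have h3 : |f z - κ.1| ≤ (L : ℤ) := by
          rw [← h1]; exact (hτ2 _ (hf z hzS)).le
        have h4 : |g z - κ.2| ≤ (L : ℤ) := by
          rw [← h2]; exact (hτ2 _ (hg z hzS)).le
        calc |μ * (f z - κ.1) + μ' * (g z - κ.2) + (r z - r₀)|
            ≤ |μ * (f z - κ.1)| + |μ' * (g z - κ.2)| + |r z - r₀| :=
              (abs_add_le _ _).trans (by gcongr; exact abs_add_le _ _)
          _ = |μ| * |f z - κ.1| + |μ'| * |g z - κ.2| + |r z - r₀| := by rw [abs_mul, abs_mul]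
          _ ≤ |μ| * L + |μ'| * L + Wr := by
              have h5 := hrr z hzS
              gcongr
          _ = (|μ| + |μ'|) * L + Wr := by ring
          _ ≤ W := hW)
    refine ⟨U, hU, fun z hz h1 h2 => ?_⟩
    exact hU2 z (Finset.mem_filter.2 ⟨hz, h1, h2⟩)
  choose U hU hU2 using hex
  refine ⟨(T ×ˢ T).biUnion U, ?_, ?_⟩
  · refine Finset.card_biUnion_le.trans ?_
    refine (Finset.sum_le_card_nsmul _ _ d fun κ _ => hU κ).trans ?_
    rw [nsmul_eq_mul, Nat.cast_id, Finset.card_product, mul_comm, sq]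
    exact Nat.mul_le_mul_left _ (Nat.mul_le_mul hTn hTn)
  · intro z hz
    obtain ⟨u, hu, hu2⟩ := hU2 (τ (f z), τ (g z)) z hz rfl rfl
    refine ⟨u, ?_, hu2⟩
    rw [Finset.mem_biUnion]
    refine ⟨_, ?_, hu⟩
    rw [Finset.mem_product]
    exact ⟨hτ _ (hf z hz), hτ _ (hg z hz)⟩

/-- the count -/
lemma combine (Q : Finset ℕ) (hQ : ∀ p ∈ Q, p.Prime) (c : ℕ → ℕ) (n n' L : ℕ) (S T : Finset ℤ)
    (hn : ∀ p ∈ Q, (S.image (res p (c p))).card ≤ n) (hT : T.card ≤ n')
    (hTS : ∀ z ∈ S, ∃ t ∈ T, |z - t| < (L : ℤ)) :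
    S.card ≤ n ^ Q.card * (n' * (2 * L / (∏ p ∈ Q, p ^ c p) + 1)) := by
  classical
  have hpos : 0 < ∏ p ∈ Q, p ^ c p := Finset.prod_pos fun p hp => pow_pos (hQ p hp).pos _
  set M := ∏ p ∈ Q, p ^ c p with hM
  set f : ℤ → ({p // p ∈ Q} → ℤ) := fun z p => res p (c p) z with hf
  have him : (S.image f).card ≤ n ^ Q.card := by
    have h1 : S.image f ⊆ Fintype.piFinset fun p : {p // p ∈ Q} => S.image (res p (c p)) := by
      intro y hy
      obtain ⟨z, hz, rfl⟩ := Finset.mem_image.1 hy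
      rw [Fintype.mem_piFinset]
      intro p
      exact Finset.mem_image.2 ⟨z, hz, rfl⟩
    refine (Finset.card_le_card h1).trans ?_
    rw [Fintype.card_piFinset]
    calc ∏ p : {p // p ∈ Q}, (S.image (res p (c p))).card
        ≤ ∏ _p : {p // p ∈ Q}, n := Finset.prod_le_prod' fun p _ => hn p p.2
      _ = _ := by rw [Finset.prod_const, Finset.card_univ, Fintype.card_coe]
  have hfib : ∀ y ∈ S.image f, (S.filter fun z => f z = y).card ≤ n' * (2 * L / M + 1) := by
    intro y _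
    have h1 : S.filter (fun z => f z = y) ⊆
        T.biUnion fun t => (S.filter fun z => f z = y ∧ |z - t| < (L : ℤ)) := by
      intro z hz
      rw [Finset.mem_filter] at hz
      obtain ⟨t, ht, htz⟩ := hTS z hz.1
      rw [Finset.mem_biUnion]
      exact ⟨t, ht, Finset.mem_filter.2 ⟨hz.1, hz.2, htz⟩⟩
    refine (Finset.card_le_card h1).trans (Finset.card_biUnion_le.trans ?_)
    refine (Finset.sum_le_card_nsmul _ _ (2 * L / M + 1) ?_).trans (by
      rw [nsmul_eq_mul, Nat.cast_id]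
      exact Nat.mul_le_mul_right _ hT)
    intro t _
    rw [← Finset.card_image_of_injective (S.filter fun z => f z = y ∧ |z - t| < (L : ℤ))
      (f := fun z : ℤ => z - t) (fun a b h => by simpa using h)]
    refine class_count' hpos L _ ?_ ?_
    · intro w hw
      obtain ⟨z, hz, rfl⟩ := Finset.mem_image.1 hw
      exact (Finset.mem_filter.1 hz).2.2.le
    · intro w hw w' hw'
      obtain ⟨z, hz, rfl⟩ := Finset.mem_image.1 hw
      obtain ⟨z', hz', rfl⟩ := Finset.mem_image.1 hw'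
      have hz1 := (Finset.mem_filter.1 hz).2.1
      have hz2 := (Finset.mem_filter.1 hz').2.1
      have h2 : z - t - (z' - t) = z - z' := by ring
      rw [h2, hM]
      push_cast
      refine Finset.prod_dvd_of_coprime ?_ ?_
      · intro p hp q hq hpq
        rw [Finset.mem_coe] at hp hq
        refine IsCoprime.pow ?_
        exact Nat.isCoprime_iff_coprime.2 ((Nat.coprime_primes (hQ p hp) (hQ q hq)).2 hpq)
      · intro p hp
        have h3 := congrFun (hz1.trans hz2.symm) ⟨p, hp⟩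
        simp only [hf] at h3
        have h5 := res_eq_iff.1 h3
        push_cast at h5
        exact h5
  have h1 := Finset.card_le_mul_card_image S (n' * (2 * L / M + 1)) hfib
  refine h1.trans ((Nat.mul_le_mul_left _ him).trans (le_of_eq ?_))
  ring

end Pool.Agent.W5h37.HF
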