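import Pool.Agent.W5h37.HF.Orbits

/-!
# The number of the bad constant terms and of the periodic points
-/

set_option autoImplicit false

namespace Pool.Agent.W5h37.HF

open Finset Polynomial Pool.Agent.H674R3

/-- the constant terms -/
def Bad {d : ℕ} (H : ℕ) (a : Fin (d + 1) → ℤ) (δ m : ℤ) : Set ℤ :=
  {t | |t| ≤ (H : ℤ) ∧ (Per (Function.update a 0 t) δ m).Nonempty}

lemma bad_finite {d : ℕ} (H : ℕ) (a : Fin (d + 1) → ℤ) (δ m : ℤ) : (Bad H a δ m).Finite := by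
  refine (Finset.finite_toSet (Finset.Icc (-(H : ℤ)) H)).subset ?_
  rintro t ⟨ht, -⟩
  rw [Finset.mem_coe, Finset.mem_Icc]
  exact abs_le.1 ht

lemma bad_trivial {d : ℕ} (H : ℕ) (a : Fin (d + 1) → ℤ) (δ m : ℤ) :
    (Bad H a δ m).ncard ≤ 2 * H + 1 := by
  have h1 : Bad H a δ m ⊆ ((Finset.Icc (-(H : ℤ)) H : Finset ℤ) : Set ℤ) := by
    rintro t ⟨ht, -⟩
    rw [Finset.mem_coe, Finset.mem_Icc]
    exact abs_le.1 ht
  have h2 := Set.ncard_le_ncard h1 (Finset.finite_toSet _)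
  rw [Set.ncard_coe_finset, Int.card_Icc] at h2
  omega

/-- the bound for the slices -/
noncomputable def KK (d H : ℕ) (μ : ℤ) (j : ℕ) : ℝ :=
  (((d ^ j) ^ μ.natAbs.primeFactors.card : ℕ) : ℝ) *
      (d ^ j * (2 * (((d : ℝ) ^ j + 1) * ((d + 2) * H : ℕ)) ^ ((1 / d : ℝ) ^ j) + 3))

theorem bad_le {d H : ℕ} (hd : 2 ≤ d) (hH : 1 ≤ H) (a : Fin (d + 1) → ℤ) (δ m : ℤ)
    (ha : ∀ i, |a i| ≤ (H : ℤ)) (hδ : |δ| ≤ (H : ℤ)) (hm : |m| ≤ (H : ℤ))
    (had : a (Fin.last d) ≠ 0) (hm0 : m ≠ 0) (j : ℕ) :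
    ((Bad H a δ m).ncard : ℝ) ≤
      ((SA d H (pg d (cg a)) (a (Fin.last d)) δ m {t | |t| ≤ (H : ℤ)}).card : ℝ) ^ 2 *
        KK d H (a (Fin.last d) ^ (d - 2) * m) j := by
  classical
  rw [Set.ncard_eq_toFinset_card _ (bad_finite H a δ m)]
  set B := (bad_finite H a δ m).toFinset with hB
  set b := a (Fin.last d) with hb
  set P := pg d (cg a) with hPdef
  have hP : P.Monic := pg_monic d _
  have hPd : P.natDegree = d := pg_natDegree d _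
  set S := SA d H P b δ m {t | |t| ≤ (H : ℤ)} with hS
  have hul : ∀ t : ℤ, Function.update a 0 t (Fin.last d) = b := by
    intro t
    rw [Function.update_of_ne]
    intro h0
    have := congrArg Fin.val h0
    simp only [Fin.val_last, Fin.val_zero] at this
    omega
  have hdata : ∀ t ∈ B, ∃ z : ℕ → ℤ, OrbSeq d H P b δ m t z := by
    intro t ht
    rw [hB, Set.Finite.mem_toFinset] at ht
    obtain ⟨htH, Q, hQ⟩ := ht
    obtain ⟨z, h1, -, -⟩ := orbit hd hH (Function.update a 0 t) δ m (by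
      intro i
      by_cases h : i = 0
      · subst h
        simp only [Function.update_self]
        exact htH
      · simp only [Function.update_of_ne h]
        exact ha i) hδ hm (by rw [hul]; exact had) hm0 Q hQ
    rw [pg_update hd, hul, Function.update_self] at h1
    exact ⟨z, h1⟩
  choose! z hz using hdata
  have hBt : ∀ t ∈ B, |t| ≤ (H : ℤ) := by
    intro t ht
    rw [hB, Set.Finite.mem_toFinset] at ht
    exact ht.1
  have hmaps : ∀ t ∈ B, (z t 0, z t 1) ∈ S ×ˢ S := by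
    intro t ht
    rw [Finset.mem_product]
    exact ⟨mem_SA (𝒜 := {t | |t| ≤ (H : ℤ)}) (hBt t ht) (hz t ht) 0,
      mem_SA (𝒜 := {t | |t| ≤ (H : ℤ)}) (hBt t ht) (hz t ht) 1⟩
  set K := KK d H (b ^ (d - 2) * m) j with hK
  have hμ0 : b ^ (d - 2) * m ≠ 0 := mul_ne_zero (pow_ne_zero _ had) hm0
  have hfib : ∀ κ ∈ S ×ˢ S, (((B.filter fun t => (z t 0, z t 1) = κ).card : ℕ) : ℝ) ≤ K := by
    rintro ⟨u, w⟩ -
    set F := B.filter fun t => (z t 0, z t 1) = (u, w) with hF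
    have hFm : ∀ t ∈ F, t ∈ B ∧ z t 0 = u ∧ z t 1 = w := by
      intro t ht
      rw [hF, Finset.mem_filter, Prod.mk.injEq] at ht
      exact ht
    have hat : ∀ t ∈ F, (C (b ^ (d - 2) * m) * X + C (b ^ (d - 2) * δ * u - P.eval w)).eval (z t 2) =
        t * b ^ (d - 1) := by
      intro t ht
      obtain ⟨h1, h2, h3⟩ := hFm t ht
      have h4 := (hz t h1).2.2 0
      simp only [zero_add] at h4
      rw [h2, h3] at h4
      simp only [eval_add, eval_mul, eval_C, eval_X]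
      linear_combination (-1 : ℤ) * h4
    have hinj : (F.image fun t => z t 2).card = F.card := by
      refine Finset.card_image_of_injOn ?_
      intro t ht t' ht' h0
      have h1 := hat t ht
      have h2 := hat t' ht'
      simp only at h0
      rw [h0] at h1
      have h3 : t * b ^ (d - 1) = t' * b ^ (d - 1) := h1.symm.trans h2
      exact mul_right_cancel₀ (pow_ne_zero _ had) h3
    rw [← hinj]
    refine slice_count hP hPd hd (C (b ^ (d - 2) * m) * X + C (b ^ (d - 2) * δ * u - P.eval w))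
      natDegree_linear_le (b ^ (d - 2) * m) (b ^ (d - 2) * δ) w hμ0 ((d + 2) * H) j _ ?_
    intro s hs
    obtain ⟨t, ht, rfl⟩ := Finset.mem_image.1 hs
    obtain ⟨h1, h2, h3⟩ := hFm t ht
    refine ⟨fun k => z t (k + 1), ⟨?_, rfl, ?_⟩, fun k => (hz t h1).2.1 _⟩
    · exact h3
    · intro k
      rw [hat t ht]
      have h4 := (hz t h1).2.2 (k + 1)
      rw [show k + 1 + 1 = k + 2 by ring, show k + 1 + 2 = k + 3 by ring] at h4
      simp only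
      rw [show k + 2 + 1 = k + 3 by ring, show k + 1 + 1 = k + 2 by ring]
      linear_combination (-1 : ℤ) * h4
  rw [Finset.card_eq_sum_card_fiberwise hmaps]
  push_cast
  refine (Finset.sum_le_card_nsmul _ _ K hfib).trans (le_of_eq ?_)
  rw [nsmul_eq_mul, Finset.card_product, sq]
  push_cast
  ring

theorem per_le {d H : ℕ} (hd : 2 ≤ d) (hH : 1 ≤ H) (a : Fin (d + 1) → ℤ) (δ m : ℤ)
    (ha : ∀ i, |a i| ≤ (H : ℤ)) (hδ : |δ| ≤ (H : ℤ)) (hm : |m| ≤ (H : ℤ))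
    (had : a (Fin.last d) ≠ 0) (hm0 : m ≠ 0) (j : ℕ) :
    (Per a δ m).Finite ∧ ((Per a δ m).ncard : ℝ) ≤
      ((SA d H (pg d (cg a)) (a (Fin.last d)) δ m {a 0}).card : ℝ) *
        KK d H (a (Fin.last d) ^ (d - 2) * m) j := by
  classical
  set b := a (Fin.last d) with hb
  set P := pg d (cg a) with hPdef
  have hP : P.Monic := pg_monic d _
  have hPd : P.natDegree = d := pg_natDegree d _
  set S := SA d H P b δ m {a 0} with hS
  have had' : (b : ℚ) ≠ 0 := by exact_mod_cast had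
  have hdata : ∀ Q ∈ Per a δ m, ∃ z : ℕ → ℤ, OrbSeq d H P b δ m (a 0) z ∧
      (z 0 : ℚ) = b * Q.1 ∧ (z 1 : ℚ) = b * Q.2 := fun Q hQ =>
    orbit hd hH a δ m ha hδ hm had hm0 Q hQ
  choose! z hz hz0 hz1 using hdata
  have hinj0 : Set.InjOn (fun Q => (z Q 0, z Q 1)) (Per a δ m) := by
    intro Q hQ Q' hQ' heq
    simp only [Prod.mk.injEq] at heq
    have e1 := hz0 Q hQ
    have e2 := hz0 Q' hQ'
    have e3 := hz1 Q hQ
    have e4 := hz1 Q' hQ'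
    rw [heq.1, e2] at e1
    rw [heq.2, e4] at e3
    exact Prod.ext (mul_left_cancel₀ had' e1).symm (mul_left_cancel₀ had' e3).symm
  have himg : (fun Q => (z Q 0, z Q 1)) '' (Per a δ m) ⊆
      ((S ×ˢ S : Finset (ℤ × ℤ)) : Set (ℤ × ℤ)) := by
    rintro _ ⟨Q, hQ, rfl⟩
    rw [Finset.mem_coe, Finset.mem_product]
    exact ⟨mem_SA (Set.mem_singleton _) (hz Q hQ) 0, mem_SA (Set.mem_singleton _) (hz Q hQ) 1⟩
  have hfin : (Per a δ m).Finite :=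
    Set.Finite.of_finite_image ((Finset.finite_toSet _).subset himg) hinj0
  refine ⟨hfin, ?_⟩
  rw [Set.ncard_eq_toFinset_card _ hfin]
  set B := hfin.toFinset with hB
  have hBm : ∀ Q ∈ B, Q ∈ Per a δ m := fun Q hQ => by
    rw [hB, Set.Finite.mem_toFinset] at hQ; exact hQ
  have hmaps : ∀ Q ∈ B, z Q 0 ∈ S := fun Q hQ =>
    mem_SA (Set.mem_singleton _) (hz Q (hBm Q hQ)) 0
  set K := KK d H (b ^ (d - 2) * m) j with hK
  have hμ0 : b ^ (d - 2) * m ≠ 0 := mul_ne_zero (pow_ne_zero _ had) hm0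
  have hfib : ∀ u ∈ S, (((B.filter fun Q => z Q 0 = u).card : ℕ) : ℝ) ≤ K := by
    intro u _
    set F := B.filter fun Q => z Q 0 = u with hF
    have hFm : ∀ Q ∈ F, Q ∈ B ∧ z Q 0 = u := by
      intro Q hQ
      rw [hF, Finset.mem_filter] at hQ
      exact hQ
    have hinj : (F.image fun Q => z Q 1).card = F.card := by
      refine Finset.card_image_of_injOn ?_
      intro Q hQ Q' hQ' h0
      obtain ⟨h1, h2⟩ := hFm Q hQ
      obtain ⟨h1', h2'⟩ := hFm Q' hQ'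
      refine hinj0 (hBm Q h1) (hBm Q' h1') ?_
      simp only [Prod.mk.injEq]
      exact ⟨h2.trans h2'.symm, h0⟩
    rw [← hinj]
    refine slice_count hP hPd hd (C (a 0 * b ^ (d - 1))) (by rw [natDegree_C]; omega)
      (b ^ (d - 2) * m) (b ^ (d - 2) * δ) u hμ0 ((d + 2) * H) j _ ?_
    intro s hs
    obtain ⟨Q, hQ, rfl⟩ := Finset.mem_image.1 hs
    obtain ⟨h1, h2⟩ := hFm Q hQ
    have hzQ := hz Q (hBm Q h1)
    refine ⟨z Q, ⟨h2, rfl, ?_⟩, hzQ.2.1⟩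
    intro k
    have h4 := hzQ.2.2 k
    rw [eval_C]
    linear_combination (-1 : ℤ) * h4
  rw [Finset.card_eq_sum_card_fiberwise hmaps]
  push_cast
  refine (Finset.sum_le_card_nsmul _ _ K hfib).trans (le_of_eq ?_)
  rw [nsmul_eq_mul]

/-- the ratio of radius and modulus -/
lemma ratio {d : ℕ} (hd : 2 ≤ d) {D G L0 : ℕ} (hD : D ≠ 0) (hG : 1 ≤ G) (h0 : 1 ≤ L0) (j : ℕ) :
    (Lq d G L0 j : ℝ) / Mj d D j ≤ 4 * (d + 1) * ((G : ℝ) / D) ^ (1 / (d - 1) : ℝ) *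
      (L0 : ℝ) ^ ((1 / d : ℝ) ^ j) * (D : ℝ) ^ ((1 / d : ℝ) ^ j) := by
  have hd0 : (0 : ℝ) < d := by exact_mod_cast (by omega : 0 < d)
  have hd2 : (2 : ℝ) ≤ d := by exact_mod_cast hd
  have hd1 : (0 : ℝ) < (d : ℝ) - 1 := by linarith
  have hD0 : (0 : ℝ) < D := by exact_mod_cast Nat.pos_of_ne_zero hD
  have hD1 : (1 : ℝ) ≤ D := by exact_mod_cast Nat.pos_of_ne_zero hD
  have hM0 : (0 : ℝ) < Mj d D j := by exact_mod_cast Mj_pos d D j
  set x : ℝ := (1 / d : ℝ) ^ j with hx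
  have hx0 : 0 < x := by positivity
  have hdj : (0 : ℝ) < (d : ℝ) ^ j := by positivity
  have hxd : x = 1 / (d : ℝ) ^ j := by rw [hx, one_div, one_div, inv_pow]
  -- the modulus
  have hM : (D : ℝ) ^ ((1 - x) / (d - 1) : ℝ) ≤ Mj d D j := by
    have h1 : ((D : ℝ)) ^ (d ^ j - 1) ≤ (Mj d D j : ℝ) ^ ((d - 1) * d ^ j) := by
      exact_mod_cast Mj_lower (by omega : 1 ≤ d) hD j
    have hpos : (d - 1) * d ^ j ≠ 0 := (Nat.mul_pos (by omega) (by positivity)).ne'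
    have h2 : ((D : ℝ) ^ ((1 - x) / (d - 1) : ℝ)) ^ ((d - 1) * d ^ j) ≤
        (Mj d D j : ℝ) ^ ((d - 1) * d ^ j) := by
      refine le_trans (le_of_eq ?_) h1
      rw [← Real.rpow_natCast, ← Real.rpow_natCast, ← Real.rpow_mul hD0.le]
      congr 1
      have h3 : 1 ≤ d ^ j := Nat.one_le_pow _ _ (by omega)
      rw [Nat.cast_mul, Nat.cast_sub (by omega : 1 ≤ d), Nat.cast_sub h3, hxd]
      push_cast
      field_simp
    exact le_of_pow_le_pow_left₀ hpos hM0.le h2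
  have hL := Lq_le hd hG h0 j
  rw [← hx] at hL
  have hGp : (0 : ℝ) < G := by exact_mod_cast hG
  have hLp : (0 : ℝ) < L0 := by exact_mod_cast h0
  have e1 : (D : ℝ) ^ (1 / (d - 1) : ℝ) =
      (D : ℝ) ^ ((1 - x) / (d - 1) : ℝ) * (D : ℝ) ^ (x / (d - 1) : ℝ) := by
    rw [← Real.rpow_add hD0]; congr 1; field_simp; ring
  have e2 : (D : ℝ) ^ (x / (d - 1) : ℝ) ≤ (D : ℝ) ^ x := by
    apply Real.rpow_le_rpow_of_exponent_le hD1
    rw [div_le_iff₀ hd1]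
    nlinarith
  rw [div_le_iff₀ hM0, Real.div_rpow hGp.le hD0.le]
  have hDp1 : 0 < (D : ℝ) ^ ((1 - x) / (d - 1) : ℝ) := Real.rpow_pos_of_pos hD0 _
  have hDp2 : 0 < (D : ℝ) ^ (x / (d - 1) : ℝ) := Real.rpow_pos_of_pos hD0 _
  calc (Lq d G L0 j : ℝ) ≤ 4 * (d + 1) * (G : ℝ) ^ (1 / (d - 1) : ℝ) * (L0 : ℝ) ^ x := hL
    _ = 4 * (d + 1) * ((G : ℝ) ^ (1 / (d - 1) : ℝ) / (D : ℝ) ^ (1 / (d - 1) : ℝ)) * (L0 : ℝ) ^ x *
          (D : ℝ) ^ (x / (d - 1) : ℝ) * (D : ℝ) ^ ((1 - x) / (d - 1) : ℝ) := by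
        rw [e1]
        field_simp
    _ ≤ 4 * (d + 1) * ((G : ℝ) ^ (1 / (d - 1) : ℝ) / (D : ℝ) ^ (1 / (d - 1) : ℝ)) * (L0 : ℝ) ^ x *
          (D : ℝ) ^ x * Mj d D j := by
        gcongr

lemma nn_pos {d : ℕ} (hd : 1 ≤ d) (j : ℕ) : 1 ≤ nn d j := by
  induction j with
  | zero => simp [nn]
  | succ j ih =>
    unfold nn
    exact Nat.mul_pos (by omega) (by positivity)

/-- the bound of the slices -/
lemma KK_le (d : ℕ) (hd : 2 ≤ d) (ε : ℝ) (hε : 0 < ε) : ∃ (j : ℕ) (C : ℝ), 1 ≤ C ∧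
    ∀ H : ℕ, 1 ≤ H → ∀ μ : ℤ, μ ≠ 0 → μ.natAbs ≤ H ^ (d - 1) → KK d H μ j ≤ C * (H : ℝ) ^ ε := by
  have hd0 : (0 : ℝ) < d := by exact_mod_cast (by omega : 0 < d)
  have hd2 : (2 : ℝ) ≤ d := by exact_mod_cast hd
  obtain ⟨j, hj⟩ := exists_pow_lt_of_lt_one (show 0 < ε / 2 by positivity)
    (show (1 / d : ℝ) < 1 by rw [div_lt_one hd0]; linarith)
  obtain ⟨C1, hC11, hC1⟩ := omega_pow (d ^ j) (Nat.one_le_pow _ _ (by omega)) (ε / 2 / d)
    (by positivity)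
  refine ⟨j, C1 * (d ^ j * (2 * (((d : ℝ) ^ j + 1) * (d + 2)) + 3)), ?_, ?_⟩
  · have h1 : (1 : ℝ) ≤ (d : ℝ) ^ j := one_le_pow₀ (by linarith)
    have h2 : (1 : ℝ) ≤ 2 * (((d : ℝ) ^ j + 1) * (d + 2)) + 3 := by
      have : 0 ≤ ((d : ℝ) ^ j + 1) * (d + 2) := by positivity
      linarith
    exact one_le_mul_of_one_le_of_one_le hC11 (one_le_mul_of_one_le_of_one_le h1 h2)
  intro H hH μ hμ hμH
  have hH1 : (1 : ℝ) ≤ H := by exact_mod_cast hH
  have hH0 : (0 : ℝ) < H := by linarith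
  unfold KK
  have hμR : (0 : ℝ) < μ.natAbs := by exact_mod_cast Int.natAbs_pos.2 hμ
  have h1 : (((d ^ j) ^ μ.natAbs.primeFactors.card : ℕ) : ℝ) ≤ C1 * (H : ℝ) ^ (ε / 2) := by
    refine (hC1 μ.natAbs (Int.natAbs_ne_zero.2 hμ)).trans ?_
    have h2 : ((μ.natAbs : ℕ) : ℝ) ≤ (H : ℝ) ^ (d : ℝ) := by
      calc ((μ.natAbs : ℕ) : ℝ) ≤ (H : ℝ) ^ (d - 1) := by exact_mod_cast hμH
        _ ≤ (H : ℝ) ^ d := pow_le_pow_right₀ hH1 (by omega)
        _ = (H : ℝ) ^ (d : ℝ) := (Real.rpow_natCast _ _).symm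
    have h3 : ((μ.natAbs : ℕ) : ℝ) ^ (ε / 2 / d) ≤ (H : ℝ) ^ (ε / 2) := by
      calc ((μ.natAbs : ℕ) : ℝ) ^ (ε / 2 / d) ≤ ((H : ℝ) ^ (d : ℝ)) ^ (ε / 2 / d) :=
            Real.rpow_le_rpow hμR.le h2 (by positivity)
        _ = (H : ℝ) ^ (ε / 2) := by
            rw [← Real.rpow_mul hH0.le]; congr 1; field_simp
    gcongr
  have h4 : (((d : ℝ) ^ j + 1) * ((d + 2) * H : ℕ)) ^ ((1 / d : ℝ) ^ j) ≤
      (((d : ℝ) ^ j + 1) * (d + 2)) * (H : ℝ) ^ (ε / 2) := by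
    have e1 : (((d : ℝ) ^ j + 1) * ((d + 2) * H : ℕ)) = (((d : ℝ) ^ j + 1) * (d + 2)) * H := by
      push_cast; ring
    have h5 : (1 : ℝ) ≤ ((d : ℝ) ^ j + 1) * (d + 2) := by
      have : (0 : ℝ) ≤ (d : ℝ) ^ j := by positivity
      nlinarith
    have hx0 : 0 < (1 / d : ℝ) ^ j := by positivity
    have hx1 : (1 / d : ℝ) ^ j ≤ 1 := pow_le_one₀ (by positivity) (by
      rw [div_le_one hd0]; linarith)
    rw [e1, Real.mul_rpow (by positivity) hH0.le]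
    have h6 : (((d : ℝ) ^ j + 1) * (d + 2)) ^ ((1 / d : ℝ) ^ j) ≤ ((d : ℝ) ^ j + 1) * (d + 2) := by
      calc _ ≤ (((d : ℝ) ^ j + 1) * (d + 2)) ^ (1 : ℝ) := Real.rpow_le_rpow_of_exponent_le h5 hx1
        _ = _ := Real.rpow_one _
    have h7 : (H : ℝ) ^ ((1 / d : ℝ) ^ j) ≤ (H : ℝ) ^ (ε / 2) :=
      Real.rpow_le_rpow_of_exponent_le hH1 hj.le
    gcongr
  have hHe1 : (1 : ℝ) ≤ (H : ℝ) ^ (ε / 2) := Real.one_le_rpow hH1 (by positivity)
  calc _ ≤ (C1 * (H : ℝ) ^ (ε / 2)) *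
        (d ^ j * (2 * ((((d : ℝ) ^ j + 1) * (d + 2)) * (H : ℝ) ^ (ε / 2)) + 3 * (H : ℝ) ^ (ε / 2))) := by
        gcongr
        linarith
    _ = C1 * (d ^ j * (2 * (((d : ℝ) ^ j + 1) * (d + 2)) + 3)) *
        ((H : ℝ) ^ (ε / 2) * (H : ℝ) ^ (ε / 2)) := by ring
    _ = _ := by rw [← Real.rpow_add hH0]; congr 2; ring

end Pool.Agent.W5h37.HF
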