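import Pool.Agent.W5h37.HF.Count
import Pool.Agent.W5h37.Thin.PowersMain
import Pool.Agent.W5h37.Thin.Strong

/-!
# Estimates
-/

set_option autoImplicit false

namespace Pool.Agent.W5h37.HF

open Finset Filter Pool.Agent.H674R3 Pool.Agent.W5h37.Thin

/-- the radius and the modulus of the fibre -/
noncomputable def LF (d H j : ℕ) (b : ℤ) : ℕ := Lq d (3 * H * b.natAbs ^ (d - 2)) ((d + 2) * H + 1) j

/-- the modulus of the fibre -/
def MF (d j : ℕ) (b : ℤ) : ℕ := Mj d (b.natAbs ^ (d - 2)) j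

lemma MF_pos (d j : ℕ) (b : ℤ) : 0 < MF d j b := Mj_pos _ _ _

lemma MF_eq {d : ℕ} (hd : 3 ≤ d) (j : ℕ) (b : ℤ) :
    MF d j b = ∏ p ∈ b.natAbs.primeFactors, p ^ cs d ((d - 2) * b.natAbs.factorization p) j := by
  unfold MF Mj
  rw [Nat.primeFactors_pow _ (by omega)]
  refine Finset.prod_congr rfl fun p _ => ?_
  rw [Nat.factorization_pow]
  simp

lemma natAbs_prod {a : ℤ} (ha : a ≠ 0) :
    a.natAbs = ∏ p ∈ a.natAbs.primeFactors, p ^ a.natAbs.factorization p :=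
  (Nat.prod_factorization_pow_eq_self (Int.natAbs_ne_zero.2 ha)).symm

lemma pow_ge {d j : ℕ} (hd : 3 ≤ d) (hj : 2 ≤ j) : d ^ 2 ≤ d ^ j :=
  Nat.pow_le_pow_right (by omega) hj

lemma fact_pos {b : ℤ} {p : ℕ} (hp : p ∈ b.natAbs.primeFactors) :
    1 ≤ b.natAbs.factorization p :=
  ((Nat.prime_of_mem_primeFactors hp).dvd_iff_one_le_factorization
    (Nat.mem_primeFactors.1 hp).2.2).1 (Nat.dvd_of_mem_primeFactors hp)

lemma rad_le_MF {d j : ℕ} (hd : 3 ≤ d) (hj : 1 ≤ j) (b : ℤ) : rad b ≤ MF d j b := by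
  rw [MF_eq hd]
  unfold rad
  refine Finset.prod_le_prod' fun p hp => ?_
  have hv := fact_pos hp
  set v := b.natAbs.factorization p with hvdef
  have h := cs_lower (by omega : 1 ≤ d) ((d - 2) * v) j
  have hpos : 1 ≤ cs d ((d - 2) * v) j := by
    by_contra hcon
    have h0 : cs d ((d - 2) * v) j = 0 := by omega
    rw [h0, mul_zero] at h
    have h1 : 1 ≤ (d - 2) * v := Nat.mul_pos (by omega) hv
    have h2 : 1 ≤ d ^ j - 1 := by
      have : d ^ 1 ≤ d ^ j := Nat.pow_le_pow_right (by omega) hj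
      rw [pow_one] at this
      omega
    have h3 : 1 ≤ (d - 2) * v * (d ^ j - 1) := Nat.mul_pos h1 h2
    omega
  calc p = p ^ 1 := (pow_one p).symm
    _ ≤ _ := Nat.pow_le_pow_right (Nat.prime_of_mem_primeFactors hp).pos hpos

lemma MF_sq {d j : ℕ} (hd : 4 ≤ d) (hj : 2 ≤ j) {b : ℤ} (hb : b ≠ 0) :
    b.natAbs * rad b ≤ MF d j b ^ 2 := by
  have h1 : b.natAbs * rad b = ∏ p ∈ b.natAbs.primeFactors,
      p ^ (b.natAbs.factorization p + 1) := by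
    have h2 : rad b = ∏ p ∈ b.natAbs.primeFactors, p := rfl
    calc b.natAbs * rad b = (∏ p ∈ b.natAbs.primeFactors, p ^ b.natAbs.factorization p) *
          ∏ p ∈ b.natAbs.primeFactors, p := by rw [← natAbs_prod hb, h2]
      _ = _ := by
          rw [← Finset.prod_mul_distrib]
          refine Finset.prod_congr rfl fun p _ => ?_
          rw [pow_succ]
  rw [h1, MF_eq (by omega), ← Finset.prod_pow]
  refine Finset.prod_le_prod' fun p hp => ?_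
  rw [← pow_mul]
  refine Nat.pow_le_pow_right (Nat.prime_of_mem_primeFactors hp).pos ?_
  have hv := fact_pos hp
  set v := b.natAbs.factorization p with hvdef
  have h := cs_lower (by omega : 1 ≤ d) ((d - 2) * v) j
  set c := cs d ((d - 2) * v) j
  have hN := pow_ge (by omega : 3 ≤ d) hj
  obtain ⟨n, hn⟩ : ∃ n, d ^ j = n + 1 := ⟨d ^ j - 1, by
    have : 0 < d ^ j := by positivity
    omega⟩
  rw [hn] at h hN
  rw [Nat.add_sub_cancel] at h
  obtain ⟨e, rfl⟩ : ∃ e, d = e + 4 := ⟨d - 4, by omega⟩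
  have e1 : e + 4 - 2 = e + 2 := by omega
  have e2 : e + 4 - 1 = e + 3 := by omega
  rw [e1, e2] at h
  by_contra hcon
  have h2 : 2 * c ≤ v := by omega
  have h3 : 2 * ((e + 2) * v * n) ≤ (e + 3) * (n + 1) * v := by
    calc 2 * ((e + 2) * v * n) ≤ 2 * ((e + 3) * (n + 1) * c) := Nat.mul_le_mul_left _ h
      _ = (e + 3) * (n + 1) * (2 * c) := by ring
      _ ≤ _ := Nat.mul_le_mul_left _ h2
  have h4 : 2 * ((e + 2) * n) ≤ (e + 3) * (n + 1) := by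
    refine Nat.le_of_mul_le_mul_right (c := v) ?_ hv
    calc 2 * ((e + 2) * n) * v = 2 * ((e + 2) * v * n) := by ring
      _ ≤ _ := h3
  nlinarith

lemma MF_thin {d j : ℕ} (hd : 3 ≤ d) (hj : 2 ≤ j) {b : ℤ} (hb : b ≠ 0) {E : ℕ}
    (hE : ∀ e : ℕ, e ^ (d - 1) ∣ b.natAbs → e < E) : b.natAbs ≤ MF d j b * E ^ 4 := by
  set e := ∏ p ∈ b.natAbs.primeFactors, p ^ (b.natAbs.factorization p / (d - 1)) with he
  have h1 : e ^ (d - 1) ∣ b.natAbs := by
    conv_rhs => rw [natAbs_prod hb]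
    rw [he, ← Finset.prod_pow]
    refine Finset.prod_dvd_prod_of_dvd _ _ fun p _ => ?_
    rw [← pow_mul]
    exact pow_dvd_pow _ (Nat.div_mul_le_self _ _)
  have h2 : b.natAbs ≤ MF d j b * e ^ 4 := by
    conv_lhs => rw [natAbs_prod hb]
    rw [MF_eq hd, he, ← Finset.prod_pow, ← Finset.prod_mul_distrib]
    refine Finset.prod_le_prod' fun p hp => ?_
    rw [← pow_mul, ← pow_add]
    refine Nat.pow_le_pow_right (Nat.prime_of_mem_primeFactors hp).pos ?_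
    set v := b.natAbs.factorization p
    have h := cs_lower (by omega : 1 ≤ d) ((d - 2) * v) j
    set c := cs d ((d - 2) * v) j
    set q := v / (d - 1) with hq
    have h3 : v < (d - 1) * (q + 1) := Nat.lt_mul_div_succ v (by omega)
    have hN := pow_ge hd hj
    obtain ⟨n, hn⟩ : ∃ n, d ^ j = n + 1 := ⟨d ^ j - 1, by
      have : 0 < d ^ j := by positivity
      omega⟩
    rw [hn] at h hN
    rw [Nat.add_sub_cancel] at h
    obtain ⟨f, rfl⟩ : ∃ f, d = f + 3 := ⟨d - 3, by omega⟩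
    have e1 : f + 3 - 2 = f + 1 := by omega
    have e2 : f + 3 - 1 = f + 2 := by omega
    rw [e1, e2] at h
    rw [e2] at h3
    by_contra hcon
    push Not at hcon
    have h4 : c + q * 4 + 1 ≤ v := hcon
    have h5 : (f + 2) * (n + 1) * (c + q * 4 + 1) ≤ (f + 2) * (n + 1) * v := Nat.mul_le_mul_left _ h4
    have h6 : (f + 2) * (n + 1) * (4 * q + 1) ≤ v * (n + f + 2) := by nlinarith
    have h7 : (v + 1) * (n + f + 2) ≤ (f + 2) * (q + 1) * (n + f + 2) := Nat.mul_le_mul_right _ h3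
    have h8 : (f + 2) * (n + 1) * (3 * q) + n + f + 2 ≤ (f + 2) * (f + 1) * (q + 1) := by nlinarith
    have h9 : (f + 2) * (f + 1) ≤ n := by nlinarith
    have h10 : (f + 2) * (f + 1) * q ≤ (f + 2) * (n + 1) * (3 * q) := by
      have g1 : f + 1 ≤ n + 1 := by nlinarith
      calc (f + 2) * (f + 1) * q ≤ (f + 2) * (n + 1) * q :=
            Nat.mul_le_mul_right _ (Nat.mul_le_mul_left _ g1)
        _ ≤ (f + 2) * (n + 1) * (3 * q) := Nat.mul_le_mul_left _ (by omega)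
    nlinarith
  exact h2.trans (Nat.mul_le_mul_left _ (Nat.pow_le_pow_left (hE e h1).le 4))

/-- the number of the coordinates in the fibre -/
theorem coordsF (d : ℕ) (hd : 2 ≤ d) (j : ℕ) (ε : ℝ) (hε : 0 < ε) : ∃ C : ℝ, 1 ≤ C ∧
    ∀ H : ℕ, 1 ≤ H → ∀ (a : Fin (d + 1) → ℤ) (δ m : ℤ), (∀ i, |a i| ≤ (H : ℤ)) → |δ| ≤ (H : ℤ) →
      |m| ≤ (H : ℤ) → a (Fin.last d) ≠ 0 →
      ((SA d H (pg d (cg a)) (a (Fin.last d)) δ m {t | |t| ≤ (H : ℤ)}).card : ℝ) ≤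
        C * (H : ℝ) ^ ε * ((LF d H j (a (Fin.last d)) : ℝ) / MF d j (a (Fin.last d)) + 1) := by
  have hd0 : (0 : ℝ) < d := by exact_mod_cast (by omega : 0 < d)
  have hn1 := nn_pos (by omega : 1 ≤ d) j
  obtain ⟨C1, hC11, hC1⟩ := omega_pow (nn d j) hn1 (ε / d) (by positivity)
  have hnR : (1 : ℝ) ≤ nn d j := by exact_mod_cast hn1
  refine ⟨C1 * (nn d j * 2), one_le_mul_of_one_le_of_one_le hC11
    (one_le_mul_of_one_le_of_one_le hnR (by norm_num)), ?_⟩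
  intro H hH a δ m ha hδ hm had
  have hH1 : (1 : ℝ) ≤ H := by exact_mod_cast hH
  have hH0 : (0 : ℝ) < H := by linarith
  set b := a (Fin.last d) with hb
  have hbn : 0 < b.natAbs := Int.natAbs_pos.2 had
  have hbH : b.natAbs ≤ H := by
    have h5 : ((b.natAbs : ℕ) : ℤ) ≤ H := by rw [Int.natCast_natAbs]; exact ha _
    exact_mod_cast h5
  have h := fibre_coords hd hH (pg d (cg a)) (pg_monic d _) (pg_natDegree d _) b δ m (ha _) hδ hm
    had j
  have hM0 : (0 : ℝ) < MF d j b := by exact_mod_cast MF_pos d j b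
  have h1 : (((nn d j) ^ (b.natAbs ^ (d - 2)).primeFactors.card : ℕ) : ℝ) ≤ C1 * (H : ℝ) ^ ε := by
    refine (hC1 _ (pow_pos hbn _).ne').trans ?_
    have h2 : ((b.natAbs ^ (d - 2) : ℕ) : ℝ) ≤ (H : ℝ) ^ (d : ℝ) := by
      calc ((b.natAbs ^ (d - 2) : ℕ) : ℝ) ≤ ((H ^ d : ℕ) : ℝ) := by
            exact_mod_cast (Nat.pow_le_pow_left hbH _).trans (Nat.pow_le_pow_right hH (by omega))
        _ = (H : ℝ) ^ (d : ℝ) := by push_cast; exact (Real.rpow_natCast _ _).symm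
    have h3 : ((b.natAbs ^ (d - 2) : ℕ) : ℝ) ^ (ε / d) ≤ (H : ℝ) ^ ε := by
      calc ((b.natAbs ^ (d - 2) : ℕ) : ℝ) ^ (ε / d) ≤ ((H : ℝ) ^ (d : ℝ)) ^ (ε / d) :=
            Real.rpow_le_rpow (by positivity) h2 (by positivity)
        _ = (H : ℝ) ^ ε := by
            rw [← Real.rpow_mul hH0.le]; congr 1; field_simp
    gcongr
  have h2 : (((2 * LF d H j b / MF d j b : ℕ)) : ℝ) + 1 ≤ 2 * ((LF d H j b : ℝ) / MF d j b + 1) := by
    have : (((2 * LF d H j b / MF d j b : ℕ)) : ℝ) ≤ 2 * ((LF d H j b : ℝ) / MF d j b) := by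
      refine Nat.cast_div_le.trans (le_of_eq ?_)
      push_cast; ring
    linarith
  calc ((SA d H (pg d (cg a)) b δ m {t | |t| ≤ (H : ℤ)}).card : ℝ)
      ≤ ((nn d j ^ (b.natAbs ^ (d - 2)).primeFactors.card * (nn d j *
        (2 * LF d H j b / MF d j b + 1)) : ℕ) : ℝ) := by exact_mod_cast h
    _ = (((nn d j) ^ (b.natAbs ^ (d - 2)).primeFactors.card : ℕ) : ℝ) *
        (nn d j * ((((2 * LF d H j b / MF d j b : ℕ)) : ℝ) + 1)) := by push_cast; ring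
    _ ≤ (C1 * (H : ℝ) ^ ε) * (nn d j * (2 * ((LF d H j b : ℝ) / MF d j b + 1))) := by
        gcongr
    _ = _ := by ring

/-- the number of the coordinates of one map -/
theorem coordsS (d : ℕ) (hd : 2 ≤ d) (ε : ℝ) (hε : 0 < ε) : ∃ C : ℝ, 1 ≤ C ∧
    ∀ H : ℕ, 1 ≤ H → ∀ (a : Fin (d + 1) → ℤ) (δ m : ℤ), (∀ i, |a i| ≤ (H : ℤ)) → |δ| ≤ (H : ℤ) →
      |m| ≤ (H : ℤ) → a (Fin.last d) ≠ 0 → m ≠ 0 →
      ((SA d H (pg d (cg a)) (a (Fin.last d)) δ m {a 0}).card : ℝ) ≤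
        C * (H : ℝ) ^ ε * ((max δ.natAbs m.natAbs : ℕ) / (Int.gcd δ m : ℝ)) ^ (1 / (d - 1) : ℝ) := by
  have hd0 : (0 : ℝ) < d := by exact_mod_cast (by omega : 0 < d)
  have hd2 : (2 : ℝ) ≤ d := by exact_mod_cast hd
  have hd1 : (0 : ℝ) < (d : ℝ) - 1 := by linarith
  obtain ⟨j, hj⟩ := exists_pow_lt_of_lt_one (show 0 < ε / (2 * (d + 1)) by positivity)
    (show (1 / d : ℝ) < 1 by rw [div_lt_one hd0]; linarith)
  have hn1 := nn_pos (by omega : 1 ≤ d) j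
  obtain ⟨C1, hC11, hC1⟩ := omega_pow (nn d j) hn1 (ε / 2 / d) (by positivity)
  have hnR : (1 : ℝ) ≤ nn d j := by exact_mod_cast hn1
  set B : ℝ := 2 * (4 * (d + 1) * 2 * (d + 3)) + 1 with hB
  have hB1 : 1 ≤ B := by
    have : (0 : ℝ) ≤ 2 * (4 * (d + 1) * 2 * (d + 3)) := by positivity
    linarith
  refine ⟨C1 * (nn d j * B), one_le_mul_of_one_le_of_one_le hC11
    (one_le_mul_of_one_le_of_one_le hnR hB1), ?_⟩
  intro H hH a δ m ha hδ hm had hm0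
  have hH1 : (1 : ℝ) ≤ H := by exact_mod_cast hH
  have hH0 : (0 : ℝ) < H := by linarith
  set b := a (Fin.last d) with hb
  have hbn : 0 < b.natAbs := Int.natAbs_pos.2 had
  have hbH : b.natAbs ≤ H := by
    have h5 : ((b.natAbs : ℕ) : ℤ) ≤ H := by rw [Int.natCast_natAbs]; exact ha _
    exact_mod_cast h5
  have hmH : m.natAbs ≤ H := by
    have h5 : ((m.natAbs : ℕ) : ℤ) ≤ H := by rw [Int.natCast_natAbs]; exact hm
    exact_mod_cast h5
  have hmn : 0 < m.natAbs := Int.natAbs_pos.2 hm0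
  have h := single_coords hd (H := H) (pg d (cg a)) (pg_monic d _) (pg_natDegree d _) b δ m (a 0)
    had hm0 j
  have hg : (b ^ (d - 2) * m).natAbs.gcd (b ^ (d - 2) * δ).natAbs =
      b.natAbs ^ (d - 2) * Int.gcd δ m := by
    rw [Int.natAbs_mul, Int.natAbs_mul, Int.natAbs_pow, Nat.gcd_mul_left, Nat.gcd_comm]
    rfl
  have hG : (b ^ (d - 2) * m).natAbs + (b ^ (d - 2) * δ).natAbs =
      b.natAbs ^ (d - 2) * (m.natAbs + δ.natAbs) := by
    rw [Int.natAbs_mul, Int.natAbs_mul, Int.natAbs_pow]; ring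
  rw [hg, hG] at h
  have hgpos : 0 < Int.gcd δ m := Int.gcd_pos_of_ne_zero_right δ hm0
  set g := Int.gcd δ m with hgdef
  set D := b.natAbs ^ (d - 2) * g with hD
  set G := b.natAbs ^ (d - 2) * (m.natAbs + δ.natAbs) with hGdef
  set L0 := (d + 2) * H + 1 with hL0
  have hDpos : 0 < D := Nat.mul_pos (pow_pos hbn _) hgpos
  have hgm : g ≤ m.natAbs := Nat.le_of_dvd hmn (Nat.gcd_dvd_right _ _)
  have hDH : D ≤ H ^ (d - 1) := by
    calc D ≤ H ^ (d - 2) * H := Nat.mul_le_mul (Nat.pow_le_pow_left hbH _) (hgm.trans hmH)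
      _ = H ^ (d - 1) := by rw [← pow_succ]; congr 1; omega
  have hDR : (0 : ℝ) < D := by exact_mod_cast hDpos
  have hD1 : (1 : ℝ) ≤ D := by exact_mod_cast hDpos
  have hDHr : ((D : ℕ) : ℝ) ≤ (H : ℝ) ^ (d : ℝ) := by
    calc ((D : ℕ) : ℝ) ≤ ((H ^ d : ℕ) : ℝ) := by
          exact_mod_cast hDH.trans (Nat.pow_le_pow_right hH (by omega))
      _ = (H : ℝ) ^ (d : ℝ) := by push_cast; exact (Real.rpow_natCast _ _).symm
  have hG1 : 1 ≤ G := Nat.mul_pos (pow_pos hbn _) (by omega)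
  have hM0 : (0 : ℝ) < Mj d D j := by exact_mod_cast Mj_pos d D j
  have hr := ratio hd hDpos.ne' hG1 (by omega : 1 ≤ L0) j
  set x : ℝ := (1 / d : ℝ) ^ j with hx
  have hx0 : 0 < x := by positivity
  set J : ℝ := ((max δ.natAbs m.natAbs : ℕ) / (g : ℝ)) with hJ
  have hgR : (0 : ℝ) < g := by exact_mod_cast hgpos
  have hJ1 : 1 ≤ J := by
    rw [hJ, le_div_iff₀ hgR, one_mul]
    exact_mod_cast hgm.trans (le_max_right _ _)
  have hGD : (G : ℝ) / D ≤ 2 * J := by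
    rw [hJ, hGdef, hD]
    push_cast
    have hb0 : (0 : ℝ) < (b.natAbs : ℝ) ^ (d - 2) := by positivity
    rw [mul_div_mul_left _ _ hb0.ne', ← mul_div_assoc]
    apply div_le_div_of_nonneg_right _ hgR.le
    have h1 : (m.natAbs : ℝ) ≤ max (δ.natAbs : ℝ) (m.natAbs : ℝ) := le_max_right _ _
    have h2 : (δ.natAbs : ℝ) ≤ max (δ.natAbs : ℝ) (m.natAbs : ℝ) := le_max_left _ _
    linarith
  have hGD' : ((G : ℝ) / D) ^ (1 / (d - 1) : ℝ) ≤ 2 * J ^ (1 / (d - 1) : ℝ) := by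
    calc ((G : ℝ) / D) ^ (1 / (d - 1) : ℝ) ≤ (2 * J) ^ (1 / (d - 1) : ℝ) :=
          Real.rpow_le_rpow (by positivity) hGD (by positivity)
      _ = (2 : ℝ) ^ (1 / (d - 1) : ℝ) * J ^ (1 / (d - 1) : ℝ) :=
          Real.mul_rpow (by norm_num) (by linarith)
      _ ≤ (2 : ℝ) ^ (1 : ℝ) * J ^ (1 / (d - 1) : ℝ) := by
          have e1 : (1 / (d - 1) : ℝ) ≤ 1 := by rw [div_le_one hd1]; linarith
          have e2 : (2 : ℝ) ^ (1 / (d - 1) : ℝ) ≤ (2 : ℝ) ^ (1 : ℝ) :=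
            Real.rpow_le_rpow_of_exponent_le (by norm_num) e1
          have e3 : 0 ≤ J ^ (1 / (d - 1) : ℝ) := Real.rpow_nonneg (by linarith) _
          exact mul_le_mul_of_nonneg_right e2 e3
      _ = _ := by rw [Real.rpow_one]
  have hLx : (L0 : ℝ) ^ x ≤ (d + 3) * (H : ℝ) ^ x := by
    have h1 : (L0 : ℝ) ≤ (d + 3) * H := by
      rw [hL0]; push_cast; nlinarith
    calc (L0 : ℝ) ^ x ≤ ((d + 3) * H : ℝ) ^ x := Real.rpow_le_rpow (by positivity) h1 hx0.le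
      _ = (d + 3 : ℝ) ^ x * (H : ℝ) ^ x := Real.mul_rpow (by positivity) hH0.le
      _ ≤ (d + 3 : ℝ) ^ (1 : ℝ) * (H : ℝ) ^ x := by
          have hx1 : x ≤ 1 := pow_le_one₀ (by positivity) (by rw [div_le_one hd0]; linarith)
          have e2 : (d + 3 : ℝ) ^ x ≤ (d + 3 : ℝ) ^ (1 : ℝ) :=
            Real.rpow_le_rpow_of_exponent_le (by linarith) hx1
          gcongr
      _ = _ := by rw [Real.rpow_one]
  have hDx : (D : ℝ) ^ x ≤ (H : ℝ) ^ (d * x) := by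
    calc (D : ℝ) ^ x ≤ ((H : ℝ) ^ (d : ℝ)) ^ x := Real.rpow_le_rpow hDR.le hDHr hx0.le
      _ = _ := (Real.rpow_mul hH0.le _ _).symm
  have hHx : (H : ℝ) ^ x * (H : ℝ) ^ (d * x) ≤ (H : ℝ) ^ (ε / 2) := by
    rw [← Real.rpow_add hH0]
    apply Real.rpow_le_rpow_of_exponent_le hH1
    have h1 : x * (2 * (d + 1)) ≤ ε := by
      have := hj.le
      rw [le_div_iff₀ (by positivity)] at this
      exact this
    linarith
  have hJp : 0 ≤ J ^ (1 / (d - 1) : ℝ) := Real.rpow_nonneg (by linarith) _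
  have hJp1 : 1 ≤ J ^ (1 / (d - 1) : ℝ) := Real.one_le_rpow hJ1 (by positivity)
  have hLM : (Lq d G L0 j : ℝ) / Mj d D j ≤
      4 * (d + 1) * 2 * (d + 3) * ((H : ℝ) ^ (ε / 2) * J ^ (1 / (d - 1) : ℝ)) := by
    calc (Lq d G L0 j : ℝ) / Mj d D j ≤ 4 * (d + 1) * ((G : ℝ) / D) ^ (1 / (d - 1) : ℝ) *
          (L0 : ℝ) ^ x * (D : ℝ) ^ x := hr
      _ ≤ 4 * (d + 1) * (2 * J ^ (1 / (d - 1) : ℝ)) * ((d + 3) * (H : ℝ) ^ x) *
          (H : ℝ) ^ (d * x) := by gcongr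
      _ = 4 * (d + 1) * 2 * (d + 3) * (((H : ℝ) ^ x * (H : ℝ) ^ (d * x)) *
          J ^ (1 / (d - 1) : ℝ)) := by ring
      _ ≤ _ := by gcongr
  have h1 : (((nn d j) ^ D.primeFactors.card : ℕ) : ℝ) ≤ C1 * (H : ℝ) ^ (ε / 2) := by
    refine (hC1 _ hDpos.ne').trans ?_
    have h3 : ((D : ℕ) : ℝ) ^ (ε / 2 / d) ≤ (H : ℝ) ^ (ε / 2) := by
      calc ((D : ℕ) : ℝ) ^ (ε / 2 / d) ≤ ((H : ℝ) ^ (d : ℝ)) ^ (ε / 2 / d) :=
            Real.rpow_le_rpow (by positivity) hDHr (by positivity)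
        _ = (H : ℝ) ^ (ε / 2) := by
            rw [← Real.rpow_mul hH0.le]; congr 1; field_simp
    gcongr
  have hHe1 : (1 : ℝ) ≤ (H : ℝ) ^ (ε / 2) := Real.one_le_rpow hH1 (by positivity)
  have h2 : (((2 * Lq d G L0 j / Mj d D j : ℕ)) : ℝ) + 1 ≤
      B * ((H : ℝ) ^ (ε / 2) * J ^ (1 / (d - 1) : ℝ)) := by
    have h3 : (((2 * Lq d G L0 j / Mj d D j : ℕ)) : ℝ) ≤ 2 * ((Lq d G L0 j : ℝ) / Mj d D j) := by
      refine Nat.cast_div_le.trans (le_of_eq ?_)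
      push_cast; ring
    have h4 : 1 ≤ (H : ℝ) ^ (ε / 2) * J ^ (1 / (d - 1) : ℝ) :=
      one_le_mul_of_one_le_of_one_le hHe1 hJp1
    rw [hB]
    linarith
  calc ((SA d H (pg d (cg a)) b δ m {a 0}).card : ℝ)
      ≤ ((nn d j ^ D.primeFactors.card * (nn d j * (2 * Lq d G L0 j / Mj d D j + 1)) : ℕ) : ℝ) := by
        exact_mod_cast h
    _ = (((nn d j) ^ D.primeFactors.card : ℕ) : ℝ) *
        (nn d j * ((((2 * Lq d G L0 j / Mj d D j : ℕ)) : ℝ) + 1)) := by push_cast; ring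
    _ ≤ (C1 * (H : ℝ) ^ (ε / 2)) * (nn d j * (B * ((H : ℝ) ^ (ε / 2) * J ^ (1 / (d - 1) : ℝ)))) := by
        gcongr
    _ = C1 * (nn d j * B) * ((H : ℝ) ^ (ε / 2) * (H : ℝ) ^ (ε / 2)) * J ^ (1 / (d - 1) : ℝ) := by
        ring
    _ = _ := by
        rw [← Real.rpow_add hH0]
        congr 3
        ring

end Pool.Agent.W5h37.HF
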