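import Pool.Agent.H674R3.HenG
import Pool.Agent.W5h37.HF.Adm

/-!
# The constant terms of the Hénon maps with a rational periodic point, the other coefficients fixed
-/

set_option autoImplicit false

namespace Pool.Agent.W5h37.HF

open Finset Polynomial Pool.Agent.H674R3

/-- the map -/
def hen {d : ℕ} (a : Fin (d + 1) → ℤ) (δ m : ℤ) : ℚ × ℚ → ℚ × ℚ :=
  fun P => (P.2, ((∑ i : Fin (d + 1), (a i : ℚ) * P.2 ^ (i : ℕ)) - (δ : ℚ) * P.1) / (m : ℚ))

/-- the periodic points -/
def Per {d : ℕ} (a : Fin (d + 1) → ℤ) (δ m : ℤ) : Set (ℚ × ℚ) :=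
  {P | ∃ n : ℕ, 1 ≤ n ∧ (hen a δ m)^[n] P = P}

/-- the bound for the values -/
def WW (d H : ℕ) (c : ℤ) : ℕ := (2 * d + 5) * H ^ 2 * c.natAbs ^ (d - 2)

lemma cg_coe {d : ℕ} (a : Fin (d + 1) → ℤ) (i : Fin (d + 1)) : cg a (i : ℕ) = a i := by
  unfold cg
  rw [dif_pos i.2]

lemma cg_last {d : ℕ} (a : Fin (d + 1) → ℤ) : cg a d = a (Fin.last d) := cg_coe a (Fin.last d)

lemma cg_update {d : ℕ} (a : Fin (d + 1) → ℤ) (t : ℤ) {i : ℕ} (hi : 1 ≤ i) :
    cg (Function.update a 0 t) i = cg a i := by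
  unfold cg
  by_cases h : i < d + 1
  · rw [dif_pos h, dif_pos h, Function.update_of_ne]
    intro h0
    have := congrArg Fin.val h0
    simp only [Fin.val_zero] at this
    omega
  · rw [dif_neg h, dif_neg h]

lemma cg_update_zero {d : ℕ} (a : Fin (d + 1) → ℤ) (t : ℤ) : cg (Function.update a 0 t) 0 = t := by
  unfold cg
  rw [dif_pos (by omega)]
  exact Function.update_self _ _ _

lemma pg_update {d : ℕ} (hd : 3 ≤ d) (a : Fin (d + 1) → ℤ) (t : ℤ) :
    pg d (cg (Function.update a 0 t)) = pg d (cg a) := by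
  unfold pg
  congr 1
  refine Finset.sum_congr rfl fun i hi => ?_
  rw [cg_update a t (Finset.mem_Ico.1 hi).1, cg_update a t (by omega : 1 ≤ d)]

lemma adm_update {d : ℕ} (hd : 3 ≤ d) (a : Fin (d + 1) → ℤ) (t : ℤ) (M W : ℕ) :
    admG d (cg (Function.update a 0 t)) M W = admG d (cg a) M W := by
  unfold admG
  rw [pg_update hd, cg_update a t (by omega : 1 ≤ d)]

/-- the orbit of a rational periodic point -/
theorem orbit {d H : ℕ} (hd : 3 ≤ d) (hH : 1 ≤ H) (a : Fin (d + 1) → ℤ) (δ m : ℤ)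
    (ha : ∀ i, |a i| ≤ (H : ℤ)) (hδ : |δ| ≤ (H : ℤ)) (hm : |m| ≤ (H : ℤ))
    (had : a (Fin.last d) ≠ 0) (hm0 : m ≠ 0) (P : ℚ × ℚ) (hP : P ∈ Per a δ m) :
    ∃ z : ℕ → ℤ, (∀ k, z k ∈ admG d (cg a) ((d + 2) * H) (WW d H (a (Fin.last d)))) ∧
      (∀ k, (pg d (cg a)).eval (z (k + 1)) + a 0 * a (Fin.last d) ^ (d - 1) =
        a (Fin.last d) ^ (d - 2) * (m * z (k + 2) + δ * z k)) ∧
      (z 0 : ℚ) = a (Fin.last d) * P.1 ∧ (z 1 : ℚ) = a (Fin.last d) * P.2 := by
  obtain ⟨n, hn, hPn⟩ := hP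
  have hlast := cg_last a
  have hle : ∀ i, i ≤ d → |cg a i| ≤ (H : ℤ) := by
    intro i hi
    have := cg_coe a ⟨i, by omega⟩
    simp only at this
    rw [this]; exact ha _
  have hb0 : (m : ℚ) ≠ 0 := by exact_mod_cast hm0
  have hf1 : ∀ Q, (hen a δ m Q).1 = Q.2 := fun Q => rfl
  have h1 : ∀ k, ((hen a δ m)^[k + 1] P).1 = ((hen a δ m)^[k] P).2 := by
    intro k
    rw [Function.iterate_succ_apply', hf1]
  set x : ℕ → ℚ := fun k => ((hen a δ m)^[k] P).1 with hx
  have hper : Function.Periodic x n := by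
    intro k
    simp only [hx]
    rw [Function.iterate_add_apply, hPn]
  have hrec : ∀ k, (m : ℚ) * x (k + 2)
      = ∑ i ∈ range (d + 1), (cg a i : ℚ) * x (k + 1) ^ i - (δ : ℚ) * x k := by
    intro k
    simp only [hx]
    rw [show k + 2 = (k + 1) + 1 from rfl, h1 (k + 1), h1 k, Function.iterate_succ_apply']
    unfold hen
    simp only
    rw [Finset.sum_range, mul_div_cancel₀ _ hb0]
    congr 1
    apply Finset.sum_congr rfl
    intro i _
    rw [cg_coe a i]
  have hint : ∀ k, ∃ z : ℤ, (z : ℚ) = (cg a d : ℚ) * x k :=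
    fun k => int_orbB (by omega) hn hper hrec k
  choose z hz using hint
  have hzper : ∀ k, z (k + n) = z k := by
    intro k
    have h2 : (z (k + n) : ℚ) = z k := by rw [hz, hz, hper k]
    exact_mod_cast h2
  have hsize : ∀ k, |z k| ≤ (((d + 2) * H : ℕ) : ℤ) := by
    intro k
    have h5 := size_orbB (by omega) hn hper hrec hH hm hle hδ k
    rw [← hz k] at h5
    have h6 : ((|z k| : ℤ) : ℚ) ≤ (((d + 2) * H : ℕ) : ℚ) := by
      rw [Int.cast_abs]; exact h5
    exact_mod_cast h6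
  have heq : ∀ k, (pg d (cg a)).eval (z (k + 1)) + a 0 * a (Fin.last d) ^ (d - 1) =
      a (Fin.last d) ^ (d - 2) * (m * z (k + 2) + δ * z k) := by
    intro k
    have h2 := rec_intB (by omega) hn hper hrec hz k
    rw [← hlast, ← h2, pg_eval]
    obtain ⟨e, rfl⟩ : ∃ e, d = e + 1 := ⟨d - 1, by omega⟩
    rw [Finset.range_eq_Ico, Finset.sum_eq_sum_Ico_succ_bot (by omega : 0 < e + 1)]
    have h0 : cg a 0 = a 0 := cg_coe a 0
    rw [h0]
    simp only [zero_add, Nat.add_sub_cancel, Nat.sub_zero, pow_zero, mul_one]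
    ring
  refine ⟨z, ?_, heq, ?_, ?_⟩
  · have hmem : ∀ k, z (k + 1) ∈ admG d (cg a) ((d + 2) * H) (WW d H (a (Fin.last d))) := by
      intro k
      unfold admG
      rw [Finset.mem_filter, Finset.mem_Icc, hlast]
      have h3 := heq k
      have hpw : a (Fin.last d) ^ (d - 1) = a (Fin.last d) ^ (d - 2) * a (Fin.last d) := by
        rw [← pow_succ]; congr 1; omega
      have h4 : (pg d (cg a)).eval (z (k + 1)) = a (Fin.last d) ^ (d - 2) *
          (m * z (k + 2) + δ * z k - a 0 * a (Fin.last d)) := by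
        rw [hpw] at h3
        linear_combination h3
      refine ⟨abs_le.1 (hsize (k + 1)), ⟨_, h4⟩, ?_⟩
      rw [h4, abs_mul, abs_pow]
      unfold WW
      push_cast
      have h5 : |m * z (k + 2) + δ * z k - a 0 * a (Fin.last d)| ≤
          (2 * (d : ℤ) + 5) * (H : ℤ) ^ 2 := by
        have e1 : |m * z (k + 2)| ≤ (H : ℤ) * ((d + 2) * H) := by
          rw [abs_mul]
          have := hsize (k + 2)
          push_cast at this
          exact mul_le_mul hm this (abs_nonneg _) (by positivity)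
        have e2 : |δ * z k| ≤ (H : ℤ) * ((d + 2) * H) := by
          rw [abs_mul]
          have := hsize k
          push_cast at this
          exact mul_le_mul hδ this (abs_nonneg _) (by positivity)
        have e3 : |a 0 * a (Fin.last d)| ≤ (H : ℤ) * H := by
          rw [abs_mul]
          exact mul_le_mul (ha _) (ha _) (abs_nonneg _) (by positivity)
        have e4 := abs_sub (m * z (k + 2) + δ * z k) (a 0 * a (Fin.last d))
        have e5 := abs_add_le (m * z (k + 2)) (δ * z k)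
        nlinarith
      have h6 : (0 : ℤ) ≤ |a (Fin.last d)| ^ (d - 2) := by positivity
      nlinarith [mul_le_mul_of_nonneg_left h5 h6]
    intro k
    rw [← hzper k]
    obtain ⟨e, rfl⟩ : ∃ e, n = e + 1 := ⟨n - 1, by omega⟩
    exact hmem (k + e)
  · rw [hz 0, hlast]
    rfl
  · rw [hz 1, hlast]
    congr 1

/-- **The fibre inequality.** -/
theorem fibre {d H : ℕ} (hd : 3 ≤ d) (hH : 1 ≤ H) (a : Fin (d + 1) → ℤ) (δ m : ℤ)
    (ha : ∀ i, |a i| ≤ (H : ℤ)) (hδ : |δ| ≤ (H : ℤ)) (hm : |m| ≤ (H : ℤ))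
    (had : a (Fin.last d) ≠ 0) (hm0 : m ≠ 0) (S : Finset ℤ)
    (hS : ∀ t ∈ S, |t| ≤ (H : ℤ) ∧ (Per (Function.update a 0 t) δ m).Nonempty) :
    S.card ≤ (admG d (cg a) ((d + 2) * H) (WW d H (a (Fin.last d)))).card ^ 3 := by
  classical
  set T := admG d (cg a) ((d + 2) * H) (WW d H (a (Fin.last d))) with hT
  have hul : ∀ t : ℤ, Function.update a 0 t (Fin.last d) = a (Fin.last d) := by
    intro t
    rw [Function.update_of_ne]
    intro h0
    have := congrArg Fin.val h0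
    simp only [Fin.val_last, Fin.val_zero] at this
    omega
  have hdata : ∀ t ∈ S, ∃ z : ℤ × ℤ × ℤ, z ∈ T ×ˢ (T ×ˢ T) ∧
      (pg d (cg a)).eval z.2.1 + t * a (Fin.last d) ^ (d - 1) =
        a (Fin.last d) ^ (d - 2) * (m * z.2.2 + δ * z.1) := by
    intro t ht
    obtain ⟨htH, P, hP⟩ := hS t ht
    obtain ⟨z, h1, h2, -, -⟩ := orbit hd hH (Function.update a 0 t) δ m (by
      intro i
      by_cases h : i = 0
      · subst h
        simp only [Function.update_self]
        exact htH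
      · simp only [Function.update_of_ne h]
        exact ha i) hδ hm (by rw [hul]; exact had) hm0 P hP
    simp only [adm_update hd, pg_update hd, hul] at h1 h2
    rw [← hT] at h1
    refine ⟨(z 0, z 1, z 2), ?_, ?_⟩
    · rw [Finset.mem_product, Finset.mem_product]
      exact ⟨h1 0, h1 1, h1 2⟩
    · have := h2 0
      rw [Function.update_self] at this
      exact this
  choose! f hf1 hf2 using hdata
  have h1 : S.card ≤ (T ×ˢ (T ×ˢ T)).card := by
    refine Finset.card_le_card_of_injOn f (fun t ht => hf1 t ht) ?_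
    intro t ht t' ht' heq
    have e1 := hf2 t ht
    have e2 := hf2 t' ht'
    rw [heq] at e1
    have h3 : t * a (Fin.last d) ^ (d - 1) = t' * a (Fin.last d) ^ (d - 1) := by linarith
    exact mul_right_cancel₀ (pow_ne_zero _ had) h3
  refine h1.trans (le_of_eq ?_)
  rw [Finset.card_product, Finset.card_product]
  ring

/-- the number of the periodic points -/
theorem per_card {d H : ℕ} (hd : 3 ≤ d) (hH : 1 ≤ H) (a : Fin (d + 1) → ℤ) (δ m : ℤ)
    (ha : ∀ i, |a i| ≤ (H : ℤ)) (hδ : |δ| ≤ (H : ℤ)) (hm : |m| ≤ (H : ℤ))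
    (had : a (Fin.last d) ≠ 0) (hm0 : m ≠ 0) :
    (Per a δ m).Finite ∧ (Per a δ m).ncard ≤
      (admG d (cg a) ((d + 2) * H) (WW d H (a (Fin.last d)))).card ^ 2 := by
  classical
  set T := admG d (cg a) ((d + 2) * H) (WW d H (a (Fin.last d))) with hT
  have had' : (a (Fin.last d) : ℚ) ≠ 0 := by exact_mod_cast had
  have hdata : ∀ P ∈ Per a δ m, ∃ z0 ∈ T, ∃ z1 ∈ T, (z0 : ℚ) = a (Fin.last d) * P.1 ∧
      (z1 : ℚ) = a (Fin.last d) * P.2 := by
    intro P hP
    obtain ⟨z, h1, -, h3, h4⟩ := orbit hd hH a δ m ha hδ hm had hm0 P hP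
    exact ⟨z 0, h1 0, z 1, h1 1, h3, h4⟩
  choose! f hf g hg hfz hgz using hdata
  have hinj : Set.InjOn (fun P => (f P, g P)) (Per a δ m) := by
    intro P hP Q hQ heq
    simp only [Prod.mk.injEq] at heq
    have e1 := hfz P hP
    have e2 := hfz Q hQ
    have e3 := hgz P hP
    have e4 := hgz Q hQ
    rw [heq.1, e2] at e1
    rw [heq.2, e4] at e3
    exact Prod.ext (mul_left_cancel₀ had' e1).symm (mul_left_cancel₀ had' e3).symm
  have himg : (fun P => (f P, g P)) '' (Per a δ m) ⊆ ((T ×ˢ T : Finset (ℤ × ℤ)) : Set (ℤ × ℤ)) := by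
    rintro _ ⟨P, hP, rfl⟩
    rw [Finset.mem_coe, Finset.mem_product]
    exact ⟨hf P hP, hg P hP⟩
  have hfin : (Per a δ m).Finite :=
    Set.Finite.of_finite_image ((Finset.finite_toSet _).subset himg) hinj
  refine ⟨hfin, ?_⟩
  have h1 : (Per a δ m).ncard ≤ (T ×ˢ T).card := by
    rw [← hinj.ncard_image, ← Set.ncard_coe_finset]
    exact Set.ncard_le_ncard himg (Finset.finite_toSet _)
  refine h1.trans (le_of_eq ?_)
  rw [Finset.card_product]
  ring

end Pool.Agent.W5h37.HF
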