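import Mathlib

/-!
# Integers at which a monic polynomial is small, `p`-adically or in absolute value, cluster
-/

set_option autoImplicit false

namespace Pool.Agent.W5h37.HF

open Finset Polynomial

/-- Lagrange's formula for the leading coefficient. -/
lemma interp {P : ℤ[X]} {d : ℕ} (hP : P.Monic) (hd : P.natDegree = d) (T : Finset ℤ)
    (hT : T.card = d + 1) :
    (1 : ℚ) = ∑ i ∈ T, ((P.eval i : ℤ) : ℚ) / ∏ j ∈ T.erase i, ((i : ℚ) - (j : ℚ)) := by
  have hinj : Set.InjOn (fun i : ℤ => (i : ℚ)) (T : Set ℤ) := fun _ _ _ _ h =>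
    Int.cast_injective h
  have hP' : (P.map (Int.castRingHom ℚ)).Monic := hP.map _
  have hdeg : (P.map (Int.castRingHom ℚ)).degree = (d : WithBot ℕ) := by
    rw [hP.degree_map, degree_eq_natDegree hP.ne_zero, hd]
  have h := Lagrange.leadingCoeff_eq_sum (v := fun i : ℤ => (i : ℚ)) (s := T) hinj
    (P := P.map (Int.castRingHom ℚ)) (by rw [hdeg, hT]; push_cast; rfl)
  rw [hP'.leadingCoeff] at h
  rw [h]
  refine Finset.sum_congr rfl fun i _ => ?_
  congr 1
  simp

/-- Integers at which a monic polynomial of degree `d` is divisible by `p ^ w` are in at most `d`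
classes modulo `p ^ c`, if `d (c - 1) < w`. -/
lemma padic_classes {P : ℤ[X]} {d : ℕ} (hP : P.Monic) (hd : P.natDegree = d) {p : ℕ}
    (hp : p.Prime) {w c : ℕ} (hwc : d * (c - 1) < w) (S : Finset ℤ)
    (hS : ∀ z ∈ S, ((p ^ w : ℕ) : ℤ) ∣ P.eval z) :
    (S.image fun z : ℤ => (z : ZMod (p ^ c))).card ≤ d := by
  classical
  have : Fact p.Prime := ⟨hp⟩
  by_contra hcon
  push Not at hcon
  obtain ⟨T', hT'S, hT'inj, hT'im⟩ := Finset.exists_subset_injOn_image_eq_of_surjOn
    (f := fun z : ℤ => (z : ZMod (p ^ c))) S (S.image fun z : ℤ => (z : ZMod (p ^ c)))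
    (by intro x hx; rw [Finset.coe_image] at hx; exact hx)
  have hcard : d + 1 ≤ T'.card := by
    rw [← Finset.card_image_of_injOn hT'inj, hT'im]
    exact hcon
  obtain ⟨T, hTT', hT⟩ := Finset.exists_subset_card_eq hcard
  have hinj : ∀ i ∈ T, ∀ j ∈ T, i ≠ j → ¬ ((p ^ c : ℕ) : ℤ) ∣ i - j := by
    intro i hi j hj hij hdiv
    apply hij
    apply hT'inj (hTT' hi) (hTT' hj)
    have := (ZMod.intCast_eq_intCast_iff_dvd_sub j i (p ^ c)).2 hdiv
    exact this.symm
  have hp0 : (0 : ℚ) < p := by exact_mod_cast hp.pos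
  have hp1 : (1 : ℚ) < p := by exact_mod_cast hp.one_lt
  have hc1 : T.Nontrivial → 1 ≤ c := by
    rintro ⟨i, hi, j, hj, hij⟩
    by_contra hc
    have hc0 : c = 0 := by omega
    subst hc0
    exact hinj i hi j hj hij (by simp)
  have hnorm : ∀ i ∈ T, ∀ j ∈ T, i ≠ j →
      (p : ℚ) ^ (-((c - 1 : ℕ) : ℤ)) ≤ padicNorm p ((i : ℚ) - j) := by
    intro i hi j hj hij
    have h0 : ((i : ℚ) - j) ≠ 0 := by
      rw [sub_ne_zero]
      exact_mod_cast hij
    by_contra hlt
    push Not at hlt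
    rw [padicNorm.eq_zpow_of_nonzero h0] at hlt
    have h1 : -padicValRat p ((i : ℚ) - j) < -((c - 1 : ℕ) : ℤ) := (zpow_lt_zpow_iff_right₀ hp1).1 hlt
    have hc : 1 ≤ c := hc1 ⟨i, hi, j, hj, hij⟩
    have h2 : (c : ℤ) ≤ padicValRat p ((i : ℚ) - j) := by
      rw [Nat.cast_sub hc] at h1
      push_cast at h1
      linarith
    apply hinj i hi j hj hij
    rw [padicNorm.dvd_iff_norm_le]
    push_cast
    rw [padicNorm.eq_zpow_of_nonzero h0]
    exact (zpow_le_zpow_iff_right₀ hp1).2 (by linarith)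
  have hterm : ∀ i ∈ T, padicNorm p (((P.eval i : ℤ) : ℚ) / ∏ j ∈ T.erase i, ((i : ℚ) - (j : ℚ))) <
      1 := by
    intro i hi
    rw [padicNorm.div]
    have hprod : (p : ℚ) ^ (-((d * (c - 1) : ℕ) : ℤ)) ≤
        padicNorm p (∏ j ∈ T.erase i, ((i : ℚ) - (j : ℚ))) := by
      have h1 : padicNorm p (∏ j ∈ T.erase i, ((i : ℚ) - (j : ℚ))) =
          ∏ j ∈ T.erase i, padicNorm p ((i : ℚ) - (j : ℚ)) := by
        induction T.erase i using Finset.induction_on with
        | empty => simp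
        | insert a s ha ih => rw [Finset.prod_insert ha, Finset.prod_insert ha, padicNorm.mul, ih]
      rw [h1]
      have h2 : ∏ j ∈ T.erase i, (p : ℚ) ^ (-((c - 1 : ℕ) : ℤ)) =
          (p : ℚ) ^ (-((d * (c - 1) : ℕ) : ℤ)) := by
        rw [Finset.prod_const, Finset.card_erase_of_mem hi, hT, Nat.add_sub_cancel,
          ← zpow_natCast, ← zpow_mul]
        congr 1
        push_cast
        ring
      rw [← h2]
      refine Finset.prod_le_prod (fun _ _ => by positivity) fun j hj => ?_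
      exact hnorm i hi j (Finset.mem_of_mem_erase hj) (Finset.ne_of_mem_erase hj).symm
    have hpos : (0 : ℚ) < (p : ℚ) ^ (-((d * (c - 1) : ℕ) : ℤ)) := by positivity
    rw [div_lt_one (lt_of_lt_of_le hpos hprod)]
    refine lt_of_lt_of_le ?_ hprod
    have h3 := padicNorm.dvd_iff_norm_le.1 (hS i (hT'S (hTT' hi)))
    refine lt_of_le_of_lt h3 ?_
    exact (zpow_lt_zpow_iff_right₀ hp1).2 (by
      have : ((d * (c - 1) : ℕ) : ℤ) < (w : ℤ) := by exact_mod_cast hwc
      linarith)
  have h1 := interp hP hd T hT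
  have h2 := padicNorm.sum_lt' hterm one_pos
  rw [← h1, padicNorm.one] at h2
  exact lt_irrefl _ h2

/-- Integers at which a monic polynomial of degree `d` is small are near at most `d` integers. -/
lemma arch_clusters {P : ℤ[X]} {d : ℕ} (hP : P.Monic) (hd : P.natDegree = d) {W L : ℕ}
    (hL : (d + 1) * W < L ^ d) (S : Finset ℤ) (hS : ∀ z ∈ S, |P.eval z| ≤ (W : ℤ)) :
    ∃ T : Finset ℤ, T.card ≤ d ∧ ∀ z ∈ S, ∃ t ∈ T, |z - t| < (L : ℤ) := by
  classical
  set 𝒯 := S.powerset.filter fun T => ∀ i ∈ T, ∀ j ∈ T, i ≠ j → (L : ℤ) ≤ |i - j| with h𝒯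
  have hne : 𝒯.Nonempty := ⟨∅, by simp [h𝒯]⟩
  obtain ⟨T, hT, hmax⟩ := Finset.exists_max_image 𝒯 Finset.card hne
  rw [h𝒯, Finset.mem_filter, Finset.mem_powerset] at hT
  obtain ⟨hTS, hsep⟩ := hT
  refine ⟨T, ?_, ?_⟩
  · by_contra hcon
    push Not at hcon
    obtain ⟨T₀, hT₀T, hT₀⟩ := Finset.exists_subset_card_eq (show d + 1 ≤ T.card from hcon)
    have hLpos : 0 < L ^ d := by omega
    have hterm : ∀ i ∈ T₀, |((P.eval i : ℤ) : ℚ) / ∏ j ∈ T₀.erase i, ((i : ℚ) - (j : ℚ))| ≤
        (W : ℚ) / (L : ℚ) ^ d := by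
      intro i hi
      rw [abs_div, Finset.abs_prod]
      have h1 : |((P.eval i : ℤ) : ℚ)| ≤ (W : ℚ) := by
        have := hS i (hTS (hT₀T hi))
        rw [← Int.cast_abs]
        exact_mod_cast this
      have h2 : (L : ℚ) ^ d ≤ ∏ j ∈ T₀.erase i, |((i : ℚ) - (j : ℚ))| := by
        have h3 : ∏ j ∈ T₀.erase i, (L : ℚ) = (L : ℚ) ^ d := by
          rw [Finset.prod_const, Finset.card_erase_of_mem hi, hT₀, Nat.add_sub_cancel]
        rw [← h3]
        refine Finset.prod_le_prod (fun _ _ => by positivity) fun j hj => ?_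
        have := hsep i (hT₀T hi) j (hT₀T (Finset.mem_of_mem_erase hj))
          (Finset.ne_of_mem_erase hj).symm
        rw [← Int.cast_sub, ← Int.cast_abs]
        exact_mod_cast this
      have h4 : (0 : ℚ) < (L : ℚ) ^ d := by exact_mod_cast hLpos
      gcongr
    have h1 := interp hP hd T₀ hT₀
    have h2 : (1 : ℚ) ≤ (d + 1) * ((W : ℚ) / (L : ℚ) ^ d) := by
      calc (1 : ℚ) = |∑ i ∈ T₀, ((P.eval i : ℤ) : ℚ) / ∏ j ∈ T₀.erase i, ((i : ℚ) - (j : ℚ))| := by
            rw [← h1, abs_one]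
        _ ≤ ∑ i ∈ T₀, |((P.eval i : ℤ) : ℚ) / ∏ j ∈ T₀.erase i, ((i : ℚ) - (j : ℚ))| :=
            Finset.abs_sum_le_sum_abs _ _
        _ ≤ ∑ i ∈ T₀, (W : ℚ) / (L : ℚ) ^ d := Finset.sum_le_sum hterm
        _ = (d + 1) * ((W : ℚ) / (L : ℚ) ^ d) := by
            rw [Finset.sum_const, hT₀, nsmul_eq_mul]; push_cast; ring
    have h4 : (0 : ℚ) < (L : ℚ) ^ d := by exact_mod_cast hLpos
    rw [← mul_div_assoc, le_div_iff₀ h4, one_mul] at h2
    have h5 : L ^ d ≤ (d + 1) * W := by exact_mod_cast h2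
    omega
  · intro z hz
    by_contra hcon
    push Not at hcon
    have hzT : z ∉ T := by
      intro hzT
      have := hcon z hzT
      rw [sub_self, abs_zero] at this
      have hL0 : L = 0 := by omega
      by_cases hd0 : d = 0
      · -- then `P = 1` and `T` is empty or `W` is at least 1
        subst hd0
        have hP1 : P = 1 := by
          have := Polynomial.eq_C_of_natDegree_eq_zero hd
          rw [this] at hP ⊢
          rw [Polynomial.Monic, Polynomial.leadingCoeff_C] at hP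
          rw [hP]; rfl
        have h1 := hS z hz
        rw [hP1] at h1
        simp only [Polynomial.eval_one, abs_one] at h1
        have : 1 ≤ W := by exact_mod_cast h1
        simp at hL
        omega
      · rw [hL0, zero_pow hd0] at hL
        omega
    have hins : insert z T ∈ 𝒯 := by
      rw [h𝒯, Finset.mem_filter, Finset.mem_powerset]
      refine ⟨Finset.insert_subset hz hTS, ?_⟩
      intro i hi j hj hij
      rw [Finset.mem_insert] at hi hj
      rcases hi with rfl | hi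
      · rcases hj with rfl | hj
        · exact absurd rfl hij
        · exact hcon j hj
      · rcases hj with rfl | hj
        · rw [abs_sub_comm]; exact hcon i hi
        · exact hsep i hi j hj hij
    have := hmax _ hins
    rw [Finset.card_insert_of_notMem hzT] at this
    omega

end Pool.Agent.W5h37.HF
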