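import Pool.Agent.W5h37.HF.Bounds
import Pool.Agent.H328R2.ABC.RadSum

/-!
# Every fibre, thin sets, and the number of all maps
-/

set_option autoImplicit false

namespace Pool.Agent.W5h37.HF

open Finset Filter Pool.Agent.H674R3 Pool.Agent.W5h37.Thin

/-- the constant terms -/
def Bad {d : ℕ} (H : ℕ) (a : Fin (d + 1) → ℤ) (δ m : ℤ) : Set ℤ :=
  {t | |t| ≤ (H : ℤ) ∧ (Per (Function.update a 0 t) δ m).Nonempty}

lemma bad_finite {d : ℕ} (H : ℕ) (a : Fin (d + 1) → ℤ) (δ m : ℤ) : (Bad H a δ m).Finite := by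
  refine (Finset.finite_toSet (Finset.Icc (-(H : ℤ)) H)).subset ?_
  rintro t ⟨ht, -⟩
  rw [Finset.mem_coe, Finset.mem_Icc]
  exact abs_le.1 ht

lemma bad_trivial {d : ℕ} (H : ℕ) (a : Fin (d + 1) → ℤ) (δ m : ℤ) :
    (Bad H a δ m).ncard ≤ 2 * H + 1 := by
  have h1 : Bad H a δ m ⊆ ((Finset.Icc (-(H : ℤ)) H : Finset ℤ) : Set ℤ) := by
    rintro t ⟨ht, -⟩
    rw [Finset.mem_coe, Finset.mem_Icc]
    exact abs_le.1 ht
  have h2 := Set.ncard_le_ncard h1 (Finset.finite_toSet _)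
  rw [Set.ncard_coe_finset, Int.card_Icc] at h2
  omega

theorem bad_card {d H : ℕ} (hd : 3 ≤ d) (hH : 1 ≤ H) (a : Fin (d + 1) → ℤ) (δ m : ℤ)
    (ha : ∀ i, |a i| ≤ (H : ℤ)) (hδ : |δ| ≤ (H : ℤ)) (hm : |m| ≤ (H : ℤ))
    (had : a (Fin.last d) ≠ 0) (hm0 : m ≠ 0) :
    (Bad H a δ m).ncard ≤ (admG d (cg a) ((d + 2) * H) (WW d H (a (Fin.last d)))).card ^ 3 := by
  classical
  rw [Set.ncard_eq_toFinset_card _ (bad_finite H a δ m)]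
  refine fibre hd hH a δ m ha hδ hm had hm0 _ fun t ht => ?_
  rw [Set.Finite.mem_toFinset] at ht
  exact ht

/-- the explicit inequality -/
theorem explicit {d H L : ℕ} (hd : 3 ≤ d) (hH : 1 ≤ H) (a : Fin (d + 1) → ℤ) (δ m : ℤ)
    (ha : ∀ i, |a i| ≤ (H : ℤ)) (hδ : |δ| ≤ (H : ℤ)) (hm : |m| ≤ (H : ℤ))
    (had : a (Fin.last d) ≠ 0) (hm0 : m ≠ 0)
    (hL : (d + 1) * WW d H (a (Fin.last d)) < L ^ d) :
    (Bad H a δ m).ncard ≤ (d ^ ((a (Fin.last d)).natAbs.primeFactors.card + 1) *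
      (2 * L / mdl d (a (Fin.last d)) + 1)) ^ 3 ∧ (Per a δ m).Finite ∧
    (Per a δ m).ncard ≤ (d ^ ((a (Fin.last d)).natAbs.primeFactors.card + 1) *
      (2 * L / mdl d (a (Fin.last d)) + 1)) ^ 2 := by
  have h1 := admG_card (cg a) hd (by rw [cg_last]; exact had) ((d + 2) * H)
    (WW d H (a (Fin.last d))) L hL
  rw [cg_last] at h1
  have h2 := bad_card hd hH a δ m ha hδ hm had hm0
  have h3 := per_card hd hH a δ m ha hδ hm had hm0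
  exact ⟨h2.trans (Nat.pow_le_pow_left h1 3), h3.1, h3.2.trans (Nat.pow_le_pow_left h1 2)⟩

/-- **Every fibre.** -/
theorem every (d : ℕ) (hd : 3 ≤ d) (ε : ℝ) (hε : 0 < ε) : ∃ C : ℝ, ∀ H : ℕ, 1 ≤ H →
    ∀ (a : Fin (d + 1) → ℤ) (δ m : ℤ), (∀ i, |a i| ≤ (H : ℤ)) → |δ| ≤ (H : ℤ) → |m| ≤ (H : ℤ) →
      a (Fin.last d) ≠ 0 → m ≠ 0 →
      ((Bad H a δ m).ncard : ℝ) ≤ C * (H : ℝ) ^ (6 / d + ε : ℝ) ∧ (Per a δ m).Finite ∧
      ((Per a δ m).ncard : ℝ) ≤ C * (H : ℝ) ^ (4 / d + ε : ℝ) := by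
  obtain ⟨C, hC1, hC⟩ := adm_bound d hd (ε / 3) (by positivity)
  have hd0 : (0 : ℝ) < d := by exact_mod_cast (by omega : 0 < d)
  refine ⟨(2 * C) ^ 3, fun H hH a δ m ha hδ hm had hm0 => ?_⟩
  have hH1 : (1 : ℝ) ≤ H := by exact_mod_cast hH
  have hH0 : (0 : ℝ) < H := by linarith
  have h2 := bad_card hd hH a δ m ha hδ hm had hm0
  have h3 := per_card hd hH a δ m ha hδ hm had hm0
  have h4 := hC H hH (cg a) (by rw [cg_last]; exact had) (by rw [cg_last]; exact ha _)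
  rw [cg_last] at h4
  set N := (admG d (cg a) ((d + 2) * H) (WW d H (a (Fin.last d)))).card with hN
  set b := a (Fin.last d) with hb
  have hbR : (0 : ℝ) < b.natAbs := by exact_mod_cast Int.natAbs_pos.2 had
  have hm0' : (0 : ℝ) < mdl d b := by exact_mod_cast mdl_pos d b
  have hdiv : (b.natAbs : ℝ) ^ (1 - 2 / d : ℝ) ≤ mdl d b := by
    have h5 : ((b.natAbs : ℝ)) ^ (d - 2) ≤ (mdl d b : ℝ) ^ d := by
      exact_mod_cast mdl_ge hd had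
    have h6 : ((b.natAbs : ℝ) ^ (1 - 2 / d : ℝ)) ^ d ≤ (mdl d b : ℝ) ^ d := by
      refine le_trans (le_of_eq ?_) h5
      rw [← Real.rpow_natCast, ← Real.rpow_natCast, ← Real.rpow_mul hbR.le]
      congr 1
      rw [Nat.cast_sub (by omega)]
      push_cast
      field_simp
    exact le_of_pow_le_pow_left₀ (by omega) hm0'.le h6
  have hN1 : (N : ℝ) ≤ 2 * C * (H : ℝ) ^ (2 / d + ε / 3 : ℝ) := by
    have hH2 : 1 ≤ (H : ℝ) ^ (2 / d : ℝ) := Real.one_le_rpow hH1 (by positivity)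
    have h5 : (H : ℝ) ^ (2 / d : ℝ) * (b.natAbs : ℝ) ^ (1 - 2 / d : ℝ) / mdl d b ≤
        (H : ℝ) ^ (2 / d : ℝ) := by
      rw [div_le_iff₀ hm0']
      gcongr
    have hHe : 0 < (H : ℝ) ^ (ε / 3) := Real.rpow_pos_of_pos hH0 _
    calc (N : ℝ) ≤ C * (H : ℝ) ^ (ε / 3) *
          ((H : ℝ) ^ (2 / d : ℝ) * (b.natAbs : ℝ) ^ (1 - 2 / d : ℝ) / mdl d b + 1) := h4
      _ ≤ C * (H : ℝ) ^ (ε / 3) * ((H : ℝ) ^ (2 / d : ℝ) + (H : ℝ) ^ (2 / d : ℝ)) := by gcongr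
      _ = 2 * C * ((H : ℝ) ^ (2 / d : ℝ) * (H : ℝ) ^ (ε / 3)) := by ring
      _ = _ := by rw [← Real.rpow_add hH0]
  have hN0 : (0 : ℝ) ≤ N := Nat.cast_nonneg _
  refine ⟨?_, h3.1, ?_⟩
  · calc ((Bad H a δ m).ncard : ℝ) ≤ (N : ℝ) ^ 3 := by exact_mod_cast h2
      _ ≤ (2 * C * (H : ℝ) ^ (2 / d + ε / 3 : ℝ)) ^ 3 := pow_le_pow_left₀ hN0 hN1 3
      _ = (2 * C) ^ 3 * (H : ℝ) ^ (6 / d + ε : ℝ) := by
          rw [mul_pow, ← Real.rpow_natCast ((H : ℝ) ^ (2 / d + ε / 3 : ℝ)), ← Real.rpow_mul hH0.le]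
          congr 2
          push_cast
          field_simp
          ring
  · calc ((Per a δ m).ncard : ℝ) ≤ (N : ℝ) ^ 2 := by exact_mod_cast h3.2
      _ ≤ (2 * C * (H : ℝ) ^ (2 / d + ε / 3 : ℝ)) ^ 2 := pow_le_pow_left₀ hN0 hN1 2
      _ = (2 * C) ^ 2 * (H : ℝ) ^ (4 / d + 2 * ε / 3 : ℝ) := by
          rw [mul_pow, ← Real.rpow_natCast ((H : ℝ) ^ (2 / d + ε / 3 : ℝ)), ← Real.rpow_mul hH0.le]
          congr 2
          push_cast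
          field_simp
          ring
      _ ≤ (2 * C) ^ 3 * (H : ℝ) ^ (4 / d + ε : ℝ) := by
          have h7 : (1 : ℝ) ≤ 2 * C := by linarith
          have h8 : (2 * C) ^ 2 ≤ (2 * C) ^ 3 := pow_le_pow_right₀ h7 (by norm_num)
          have h9 : (H : ℝ) ^ (4 / d + 2 * ε / 3 : ℝ) ≤ (H : ℝ) ^ (4 / d + ε : ℝ) :=
            Real.rpow_le_rpow_of_exponent_le hH1 (by linarith)
          gcongr

/-- **The leading coefficient in a thin set.** -/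
theorem thin_lead (d : ℕ) (hd : 3 ≤ d) (θ ε : ℝ) (hθ : 0 < θ) (hθ1 : θ ≤ 1)
    (hθd : 1 < (((d + 1) / 2 : ℕ) : ℝ) * θ) (hε : 0 < ε) :
    ∃ δ η : ℝ, 0 < δ ∧ 0 < η ∧ ∀ᶠ X : ℕ in atTop, ∀ A : Finset ℕ,
      Spread X θ ((X : ℝ) ^ η) A → ∃ S : Finset ℕ, S ⊆ A ∧
        (S.card : ℝ) ≤ (X : ℝ) ^ (-δ) * (A.card : ℝ) ∧
        ∀ z ∈ A, z ∉ S → ∀ (a : Fin (d + 1) → ℤ) (b m : ℤ), (∀ i, |a i| ≤ (X : ℤ)) → |b| ≤ (X : ℤ) →
          |m| ≤ (X : ℤ) → |a (Fin.last d)| = (z : ℤ) → m ≠ 0 →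
          ((Bad X a b m).ncard : ℝ) ≤ (X : ℝ) ^ ε ∧ ((Per a b m).ncard : ℝ) ≤ (X : ℝ) ^ ε := by
  obtain ⟨e, he⟩ : ∃ e, e = min (1 / 2) (ε / 30) := ⟨_, rfl⟩
  have he0 : 0 < e := by rw [he]; exact lt_min (by norm_num) (by positivity)
  have he1 : e < 1 := by
    rw [he]; exact lt_of_le_of_lt (min_le_left _ _) (by norm_num)
  have he30 : 30 * e ≤ ε := by
    rw [he]
    linarith [min_le_right (1 / 2 : ℝ) (ε / 30)]
  have hd0 : (0 : ℝ) < d := by exact_mod_cast (by omega : 0 < d)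
  obtain ⟨δ, η, hδ, hη, -, h⟩ := thin_good 1 ((d + 1) / 2) θ e 1 (by omega) hθ hθ1
    hθd he0 he1 one_pos
  obtain ⟨C, hC1, hC⟩ := adm_bound d hd e he0
  refine ⟨δ, η, hδ, hη, ?_⟩
  filter_upwards [h, eventually_ge_atTop 1, ev_const 1 η hη, ev_const 2 e he0,
    ev_const (C * 17) e he0] with X hX hX1 h1X h2X hCX A hA
  have hX1r : (1 : ℝ) ≤ X := by exact_mod_cast hX1
  have hX0 : (0 : ℝ) < X := by linarith
  obtain ⟨S, hSA, hS, hgood⟩ := hX (fun _ => A) fun _ => hA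
  refine ⟨S.image fun z => z 0, ?_, ?_, fun z hz hzS a b m ha hb hm haz hm0 => ?_⟩
  · intro z hz
    obtain ⟨y, hy, rfl⟩ := Finset.mem_image.1 hz
    exact Fintype.mem_piFinset.1 (hSA hy) 0
  · rw [Fin.prod_univ_one] at hS
    refine le_trans ?_ hS
    exact_mod_cast Finset.card_image_le
  have hz' : (fun _ : Fin 1 => z) ∈ Fintype.piFinset (fun _ : Fin 1 => A) := by
    rw [Fintype.mem_piFinset]; exact fun _ => hz
  have hzS' : (fun _ : Fin 1 => z) ∉ S := fun h0 => hzS (Finset.mem_image.2 ⟨_, h0, rfl⟩)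
  obtain ⟨hg1, -⟩ := hgood _ hz' hzS'
  have hr1 := hA.2.1 _ hz
  have hU : 1 ≤ ⌊(X : ℝ) ^ η⌋₊ := Nat.le_floor (by exact_mod_cast h1X)
  set u : Fin 1 → ℤ := fun _ => 1 with hu
  have hlu : lin u (fun _ => z) = z := by
    unfold lin; rw [hu]; simp
  have huU : ∀ i, |u i| ≤ ((⌊(X : ℝ) ^ η⌋₊ : ℕ) : ℤ) := by
    intro i
    have h1 : |u i| ≤ 1 := by simp [hu]
    exact h1.trans (by exact_mod_cast hU)
  have hu0 : u ≠ 0 := by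
    intro h0
    have := congrFun h0 0
    simp [hu] at this
  obtain ⟨hY, hE⟩ := hg1 u hu0 huU
  rw [hlu] at hY hE
  have hY' : ⌊(X : ℝ) ^ (1 - e)⌋₊ < z := by
    have : ((⌊(X : ℝ) ^ (1 - e)⌋₊ : ℕ) : ℤ) < (z : ℤ) := by
      rw [Nat.abs_cast] at hY
      exact hY
    exact_mod_cast this
  set c := a (Fin.last d) with hc
  have hcz : c.natAbs = z := by
    have : ((c.natAbs : ℕ) : ℤ) = z := by rw [Int.natCast_natAbs]; exact haz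
    exact_mod_cast this
  have hc0 : c ≠ 0 := by
    intro h0
    rw [h0] at hcz
    simp only [Int.natAbs_zero] at hcz
    omega
  have hM := mdl_thin (d := d) (k := (d + 1) / 2) hd (by omega) (by omega) hc0
    (E := ⌈(X : ℝ) ^ e⌉₊) (by
      intro t ht
      rw [hcz] at ht
      exact hE t (by exact_mod_cast ht))
  rw [hcz] at hM
  set M : ℝ := (mdl d c : ℝ) with hMdef
  have hM0 : 0 < M := by rw [hMdef]; exact_mod_cast mdl_pos d c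
  have hXe : 1 ≤ (X : ℝ) ^ e := Real.one_le_rpow hX1r he0.le
  have hE2 : (⌈(X : ℝ) ^ e⌉₊ : ℝ) ≤ 2 * (X : ℝ) ^ e := by
    have := (Nat.ceil_lt_add_one (by positivity : (0 : ℝ) ≤ (X : ℝ) ^ e)).le
    linarith
  have hYl : (X : ℝ) ^ (1 - e) ≤ 2 * ⌊(X : ℝ) ^ (1 - e)⌋₊ := by
    have e1 : (X : ℝ) ^ (1 - e) < ⌊(X : ℝ) ^ (1 - e)⌋₊ + 1 := Nat.lt_floor_add_one _
    have e2 : 1 ≤ (X : ℝ) ^ (1 - e) := Real.one_le_rpow hX1r (by linarith)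
    have e3 : (1 : ℝ) ≤ ⌊(X : ℝ) ^ (1 - e)⌋₊ := by
      exact_mod_cast Nat.le_floor (by exact_mod_cast e2)
    linarith
  have hzl : (⌊(X : ℝ) ^ (1 - e)⌋₊ : ℝ) ≤ z := by exact_mod_cast hY'.le
  have hp3 : ((X : ℝ) ^ e) ^ 3 = (X : ℝ) ^ (3 * e) := by
    rw [← Real.rpow_natCast, ← Real.rpow_mul hX0.le]; congr 1; push_cast; ring
  have hMr : (z : ℝ) ≤ M * (⌈(X : ℝ) ^ e⌉₊ : ℝ) ^ 3 := by
    rw [hMdef]; exact_mod_cast hM
  have hcl : (X : ℝ) ^ (1 - e) ≤ 16 * M * (X : ℝ) ^ (3 * e) := by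
    calc (X : ℝ) ^ (1 - e) ≤ 2 * ⌊(X : ℝ) ^ (1 - e)⌋₊ := hYl
      _ ≤ 2 * (M * (⌈(X : ℝ) ^ e⌉₊ : ℝ) ^ 3) := by linarith
      _ ≤ 2 * (M * (2 * (X : ℝ) ^ e) ^ 3) := by gcongr
      _ = 16 * M * ((X : ℝ) ^ e) ^ 3 := by ring
      _ = _ := by rw [hp3]
  have hXc : (X : ℝ) / M ≤ 16 * (X : ℝ) ^ (4 * e) := by
    rw [div_le_iff₀ hM0]
    calc (X : ℝ) = (X : ℝ) ^ (1 - e) * (X : ℝ) ^ e := by
          rw [← Real.rpow_add hX0]; simp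
      _ ≤ (16 * M * (X : ℝ) ^ (3 * e)) * (X : ℝ) ^ e := by gcongr
      _ = 16 * ((X : ℝ) ^ (3 * e) * (X : ℝ) ^ e) * M := by ring
      _ = 16 * (X : ℝ) ^ (4 * e) * M := by
          rw [← Real.rpow_add hX0]; congr 3; ring
  have h4 := hC X hX1 (cg a) (by rw [cg_last]; exact hc0) (by rw [cg_last]; exact ha _)
  rw [cg_last, ← hc, hcz] at h4
  set N := (admG d (cg a) ((d + 2) * X) (WW d X c)).card with hN
  have hX4 : 1 ≤ (X : ℝ) ^ (4 * e) := Real.one_le_rpow hX1r (by linarith)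
  have hy : (X : ℝ) ^ (2 / d : ℝ) * (z : ℝ) ^ (1 - 2 / d : ℝ) / mdl d c ≤ X / M := by
    have hzX : ((z : ℕ) : ℝ) ≤ X := by exact_mod_cast hr1.2
    have h2d : (0 : ℝ) ≤ 1 - 2 / d := by
      rw [sub_nonneg, div_le_one hd0]
      exact_mod_cast (by omega : 2 ≤ d)
    have h5 : (z : ℝ) ^ (1 - 2 / d : ℝ) ≤ (X : ℝ) ^ (1 - 2 / d : ℝ) :=
      Real.rpow_le_rpow (Nat.cast_nonneg _) hzX h2d
    have h6 : (X : ℝ) ^ (2 / d : ℝ) * (X : ℝ) ^ (1 - 2 / d : ℝ) = X := by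
      rw [← Real.rpow_add hX0]
      simp
    rw [← hMdef]
    apply div_le_div_of_nonneg_right _ hM0.le
    calc (X : ℝ) ^ (2 / d : ℝ) * (z : ℝ) ^ (1 - 2 / d : ℝ) ≤
        (X : ℝ) ^ (2 / d : ℝ) * (X : ℝ) ^ (1 - 2 / d : ℝ) := by gcongr
      _ = X := h6
  have hNle : (N : ℝ) ≤ (X : ℝ) ^ (6 * e) := by
    have h7 : 0 < (X : ℝ) ^ e := Real.rpow_pos_of_pos hX0 _
    calc (N : ℝ) ≤ C * (X : ℝ) ^ e *
          ((X : ℝ) ^ (2 / d : ℝ) * (z : ℝ) ^ (1 - 2 / d : ℝ) / mdl d c + 1) := h4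
      _ ≤ C * (X : ℝ) ^ e * (16 * (X : ℝ) ^ (4 * e) + (X : ℝ) ^ (4 * e)) := by
          have h8 := hy.trans hXc
          gcongr
      _ = (C * 17) * ((X : ℝ) ^ e * (X : ℝ) ^ (4 * e)) := by ring
      _ ≤ (X : ℝ) ^ e * ((X : ℝ) ^ e * (X : ℝ) ^ (4 * e)) := by gcongr
      _ = (X : ℝ) ^ (6 * e) := by
          rw [← Real.rpow_add hX0, ← Real.rpow_add hX0]; congr 1; ring
  have hN0 : (0 : ℝ) ≤ N := Nat.cast_nonneg _
  have h2 := bad_card hd hX1 a b m ha hb hm hc0 hm0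
  have h3 := per_card hd hX1 a b m ha hb hm hc0 hm0
  constructor
  · calc ((Bad X a b m).ncard : ℝ) ≤ (N : ℝ) ^ 3 := by exact_mod_cast h2
      _ ≤ ((X : ℝ) ^ (6 * e)) ^ 3 := pow_le_pow_left₀ hN0 hNle 3
      _ = (X : ℝ) ^ (18 * e) := by
          rw [← Real.rpow_natCast, ← Real.rpow_mul hX0.le]; congr 1; push_cast; ring
      _ ≤ (X : ℝ) ^ ε := Real.rpow_le_rpow_of_exponent_le hX1r (by linarith)
  · calc ((Per a b m).ncard : ℝ) ≤ (N : ℝ) ^ 2 := by exact_mod_cast h3.2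
      _ ≤ ((X : ℝ) ^ (6 * e)) ^ 2 := pow_le_pow_left₀ hN0 hNle 2
      _ = (X : ℝ) ^ (12 * e) := by
          rw [← Real.rpow_natCast, ← Real.rpow_mul hX0.le]; congr 1; push_cast; ring
      _ ≤ (X : ℝ) ^ ε := Real.rpow_le_rpow_of_exponent_le hX1r (by linarith)

end Pool.Agent.W5h37.HF
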