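import Pool.Agent.W5h37.HF.Count

/-!
# The number of the pairs of a constant term and a rational periodic point
-/

set_option autoImplicit false

namespace Pool.Agent.W5h37.HF

open Finset Polynomial Pool.Agent.H674R3

/-- the pairs of a constant term and a rational periodic point -/
def Prs {d : ℕ} (H : ℕ) (a : Fin (d + 1) → ℤ) (δ m : ℤ) : Set (ℤ × (ℚ × ℚ)) :=
  {q | |q.1| ≤ (H : ℤ) ∧ q.2 ∈ Per (Function.update a 0 q.1) δ m}

theorem prs_le {d H : ℕ} (hd : 2 ≤ d) (hH : 1 ≤ H) (a : Fin (d + 1) → ℤ) (δ m : ℤ)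
    (ha : ∀ i, |a i| ≤ (H : ℤ)) (hδ : |δ| ≤ (H : ℤ)) (hm : |m| ≤ (H : ℤ))
    (had : a (Fin.last d) ≠ 0) (hm0 : m ≠ 0) (j : ℕ) :
    (Prs H a δ m).Finite ∧ ((Prs H a δ m).ncard : ℝ) ≤
      ((SA d H (pg d (cg a)) (a (Fin.last d)) δ m {t | |t| ≤ (H : ℤ)}).card : ℝ) ^ 2 *
        KK d H (a (Fin.last d) ^ (d - 2) * m) j := by
  classical
  set b := a (Fin.last d) with hb
  set P := pg d (cg a) with hPdef
  have hP : P.Monic := pg_monic d _
  have hPd : P.natDegree = d := pg_natDegree d _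
  set S := SA d H P b δ m {t | |t| ≤ (H : ℤ)} with hS
  have had' : (b : ℚ) ≠ 0 := by exact_mod_cast had
  have hul : ∀ t : ℤ, Function.update a 0 t (Fin.last d) = b := by
    intro t
    rw [Function.update_of_ne]
    intro h0
    have := congrArg Fin.val h0
    simp only [Fin.val_last, Fin.val_zero] at this
    omega
  have hdata : ∀ q ∈ Prs H a δ m, ∃ z : ℕ → ℤ, OrbSeq d H P b δ m q.1 z ∧
      (z 0 : ℚ) = b * q.2.1 ∧ (z 1 : ℚ) = b * q.2.2 := by
    rintro ⟨t, Q⟩ ⟨htH, hQ⟩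
    simp only at htH hQ
    obtain ⟨z, h1, h2, h3⟩ := orbit hd hH (Function.update a 0 t) δ m (by
      intro i
      by_cases h : i = 0
      · subst h
        simp only [Function.update_self]
        exact htH
      · simp only [Function.update_of_ne h]
        exact ha i) hδ hm (by rw [hul]; exact had) hm0 Q hQ
    rw [pg_update hd, hul, Function.update_self] at h1
    rw [hul] at h2 h3
    exact ⟨z, h1, h2, h3⟩
  choose! z hz hz0 hz1 using hdata
  have hdet : ∀ q ∈ Prs H a δ m, ∀ q' ∈ Prs H a δ m, z q 0 = z q' 0 → z q 1 = z q' 1 →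
      q.2 = q'.2 := by
    intro q hq q' hq' e0 e1
    have f1 := hz0 q hq
    have f2 := hz0 q' hq'
    have f3 := hz1 q hq
    have f4 := hz1 q' hq'
    rw [e0, f2] at f1
    rw [e1, f4] at f3
    exact Prod.ext (mul_left_cancel₀ had' f1).symm (mul_left_cancel₀ had' f3).symm
  have hBt : ∀ q ∈ Prs H a δ m, |q.1| ≤ (H : ℤ) := fun q hq => hq.1
  have hmapsP : ∀ q ∈ Prs H a δ m, (z q 0, z q 1) ∈ S ×ˢ S := by
    intro q hq
    rw [Finset.mem_product]
    exact ⟨mem_SA (𝒜 := {t | |t| ≤ (H : ℤ)}) (hBt q hq) (hz q hq) 0,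
      mem_SA (𝒜 := {t | |t| ≤ (H : ℤ)}) (hBt q hq) (hz q hq) 1⟩
  have hfin : (Prs H a δ m).Finite := by
    refine Set.Finite.of_finite_image (f := fun q => (q.1, (z q 0, z q 1)))
      ((Finset.finite_toSet (Finset.Icc (-(H : ℤ)) H ×ˢ (S ×ˢ S))).subset ?_) ?_
    · rintro _ ⟨q, hq, rfl⟩
      rw [Finset.mem_coe, Finset.mem_product]
      exact ⟨Finset.mem_Icc.2 (abs_le.1 (hBt q hq)), hmapsP q hq⟩
    · intro q hq q' hq' heq
      simp only [Prod.mk.injEq] at heq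
      exact Prod.ext heq.1 (hdet q hq q' hq' heq.2.1 heq.2.2)
  refine ⟨hfin, ?_⟩
  rw [Set.ncard_eq_toFinset_card _ hfin]
  set B := hfin.toFinset with hB
  have hBm : ∀ q ∈ B, q ∈ Prs H a δ m := fun q hq => by
    rw [hB, Set.Finite.mem_toFinset] at hq; exact hq
  have hmaps : ∀ q ∈ B, (z q 0, z q 1) ∈ S ×ˢ S := fun q hq => hmapsP q (hBm q hq)
  set K := KK d H (b ^ (d - 2) * m) j with hK
  have hμ0 : b ^ (d - 2) * m ≠ 0 := mul_ne_zero (pow_ne_zero _ had) hm0
  have hfib : ∀ κ ∈ S ×ˢ S, (((B.filter fun q => (z q 0, z q 1) = κ).card : ℕ) : ℝ) ≤ K := by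
    rintro ⟨u, w⟩ -
    set F := B.filter fun q => (z q 0, z q 1) = (u, w) with hF
    have hFm : ∀ q ∈ F, q ∈ B ∧ z q 0 = u ∧ z q 1 = w := by
      intro q ht
      rw [hF, Finset.mem_filter, Prod.mk.injEq] at ht
      exact ht
    have hat : ∀ q ∈ F, (C (b ^ (d - 2) * m) * X + C (b ^ (d - 2) * δ * u - P.eval w)).eval
        (z q 2) = q.1 * b ^ (d - 1) := by
      intro q hq
      obtain ⟨h1, h2, h3⟩ := hFm q hq
      have h4 := (hz q (hBm q h1)).2.2 0
      simp only [zero_add] at h4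
      rw [h2, h3] at h4
      simp only [eval_add, eval_mul, eval_C, eval_X]
      linear_combination (-1 : ℤ) * h4
    have hinj : (F.image fun q => z q 2).card = F.card := by
      refine Finset.card_image_of_injOn ?_
      intro q hq q' hq' h0
      have h1 := hat q hq
      have h2 := hat q' hq'
      simp only at h0
      rw [h0] at h1
      have h3 : q.1 * b ^ (d - 1) = q'.1 * b ^ (d - 1) := h1.symm.trans h2
      obtain ⟨g1, g2, g3⟩ := hFm q hq
      obtain ⟨g1', g2', g3'⟩ := hFm q' hq'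
      exact Prod.ext (mul_right_cancel₀ (pow_ne_zero _ had) h3)
        (hdet q (hBm q g1) q' (hBm q' g1') (g2.trans g2'.symm) (g3.trans g3'.symm))
    rw [← hinj]
    refine slice_count hP hPd hd (C (b ^ (d - 2) * m) * X + C (b ^ (d - 2) * δ * u - P.eval w))
      natDegree_linear_le (b ^ (d - 2) * m) (b ^ (d - 2) * δ) w hμ0 ((d + 2) * H) j _ ?_
    intro s hs
    obtain ⟨q, hq, rfl⟩ := Finset.mem_image.1 hs
    obtain ⟨h1, h2, h3⟩ := hFm q hq
    have hzq := hz q (hBm q h1)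
    refine ⟨fun k => z q (k + 1), ⟨?_, rfl, ?_⟩, fun k => hzq.2.1 _⟩
    · exact h3
    · intro k
      rw [hat q hq]
      have h4 := hzq.2.2 (k + 1)
      rw [show k + 1 + 1 = k + 2 by ring, show k + 1 + 2 = k + 3 by ring] at h4
      simp only
      rw [show k + 2 + 1 = k + 3 by ring, show k + 1 + 1 = k + 2 by ring]
      linear_combination (-1 : ℤ) * h4
  rw [Finset.card_eq_sum_card_fiberwise hmaps]
  push_cast
  refine (Finset.sum_le_card_nsmul _ _ K hfib).trans (le_of_eq ?_)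
  rw [nsmul_eq_mul, Finset.card_product, sq]
  push_cast
  ring

lemma bad_le_prs {d : ℕ} (H : ℕ) (a : Fin (d + 1) → ℤ) (δ m : ℤ) (hfin : (Prs H a δ m).Finite) :
    (Bad H a δ m).ncard ≤ (Prs H a δ m).ncard := by
  have h1 : Bad H a δ m ⊆ Prod.fst '' (Prs H a δ m) := by
    rintro t ⟨ht, Q, hQ⟩
    exact ⟨(t, Q), ⟨ht, hQ⟩, rfl⟩
  exact (Set.ncard_le_ncard h1 (hfin.image _)).trans (Set.ncard_image_le hfin)

lemma per_le_prs {d : ℕ} (H : ℕ) (a : Fin (d + 1) → ℤ) (δ m : ℤ) (hfin : (Prs H a δ m).Finite)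
    (ha : |a 0| ≤ (H : ℤ)) :
    (Per a δ m).ncard ≤ (Prs H a δ m).ncard := by
  have h1 : (fun Q => (a 0, Q)) '' (Per a δ m) ⊆ Prs H a δ m := by
    rintro _ ⟨Q, hQ, rfl⟩
    refine ⟨ha, ?_⟩
    simp only [Function.update_eq_self]
    exact hQ
  rw [← Set.ncard_image_of_injective (Per a δ m) (f := fun Q => (a 0, Q)) (fun Q Q' h => by
    simpa using h)]
  exact Set.ncard_le_ncard h1 hfin

end Pool.Agent.W5h37.HF
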