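import Pool.Agent.W5h37.HF.Est
import Pool.Agent.W5h37.HF.Pairs
import Pool.Agent.H328R2.ABC.RadSum

/-!
# Every fibre, single maps, thin sets
-/

set_option autoImplicit false

namespace Pool.Agent.W5h37.HF

open Finset Filter Pool.Agent.H674R3 Pool.Agent.W5h37.Thin

lemma LF_le {d : ℕ} (hd : 2 ≤ d) {H : ℕ} (hH : 1 ≤ H) {b : ℤ} (hb : b ≠ 0) (j : ℕ) :
    (LF d H j b : ℝ) ≤ 12 * (d + 1) * (d + 3) * (H : ℝ) ^ ((1 / d : ℝ) ^ j) *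
      ((H : ℝ) ^ (1 / (d - 1) : ℝ) * (b.natAbs : ℝ) ^ (1 - 1 / (d - 1) : ℝ)) := by
  have hd0 : (0 : ℝ) < d := by exact_mod_cast (by omega : 0 < d)
  have hd2 : (2 : ℝ) ≤ d := by exact_mod_cast hd
  have hd1 : (0 : ℝ) < (d : ℝ) - 1 := by linarith
  have hbn : 0 < b.natAbs := Int.natAbs_pos.2 hb
  have hH1 : (1 : ℝ) ≤ H := by exact_mod_cast hH
  have hH0 : (0 : ℝ) < H := by linarith
  have hbR : (0 : ℝ) < b.natAbs := by exact_mod_cast hbn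
  have h := Lq_le hd (G := 3 * H * b.natAbs ^ (d - 2)) (L0 := (d + 2) * H + 1)
    (Nat.mul_pos (by omega) (pow_pos hbn _)) (by omega) j
  unfold LF
  set x : ℝ := (1 / d : ℝ) ^ j with hx
  have hx0 : 0 < x := by positivity
  have hLx : ((((d + 2) * H + 1 : ℕ)) : ℝ) ^ x ≤ (d + 3) * (H : ℝ) ^ x := by
    have h1 : ((((d + 2) * H + 1 : ℕ)) : ℝ) ≤ (d + 3) * H := by
      push_cast; nlinarith
    calc ((((d + 2) * H + 1 : ℕ)) : ℝ) ^ x ≤ ((d + 3) * H : ℝ) ^ x :=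
          Real.rpow_le_rpow (by positivity) h1 hx0.le
      _ = (d + 3 : ℝ) ^ x * (H : ℝ) ^ x := Real.mul_rpow (by positivity) hH0.le
      _ ≤ (d + 3 : ℝ) ^ (1 : ℝ) * (H : ℝ) ^ x := by
          have hx1 : x ≤ 1 := pow_le_one₀ (by positivity) (by rw [div_le_one hd0]; linarith)
          have e2 : (d + 3 : ℝ) ^ x ≤ (d + 3 : ℝ) ^ (1 : ℝ) :=
            Real.rpow_le_rpow_of_exponent_le (by linarith) hx1
          gcongr
      _ = _ := by rw [Real.rpow_one]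
  have hG : (((3 * H * b.natAbs ^ (d - 2) : ℕ)) : ℝ) ^ (1 / (d - 1) : ℝ) ≤
      3 * ((H : ℝ) ^ (1 / (d - 1) : ℝ) * (b.natAbs : ℝ) ^ (1 - 1 / (d - 1) : ℝ)) := by
    have e1 : (1 / (d - 1) : ℝ) ≤ 1 := by rw [div_le_one hd1]; linarith
    have e2 : (3 : ℝ) ^ (1 / (d - 1) : ℝ) ≤ (3 : ℝ) ^ (1 : ℝ) :=
      Real.rpow_le_rpow_of_exponent_le (by norm_num) e1
    rw [Real.rpow_one] at e2
    have e3 : ((b.natAbs : ℝ) ^ (d - 2)) ^ (1 / (d - 1) : ℝ) =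
        (b.natAbs : ℝ) ^ (1 - 1 / (d - 1) : ℝ) := by
      rw [← Real.rpow_natCast, ← Real.rpow_mul hbR.le]
      congr 1
      rw [Nat.cast_sub hd]
      push_cast
      field_simp
      ring
    push_cast
    rw [Real.mul_rpow (by positivity) (by positivity), Real.mul_rpow (by norm_num) hH0.le, e3,
      mul_assoc]
    gcongr
  calc (Lq d (3 * H * b.natAbs ^ (d - 2)) ((d + 2) * H + 1) j : ℝ) ≤
      4 * (d + 1) * (((3 * H * b.natAbs ^ (d - 2) : ℕ)) : ℝ) ^ (1 / (d - 1) : ℝ) *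
        ((((d + 2) * H + 1 : ℕ)) : ℝ) ^ x := h
    _ ≤ 4 * (d + 1) * (3 * ((H : ℝ) ^ (1 / (d - 1) : ℝ) *
        (b.natAbs : ℝ) ^ (1 - 1 / (d - 1) : ℝ))) * ((d + 3) * (H : ℝ) ^ x) := by
        gcongr
    _ = _ := by ring

lemma MF_ge {d : ℕ} (hd : 2 ≤ d) {b : ℤ} (hb : b ≠ 0) (j : ℕ) :
    (b.natAbs : ℝ) ^ (1 - 1 / (d - 1) : ℝ) ≤ MF d j b * (b.natAbs : ℝ) ^ ((1 / d : ℝ) ^ j) := by
  have hd0 : (0 : ℝ) < d := by exact_mod_cast (by omega : 0 < d)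
  have hd2 : (2 : ℝ) ≤ d := by exact_mod_cast hd
  have hd1 : (0 : ℝ) < (d : ℝ) - 1 := by linarith
  have hbn : 0 < b.natAbs := Int.natAbs_pos.2 hb
  have hbR : (0 : ℝ) < b.natAbs := by exact_mod_cast hbn
  have hb1 : (1 : ℝ) ≤ b.natAbs := by exact_mod_cast hbn
  have hM0 : (0 : ℝ) < MF d j b := by exact_mod_cast MF_pos d j b
  set x : ℝ := (1 / d : ℝ) ^ j with hx
  have hx0 : 0 < x := by positivity
  have hdj : (0 : ℝ) < (d : ℝ) ^ j := by positivity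
  have hxd : x = 1 / (d : ℝ) ^ j := by rw [hx, one_div, one_div, inv_pow]
  have hy0 : 0 ≤ (1 - 1 / (d - 1) : ℝ) := by
    rw [sub_nonneg, div_le_one hd1]; linarith
  have hy1 : (1 - 1 / (d - 1) : ℝ) ≤ 1 := by
    have : 0 < (1 / (d - 1) : ℝ) := by positivity
    linarith
  have hM : (b.natAbs : ℝ) ^ ((1 - 1 / (d - 1)) * (1 - x) : ℝ) ≤ MF d j b := by
    have h1 : (((b.natAbs ^ (d - 2) : ℕ)) : ℝ) ^ (d ^ j - 1) ≤ (MF d j b : ℝ) ^ ((d - 1) * d ^ j) := by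
      exact_mod_cast Mj_lower (by omega : 1 ≤ d) (pow_pos hbn (d - 2)).ne' j
    have hpos : (d - 1) * d ^ j ≠ 0 := (Nat.mul_pos (by omega) (by positivity)).ne'
    have h2 : ((b.natAbs : ℝ) ^ ((1 - 1 / (d - 1)) * (1 - x) : ℝ)) ^ ((d - 1) * d ^ j) ≤
        (MF d j b : ℝ) ^ ((d - 1) * d ^ j) := by
      refine le_trans (le_of_eq ?_) h1
      rw [Nat.cast_pow, ← pow_mul, ← Real.rpow_natCast, ← Real.rpow_natCast,
        ← Real.rpow_mul hbR.le]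
      congr 1
      have h3 : 1 ≤ d ^ j := Nat.one_le_pow _ _ (by omega)
      rw [Nat.cast_mul, Nat.cast_mul, Nat.cast_sub (by omega : 1 ≤ d), Nat.cast_sub h3,
        Nat.cast_sub hd, hxd]
      push_cast
      field_simp
      ring
    exact le_of_pow_le_pow_left₀ hpos hM0.le h2
  calc (b.natAbs : ℝ) ^ (1 - 1 / (d - 1) : ℝ) =
      (b.natAbs : ℝ) ^ ((1 - 1 / (d - 1)) * (1 - x) : ℝ) *
        (b.natAbs : ℝ) ^ ((1 - 1 / (d - 1)) * x : ℝ) := by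
        rw [← Real.rpow_add hbR]; congr 1; ring
    _ ≤ MF d j b * (b.natAbs : ℝ) ^ x := by
        have h4 : (b.natAbs : ℝ) ^ ((1 - 1 / (d - 1)) * x : ℝ) ≤ (b.natAbs : ℝ) ^ x := by
          apply Real.rpow_le_rpow_of_exponent_le hb1
          nlinarith
        gcongr

/-- the main parameter -/
noncomputable def yF (d H j : ℕ) (b : ℤ) : ℝ :=
  (H : ℝ) ^ (1 / (d - 1) : ℝ) * (b.natAbs : ℝ) ^ (1 - 1 / (d - 1) : ℝ) / MF d j b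

lemma yF_nonneg (d H j : ℕ) (b : ℤ) : 0 ≤ yF d H j b := by
  unfold yF
  positivity

lemma SA_mono {d H : ℕ} {P : Polynomial ℤ} {b δ m : ℤ} {𝒜 ℬ : Set ℤ} (h : 𝒜 ⊆ ℬ) :
    SA d H P b δ m 𝒜 ⊆ SA d H P b δ m ℬ := by
  classical
  intro x hx
  unfold SA at hx ⊢
  rw [Finset.mem_filter] at hx ⊢
  obtain ⟨h1, t, ht, h2⟩ := hx
  exact ⟨h1, t, h ht, h2⟩

/-- **The general bound for one fibre.** -/
theorem prs_bound (d : ℕ) (hd : 2 ≤ d) (ε : ℝ) (hε : 0 < ε) : ∃ (j : ℕ) (C : ℝ), 2 ≤ j ∧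
    (1 / d : ℝ) ^ j ≤ ε ∧ 1 ≤ C ∧
    ∀ H : ℕ, 1 ≤ H → ∀ (a : Fin (d + 1) → ℤ) (δ m : ℤ), (∀ i, |a i| ≤ (H : ℤ)) → |δ| ≤ (H : ℤ) →
      |m| ≤ (H : ℤ) → a (Fin.last d) ≠ 0 → m ≠ 0 →
      (Prs H a δ m).Finite ∧
      ((Prs H a δ m).ncard : ℝ) ≤ (C * (H : ℝ) ^ ε * (yF d H j (a (Fin.last d)) + 1)) ^ 2 := by
  have hd0 : (0 : ℝ) < d := by exact_mod_cast (by omega : 0 < d)
  have hd2 : (2 : ℝ) ≤ d := by exact_mod_cast hd
  have hdi : (1 / d : ℝ) < 1 := by rw [div_lt_one hd0]; linarith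
  obtain ⟨j0, hj0⟩ := exists_pow_lt_of_lt_one (show 0 < ε / 8 by positivity) hdi
  set j := j0 + 2 with hj
  have hjx : (1 / d : ℝ) ^ j ≤ ε / 8 := by
    have : (1 / d : ℝ) ^ j ≤ (1 / d : ℝ) ^ j0 :=
      pow_le_pow_of_le_one (by positivity) hdi.le (by omega)
    linarith
  obtain ⟨C1, hC11, hC1⟩ := coordsF d hd j (ε / 8) (by positivity)
  obtain ⟨j2, C2, hC21, hC2⟩ := KK_le d hd (ε / 2) (by positivity)
  set B : ℝ := 12 * (d + 1) * (d + 3) with hB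
  have hB1 : 1 ≤ B := by rw [hB]; nlinarith
  refine ⟨j, C1 * B * C2, by omega, by linarith, ?_, ?_⟩
  · exact one_le_mul_of_one_le_of_one_le (one_le_mul_of_one_le_of_one_le hC11 hB1) hC21
  intro H hH a δ m ha hδ hm had hm0
  have hH1 : (1 : ℝ) ≤ H := by exact_mod_cast hH
  have hH0 : (0 : ℝ) < H := by linarith
  set b := a (Fin.last d) with hb
  have hbn : 0 < b.natAbs := Int.natAbs_pos.2 had
  have hbH : b.natAbs ≤ H := by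
    have h5 : ((b.natAbs : ℕ) : ℤ) ≤ H := by rw [Int.natCast_natAbs]; exact ha _
    exact_mod_cast h5
  have hmH : m.natAbs ≤ H := by
    have h5 : ((m.natAbs : ℕ) : ℤ) ≤ H := by rw [Int.natCast_natAbs]; exact hm
    exact_mod_cast h5
  have hM0 : (0 : ℝ) < MF d j b := by exact_mod_cast MF_pos d j b
  have h1 := hC1 H hH a δ m ha hδ hm had
  have hμ : (b ^ (d - 2) * m).natAbs ≤ H ^ (d - 1) := by
    rw [Int.natAbs_mul, Int.natAbs_pow]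
    calc b.natAbs ^ (d - 2) * m.natAbs ≤ H ^ (d - 2) * H :=
          Nat.mul_le_mul (Nat.pow_le_pow_left hbH _) hmH
      _ = H ^ (d - 1) := by rw [← pow_succ]; congr 1; omega
  have h2 := hC2 H hH (b ^ (d - 2) * m) (mul_ne_zero (pow_ne_zero _ had) hm0) hμ
  have h3 := prs_le hd hH a δ m ha hδ hm had hm0 j2
  set y := yF d H j b with hy
  have hy0 : 0 ≤ y := yF_nonneg _ _ _ _
  have hHx : (H : ℝ) ^ ((1 / d : ℝ) ^ j) ≤ (H : ℝ) ^ (ε / 8) :=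
    Real.rpow_le_rpow_of_exponent_le hH1 hjx
  have hHe : 1 ≤ (H : ℝ) ^ (ε / 8) := Real.one_le_rpow hH1 (by positivity)
  have hLM : (LF d H j b : ℝ) / MF d j b ≤ B * (H : ℝ) ^ (ε / 8) * y := by
    have h5 := LF_le hd hH had j
    rw [hy]
    unfold yF
    rw [← mul_div_assoc]
    apply div_le_div_of_nonneg_right _ hM0.le
    refine h5.trans ?_
    gcongr
  set N := (SA d H (pg d (cg a)) b δ m {t | |t| ≤ (H : ℤ)}).card with hN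
  have hN1 : (N : ℝ) ≤ C1 * B * (H : ℝ) ^ (ε / 4) * (y + 1) := by
    calc (N : ℝ) ≤ C1 * (H : ℝ) ^ (ε / 8) * ((LF d H j b : ℝ) / MF d j b + 1) := h1
      _ ≤ C1 * (H : ℝ) ^ (ε / 8) * (B * (H : ℝ) ^ (ε / 8) * y + B * (H : ℝ) ^ (ε / 8)) := by
          have h6 : 1 ≤ B * (H : ℝ) ^ (ε / 8) := one_le_mul_of_one_le_of_one_le hB1 hHe
          gcongr
      _ = C1 * B * ((H : ℝ) ^ (ε / 8) * (H : ℝ) ^ (ε / 8)) * (y + 1) := by ring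
      _ = _ := by rw [← Real.rpow_add hH0]; congr 3; ring
  have hK0 : 0 ≤ KK d H (b ^ (d - 2) * m) j2 := by unfold KK; positivity
  have hN0 : (0 : ℝ) ≤ N := Nat.cast_nonneg _
  have key : (N : ℝ) ^ 2 * KK d H (b ^ (d - 2) * m) j2 ≤
      (C1 * B * C2 * (H : ℝ) ^ ε * (y + 1)) ^ 2 := by
    calc (N : ℝ) ^ 2 * KK d H (b ^ (d - 2) * m) j2 ≤
        (C1 * B * (H : ℝ) ^ (ε / 4) * (y + 1)) ^ 2 * (C2 * (H : ℝ) ^ (ε / 2)) := by
          gcongr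
      _ = (C1 * B * (y + 1)) ^ 2 * C2 * (((H : ℝ) ^ (ε / 4) * (H : ℝ) ^ (ε / 4)) *
            (H : ℝ) ^ (ε / 2)) := by ring
      _ = (C1 * B * (y + 1)) ^ 2 * C2 * (H : ℝ) ^ ε := by
          rw [← Real.rpow_add hH0, ← Real.rpow_add hH0]; congr 2; ring
      _ ≤ (C1 * B * (y + 1)) ^ 2 * C2 ^ 2 * ((H : ℝ) ^ ε) ^ 2 := by
          have e1 : C2 ≤ C2 ^ 2 := by nlinarith
          have e2 : 1 ≤ (H : ℝ) ^ ε := Real.one_le_rpow hH1 hε.le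
          have e3 : (H : ℝ) ^ ε ≤ ((H : ℝ) ^ ε) ^ 2 := by nlinarith
          gcongr
      _ = _ := by ring
  exact ⟨h3.1, h3.2.trans key⟩

/-- **Every fibre.** -/
theorem every (d : ℕ) (hd : 2 ≤ d) (ε : ℝ) (hε : 0 < ε) : ∃ C : ℝ, ∀ H : ℕ, 1 ≤ H →
    ∀ (a : Fin (d + 1) → ℤ) (δ m : ℤ), (∀ i, |a i| ≤ (H : ℤ)) → |δ| ≤ (H : ℤ) → |m| ≤ (H : ℤ) →
      a (Fin.last d) ≠ 0 → m ≠ 0 →
      (Prs H a δ m).Finite ∧
      ((Prs H a δ m).ncard : ℝ) ≤ C * (H : ℝ) ^ (2 / (d - 1) + ε : ℝ) := by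
  have hd0 : (0 : ℝ) < d := by exact_mod_cast (by omega : 0 < d)
  have hd2 : (2 : ℝ) ≤ d := by exact_mod_cast hd
  have hd1 : (0 : ℝ) < (d : ℝ) - 1 := by linarith
  obtain ⟨j, C, -, hx, hC1, hC⟩ := prs_bound d hd (ε / 4) (by positivity)
  refine ⟨(2 * C) ^ 2, fun H hH a δ m ha hδ hm had hm0 => ?_⟩
  have hH1 : (1 : ℝ) ≤ H := by exact_mod_cast hH
  have hH0 : (0 : ℝ) < H := by linarith
  obtain ⟨h0, h1⟩ := hC H hH a δ m ha hδ hm had hm0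
  refine ⟨h0, ?_⟩
  set b := a (Fin.last d) with hb
  have hbn : 0 < b.natAbs := Int.natAbs_pos.2 had
  have hbR : (0 : ℝ) < b.natAbs := by exact_mod_cast hbn
  have hbH : (b.natAbs : ℝ) ≤ H := by
    have h5 : ((b.natAbs : ℕ) : ℤ) ≤ H := by rw [Int.natCast_natAbs]; exact ha _
    exact_mod_cast h5
  have hM0 : (0 : ℝ) < MF d j b := by exact_mod_cast MF_pos d j b
  have hy : yF d H j b ≤ (H : ℝ) ^ (1 / (d - 1) + ε / 4 : ℝ) := by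
    unfold yF
    rw [div_le_iff₀ hM0]
    have h2 := MF_ge hd had j
    have h3 : (b.natAbs : ℝ) ^ ((1 / d : ℝ) ^ j) ≤ (H : ℝ) ^ (ε / 4) := by
      calc (b.natAbs : ℝ) ^ ((1 / d : ℝ) ^ j) ≤ (H : ℝ) ^ ((1 / d : ℝ) ^ j) :=
            Real.rpow_le_rpow hbR.le hbH (by positivity)
        _ ≤ _ := Real.rpow_le_rpow_of_exponent_le hH1 hx
    calc (H : ℝ) ^ (1 / (d - 1) : ℝ) * (b.natAbs : ℝ) ^ (1 - 1 / (d - 1) : ℝ) ≤
        (H : ℝ) ^ (1 / (d - 1) : ℝ) * (MF d j b * (H : ℝ) ^ (ε / 4)) := by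
          have := h2.trans (mul_le_mul_of_nonneg_left h3 hM0.le)
          gcongr
      _ = ((H : ℝ) ^ (1 / (d - 1) : ℝ) * (H : ℝ) ^ (ε / 4)) * MF d j b := by ring
      _ = _ := by rw [← Real.rpow_add hH0]
  have hy1 : 1 ≤ (H : ℝ) ^ (1 / (d - 1) + ε / 4 : ℝ) := Real.one_le_rpow hH1 (by positivity)
  have hy0 := yF_nonneg d H j b
  calc ((Prs H a δ m).ncard : ℝ) ≤ (C * (H : ℝ) ^ (ε / 4) * (yF d H j b + 1)) ^ 2 := h1
    _ ≤ (C * (H : ℝ) ^ (ε / 4) * ((H : ℝ) ^ (1 / (d - 1) + ε / 4 : ℝ) +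
          (H : ℝ) ^ (1 / (d - 1) + ε / 4 : ℝ))) ^ 2 := by gcongr
    _ = ((2 * C) * ((H : ℝ) ^ (ε / 4) * (H : ℝ) ^ (1 / (d - 1) + ε / 4 : ℝ))) ^ 2 := by ring
    _ = (2 * C) ^ 2 * (H : ℝ) ^ (2 / (d - 1) + ε : ℝ) := by
        rw [← Real.rpow_add hH0, mul_pow, ← Real.rpow_natCast ((H : ℝ) ^ (_ : ℝ)),
          ← Real.rpow_mul hH0.le]
        congr 2
        push_cast
        ring

/-- **One map.** -/
theorem single (d : ℕ) (hd : 2 ≤ d) (ε : ℝ) (hε : 0 < ε) : ∃ C : ℝ, ∀ H : ℕ, 1 ≤ H →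
    ∀ (a : Fin (d + 1) → ℤ) (δ m : ℤ), (∀ i, |a i| ≤ (H : ℤ)) → |δ| ≤ (H : ℤ) → |m| ≤ (H : ℤ) →
      a (Fin.last d) ≠ 0 → m ≠ 0 → (Per a δ m).Finite ∧
      ((Per a δ m).ncard : ℝ) ≤ C * (H : ℝ) ^ ε *
        ((max δ.natAbs m.natAbs : ℕ) / (Int.gcd δ m : ℝ)) ^ (1 / (d - 1) : ℝ) := by
  obtain ⟨C1, hC11, hC1⟩ := coordsS d hd (ε / 2) (by positivity)
  obtain ⟨j2, C2, hC21, hC2⟩ := KK_le d hd (ε / 2) (by positivity)
  refine ⟨C1 * C2, fun H hH a δ m ha hδ hm had hm0 => ?_⟩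
  have hH1 : (1 : ℝ) ≤ H := by exact_mod_cast hH
  have hH0 : (0 : ℝ) < H := by linarith
  set b := a (Fin.last d) with hb
  have hbH : b.natAbs ≤ H := by
    have h5 : ((b.natAbs : ℕ) : ℤ) ≤ H := by rw [Int.natCast_natAbs]; exact ha _
    exact_mod_cast h5
  have hmH : m.natAbs ≤ H := by
    have h5 : ((m.natAbs : ℕ) : ℤ) ≤ H := by rw [Int.natCast_natAbs]; exact hm
    exact_mod_cast h5
  have hμ : (b ^ (d - 2) * m).natAbs ≤ H ^ (d - 1) := by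
    rw [Int.natAbs_mul, Int.natAbs_pow]
    calc b.natAbs ^ (d - 2) * m.natAbs ≤ H ^ (d - 2) * H :=
          Nat.mul_le_mul (Nat.pow_le_pow_left hbH _) hmH
      _ = H ^ (d - 1) := by rw [← pow_succ]; congr 1; omega
  have h1 := hC1 H hH a δ m ha hδ hm had hm0
  have h2 := hC2 H hH (b ^ (d - 2) * m) (mul_ne_zero (pow_ne_zero _ had) hm0) hμ
  have h4 := per_le hd hH a δ m ha hδ hm had hm0 j2
  refine ⟨h4.1, h4.2.trans ?_⟩
  have hK0 : 0 ≤ KK d H (b ^ (d - 2) * m) j2 := by unfold KK; positivity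
  set J : ℝ := ((max δ.natAbs m.natAbs : ℕ) / (Int.gcd δ m : ℝ)) ^ (1 / (d - 1) : ℝ) with hJ
  have hJ0 : 0 ≤ J := by
    rw [hJ]
    exact Real.rpow_nonneg (by positivity) _
  calc ((SA d H (pg d (cg a)) b δ m {a 0}).card : ℝ) * KK d H (b ^ (d - 2) * m) j2 ≤
      (C1 * (H : ℝ) ^ (ε / 2) * J) * (C2 * (H : ℝ) ^ (ε / 2)) := by gcongr
    _ = C1 * C2 * ((H : ℝ) ^ (ε / 2) * (H : ℝ) ^ (ε / 2)) * J := by ring
    _ = _ := by rw [← Real.rpow_add hH0]; congr 3; ring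

/-- **The leading coefficient in a thin set.** -/
theorem thin_lead (d : ℕ) (hd : 3 ≤ d) (θ ε : ℝ) (hθ : 0 < θ) (hθ1 : θ ≤ 1)
    (hθd : 1 < ((d - 1 : ℕ) : ℝ) * θ) (hε : 0 < ε) :
    ∃ δ η : ℝ, 0 < δ ∧ 0 < η ∧ ∀ᶠ X : ℕ in atTop, ∀ A : Finset ℕ,
      Spread X θ ((X : ℝ) ^ η) A → ∃ S : Finset ℕ, S ⊆ A ∧
        (S.card : ℝ) ≤ (X : ℝ) ^ (-δ) * (A.card : ℝ) ∧
        ∀ z ∈ A, z ∉ S → ∀ (a : Fin (d + 1) → ℤ) (b m : ℤ), (∀ i, |a i| ≤ (X : ℤ)) → |b| ≤ (X : ℤ) →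
          |m| ≤ (X : ℤ) → |a (Fin.last d)| = (z : ℤ) → m ≠ 0 →
          (Prs X a b m).Finite ∧ ((Prs X a b m).ncard : ℝ) ≤ (X : ℝ) ^ ε := by
  obtain ⟨e, he⟩ : ∃ e, e = min (1 / 2) (ε / 30) := ⟨_, rfl⟩
  have he0 : 0 < e := by rw [he]; exact lt_min (by norm_num) (by positivity)
  have he1 : e < 1 := by
    rw [he]; exact lt_of_le_of_lt (min_le_left _ _) (by norm_num)
  have he30 : 30 * e ≤ ε := by
    rw [he]
    linarith [min_le_right (1 / 2 : ℝ) (ε / 30)]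
  have hd0 : (0 : ℝ) < d := by exact_mod_cast (by omega : 0 < d)
  obtain ⟨δ, η, hδ, hη, -, h⟩ := thin_good 1 (d - 1) θ e 1 (by omega) hθ hθ1
    hθd he0 he1 one_pos
  obtain ⟨j, C, hj2, -, hC1, hC⟩ := prs_bound d (by omega) e he0
  refine ⟨δ, η, hδ, hη, ?_⟩
  filter_upwards [h, eventually_ge_atTop 1, ev_const 1 η hη, ev_const 2 e he0,
    ev_const (C * 33) e he0] with X hX hX1 h1X h2X hCX A hA
  have hX1r : (1 : ℝ) ≤ X := by exact_mod_cast hX1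
  have hX0 : (0 : ℝ) < X := by linarith
  obtain ⟨S, hSA, hS, hgood⟩ := hX (fun _ => A) fun _ => hA
  refine ⟨S.image fun z => z 0, ?_, ?_, fun z hz hzS a b m ha hb hm haz hm0 => ?_⟩
  · intro z hz
    obtain ⟨y, hy, rfl⟩ := Finset.mem_image.1 hz
    exact Fintype.mem_piFinset.1 (hSA hy) 0
  · rw [Fin.prod_univ_one] at hS
    refine le_trans ?_ hS
    exact_mod_cast Finset.card_image_le
  have hz' : (fun _ : Fin 1 => z) ∈ Fintype.piFinset (fun _ : Fin 1 => A) := by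
    rw [Fintype.mem_piFinset]; exact fun _ => hz
  have hzS' : (fun _ : Fin 1 => z) ∉ S := fun h0 => hzS (Finset.mem_image.2 ⟨_, h0, rfl⟩)
  obtain ⟨hg1, -⟩ := hgood _ hz' hzS'
  have hr1 := hA.2.1 _ hz
  have hU : 1 ≤ ⌊(X : ℝ) ^ η⌋₊ := Nat.le_floor (by exact_mod_cast h1X)
  set u : Fin 1 → ℤ := fun _ => 1 with hu
  have hlu : lin u (fun _ => z) = z := by
    unfold lin; rw [hu]; simp
  have huU : ∀ i, |u i| ≤ ((⌊(X : ℝ) ^ η⌋₊ : ℕ) : ℤ) := by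
    intro i
    have h1 : |u i| ≤ 1 := by simp [hu]
    exact h1.trans (by exact_mod_cast hU)
  have hu0 : u ≠ 0 := by
    intro h0
    have := congrFun h0 0
    simp [hu] at this
  obtain ⟨hY, hE⟩ := hg1 u hu0 huU
  rw [hlu] at hY hE
  have hY' : ⌊(X : ℝ) ^ (1 - e)⌋₊ < z := by
    have : ((⌊(X : ℝ) ^ (1 - e)⌋₊ : ℕ) : ℤ) < (z : ℤ) := by
      rw [Nat.abs_cast] at hY
      exact hY
    exact_mod_cast this
  set c := a (Fin.last d) with hc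
  have hcz : c.natAbs = z := by
    have : ((c.natAbs : ℕ) : ℤ) = z := by rw [Int.natCast_natAbs]; exact haz
    exact_mod_cast this
  have hc0 : c ≠ 0 := by
    intro h0
    rw [h0] at hcz
    simp only [Int.natAbs_zero] at hcz
    omega
  have hM := MF_thin (d := d) (j := j) hd hj2 hc0
    (E := ⌈(X : ℝ) ^ e⌉₊) (by
      intro t ht
      rw [hcz] at ht
      exact hE t (by exact_mod_cast ht))
  rw [hcz] at hM
  set M : ℝ := (MF d j c : ℝ) with hMdef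
  have hM0 : 0 < M := by rw [hMdef]; exact_mod_cast MF_pos d j c
  have hXe : 1 ≤ (X : ℝ) ^ e := Real.one_le_rpow hX1r he0.le
  have hE2 : (⌈(X : ℝ) ^ e⌉₊ : ℝ) ≤ 2 * (X : ℝ) ^ e := by
    have := (Nat.ceil_lt_add_one (by positivity : (0 : ℝ) ≤ (X : ℝ) ^ e)).le
    linarith
  have hYl : (X : ℝ) ^ (1 - e) ≤ 2 * ⌊(X : ℝ) ^ (1 - e)⌋₊ := by
    have e1 : (X : ℝ) ^ (1 - e) < ⌊(X : ℝ) ^ (1 - e)⌋₊ + 1 := Nat.lt_floor_add_one _
    have e2 : 1 ≤ (X : ℝ) ^ (1 - e) := Real.one_le_rpow hX1r (by linarith)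
    have e3 : (1 : ℝ) ≤ ⌊(X : ℝ) ^ (1 - e)⌋₊ := by
      exact_mod_cast Nat.le_floor (by exact_mod_cast e2)
    linarith
  have hzl : (⌊(X : ℝ) ^ (1 - e)⌋₊ : ℝ) ≤ z := by exact_mod_cast hY'.le
  have hp4 : ((X : ℝ) ^ e) ^ 4 = (X : ℝ) ^ (4 * e) := by
    rw [← Real.rpow_natCast, ← Real.rpow_mul hX0.le]; congr 1; push_cast; ring
  have hMr : (z : ℝ) ≤ M * (⌈(X : ℝ) ^ e⌉₊ : ℝ) ^ 4 := by
    rw [hMdef]; exact_mod_cast hM
  have hcl : (X : ℝ) ^ (1 - e) ≤ 32 * M * (X : ℝ) ^ (4 * e) := by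
    calc (X : ℝ) ^ (1 - e) ≤ 2 * ⌊(X : ℝ) ^ (1 - e)⌋₊ := hYl
      _ ≤ 2 * (M * (⌈(X : ℝ) ^ e⌉₊ : ℝ) ^ 4) := by linarith
      _ ≤ 2 * (M * (2 * (X : ℝ) ^ e) ^ 4) := by gcongr
      _ = 32 * M * ((X : ℝ) ^ e) ^ 4 := by ring
      _ = _ := by rw [hp4]
  have hXc : (X : ℝ) / M ≤ 32 * (X : ℝ) ^ (5 * e) := by
    rw [div_le_iff₀ hM0]
    calc (X : ℝ) = (X : ℝ) ^ (1 - e) * (X : ℝ) ^ e := by
          rw [← Real.rpow_add hX0]; simp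
      _ ≤ (32 * M * (X : ℝ) ^ (4 * e)) * (X : ℝ) ^ e := by gcongr
      _ = 32 * ((X : ℝ) ^ (4 * e) * (X : ℝ) ^ e) * M := by ring
      _ = 32 * (X : ℝ) ^ (5 * e) * M := by
          rw [← Real.rpow_add hX0]; congr 3; ring
  have hX5 : 1 ≤ (X : ℝ) ^ (5 * e) := Real.one_le_rpow hX1r (by linarith)
  have hy : yF d X j c ≤ X / M := by
    have hd1 : (0 : ℝ) < (d : ℝ) - 1 := by
      have : (3 : ℝ) ≤ d := by exact_mod_cast hd
      linarith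
    have hzX : ((z : ℕ) : ℝ) ≤ X := by exact_mod_cast hr1.2
    have h2d : (0 : ℝ) ≤ 1 - 1 / (d - 1) := by
      rw [sub_nonneg, div_le_one hd1]
      have : (3 : ℝ) ≤ d := by exact_mod_cast hd
      linarith
    have h5 : (z : ℝ) ^ (1 - 1 / (d - 1) : ℝ) ≤ (X : ℝ) ^ (1 - 1 / (d - 1) : ℝ) :=
      Real.rpow_le_rpow (Nat.cast_nonneg _) hzX h2d
    have h6 : (X : ℝ) ^ (1 / (d - 1) : ℝ) * (X : ℝ) ^ (1 - 1 / (d - 1) : ℝ) = X := by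
      rw [← Real.rpow_add hX0]
      simp
    unfold yF
    rw [hcz, ← hMdef]
    apply div_le_div_of_nonneg_right _ hM0.le
    calc (X : ℝ) ^ (1 / (d - 1) : ℝ) * (z : ℝ) ^ (1 - 1 / (d - 1) : ℝ) ≤
        (X : ℝ) ^ (1 / (d - 1) : ℝ) * (X : ℝ) ^ (1 - 1 / (d - 1) : ℝ) := by gcongr
      _ = X := h6
  obtain ⟨h2, h3⟩ := hC X hX1 a b m ha hb hm hc0 hm0
  have hfin : (C * (X : ℝ) ^ e * (yF d X j c + 1)) ^ 2 ≤ (X : ℝ) ^ ε := by
    have hy0 := yF_nonneg d X j c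
    have h7 : 0 < (X : ℝ) ^ e := Real.rpow_pos_of_pos hX0 _
    have h9 : C * (X : ℝ) ^ e * (yF d X j c + 1) ≤ (X : ℝ) ^ (7 * e) := by
      calc C * (X : ℝ) ^ e * (yF d X j c + 1) ≤
          C * (X : ℝ) ^ e * (32 * (X : ℝ) ^ (5 * e) + (X : ℝ) ^ (5 * e)) := by
            have h8 := hy.trans hXc
            gcongr
        _ = (C * 33) * ((X : ℝ) ^ e * (X : ℝ) ^ (5 * e)) := by ring
        _ ≤ (X : ℝ) ^ e * ((X : ℝ) ^ e * (X : ℝ) ^ (5 * e)) := by gcongr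
        _ = (X : ℝ) ^ (7 * e) := by
            rw [← Real.rpow_add hX0, ← Real.rpow_add hX0]; congr 1; ring
    calc (C * (X : ℝ) ^ e * (yF d X j c + 1)) ^ 2 ≤ ((X : ℝ) ^ (7 * e)) ^ 2 :=
          pow_le_pow_left₀ (by positivity) h9 2
      _ = (X : ℝ) ^ (14 * e) := by
          rw [← Real.rpow_natCast, ← Real.rpow_mul hX0.le]; congr 1; push_cast; ring
      _ ≤ (X : ℝ) ^ ε := Real.rpow_le_rpow_of_exponent_le hX1r (by linarith)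
  exact ⟨h2, h3.trans hfin⟩

/-- the number of the pairs in terms of the radical -/
theorem prs_rad (d : ℕ) (hd : 4 ≤ d) (ε : ℝ) (hε : 0 < ε) : ∃ C : ℝ, 0 < C ∧ ∀ H : ℕ, 1 ≤ H →
    ∀ (a : Fin (d + 1) → ℤ) (δ m : ℤ), (∀ i, |a i| ≤ (H : ℤ)) → |δ| ≤ (H : ℤ) → |m| ≤ (H : ℤ) →
      a (Fin.last d) ≠ 0 → m ≠ 0 → (Prs H a δ m).Finite ∧
      ((Prs H a δ m).ncard : ℝ) ≤ C * (H : ℝ) ^ (1 + ε) / rad (a (Fin.last d)) := by
  have hd0 : (0 : ℝ) < d := by exact_mod_cast (by omega : 0 < d)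
  have hd3 : (3 : ℝ) ≤ d := by exact_mod_cast (by omega : 3 ≤ d)
  have hd1 : (0 : ℝ) < (d : ℝ) - 1 := by linarith
  obtain ⟨j, C, hj2, -, hC1, hC⟩ := prs_bound d (by omega) (ε / 2) (by positivity)
  refine ⟨4 * C ^ 2, by positivity, fun H hH a δ m ha hδ hm had hm0 => ?_⟩
  have hH1 : (1 : ℝ) ≤ H := by exact_mod_cast hH
  have hH0 : (0 : ℝ) < H := by linarith
  obtain ⟨h0, h2⟩ := hC H hH a δ m ha hδ hm had hm0
  refine ⟨h0, ?_⟩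
  set b := a (Fin.last d) with hb
  have hb0 : 0 < b.natAbs := Int.natAbs_pos.2 had
  have hbR : (0 : ℝ) < b.natAbs := by exact_mod_cast hb0
  have hbH : (b.natAbs : ℝ) ≤ H := by
    have h5 : ((b.natAbs : ℕ) : ℤ) ≤ H := by rw [Int.natCast_natAbs]; exact ha _
    exact_mod_cast h5
  have hm0' : (0 : ℝ) < MF d j b := by exact_mod_cast MF_pos d j b
  have hr0 : (0 : ℝ) < rad b := by exact_mod_cast rad_pos b
  have hradH : (rad b : ℝ) ≤ H := by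
    have h5 : rad b ≤ b.natAbs := Nat.le_of_dvd hb0 (Nat.prod_primeFactors_dvd _)
    have h6 : (rad b : ℝ) ≤ b.natAbs := by exact_mod_cast h5
    linarith
  have h1r : 1 ≤ (H : ℝ) / rad b := by rw [le_div_iff₀ hr0]; linarith
  set y := yF d H j b with hy
  have hy0 : 0 ≤ y := yF_nonneg _ _ _ _
  have hHe : 0 < (H : ℝ) ^ (ε / 2) := Real.rpow_pos_of_pos hH0 _
  have hHe1 : 1 ≤ (H : ℝ) ^ (ε / 2) := Real.one_le_rpow hH1 (by positivity)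
  have hsq : (b.natAbs : ℝ) * rad b ≤ (MF d j b : ℝ) ^ 2 := by
    exact_mod_cast MF_sq hd hj2 had
  have hy2 : y ^ 2 ≤ H / rad b := by
    have e1 : y ^ 2 = (H : ℝ) ^ (2 / (d - 1) : ℝ) * (b.natAbs : ℝ) ^ (2 - 2 / (d - 1) : ℝ) /
        (MF d j b : ℝ) ^ 2 := by
      rw [hy]
      unfold yF
      rw [div_pow, mul_pow, ← Real.rpow_natCast ((H : ℝ) ^ (_ : ℝ)), ← Real.rpow_mul hH0.le,
        ← Real.rpow_natCast ((b.natAbs : ℝ) ^ (_ : ℝ)), ← Real.rpow_mul hbR.le]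
      congr 3
      · push_cast; ring
      · push_cast; ring
    have e2 : (H : ℝ) ^ (2 / (d - 1) : ℝ) * (b.natAbs : ℝ) ^ (2 - 2 / (d - 1) : ℝ) ≤
        H * (b.natAbs : ℝ) := by
      have f1 : (b.natAbs : ℝ) ^ (2 - 2 / (d - 1) : ℝ) =
          (b.natAbs : ℝ) ^ (1 - 2 / (d - 1) : ℝ) * (b.natAbs : ℝ) := by
        rw [← Real.rpow_add_one hbR.ne']
        congr 1; ring
      have f2 : (b.natAbs : ℝ) ^ (1 - 2 / (d - 1) : ℝ) ≤ (H : ℝ) ^ (1 - 2 / (d - 1) : ℝ) := by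
        apply Real.rpow_le_rpow hbR.le hbH
        rw [sub_nonneg, div_le_one hd1]
        linarith
      have f3 : (H : ℝ) ^ (2 / (d - 1) : ℝ) * (H : ℝ) ^ (1 - 2 / (d - 1) : ℝ) = H := by
        rw [← Real.rpow_add hH0]; simp
      rw [f1, ← mul_assoc]
      apply mul_le_mul_of_nonneg_right _ (by positivity)
      calc (H : ℝ) ^ (2 / (d - 1) : ℝ) * (b.natAbs : ℝ) ^ (1 - 2 / (d - 1) : ℝ) ≤
          (H : ℝ) ^ (2 / (d - 1) : ℝ) * (H : ℝ) ^ (1 - 2 / (d - 1) : ℝ) := by gcongr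
        _ = H := f3
    rw [e1, div_le_div_iff₀ (by positivity) hr0]
    calc (H : ℝ) ^ (2 / (d - 1) : ℝ) * (b.natAbs : ℝ) ^ (2 - 2 / (d - 1) : ℝ) * rad b ≤
        H * (b.natAbs : ℝ) * rad b := by gcongr
      _ = H * ((b.natAbs : ℝ) * rad b) := by ring
      _ ≤ H * (MF d j b : ℝ) ^ 2 := by gcongr
  have hy4 : (y + 1) ^ 2 ≤ 4 * ((H : ℝ) / rad b) := by
    have e1 : (y + 1) ^ 2 ≤ 2 * (y ^ 2 + 1) := by nlinarith [sq_nonneg (y - 1)]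
    linarith
  calc ((Prs H a δ m).ncard : ℝ) ≤ (C * (H : ℝ) ^ (ε / 2) * (y + 1)) ^ 2 := h2
    _ = C ^ 2 * ((H : ℝ) ^ (ε / 2)) ^ 2 * (y + 1) ^ 2 := by ring
    _ ≤ C ^ 2 * ((H : ℝ) ^ (ε / 2)) ^ 2 * (4 * ((H : ℝ) / rad b)) := by gcongr
    _ = 4 * C ^ 2 * (H * ((H : ℝ) ^ (ε / 2)) ^ 2) / rad b := by ring
    _ = 4 * C ^ 2 * (H : ℝ) ^ (1 + ε) / rad b := by
        congr 2
        rw [← Real.rpow_natCast ((H : ℝ) ^ (ε / 2)), ← Real.rpow_mul hH0.le,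
          Real.rpow_add hH0, Real.rpow_one]
        congr 2
        push_cast; ring

/-- the number of the bad constant terms in terms of the radical -/
theorem bad_rad (d : ℕ) (hd : 3 ≤ d) (ε : ℝ) (hε : 0 < ε) : ∃ C : ℝ, 0 < C ∧ ∀ H : ℕ, 1 ≤ H →
    ∀ (a : Fin (d + 1) → ℤ) (δ m : ℤ), (∀ i, |a i| ≤ (H : ℤ)) → |δ| ≤ (H : ℤ) → |m| ≤ (H : ℤ) →
      a (Fin.last d) ≠ 0 → m ≠ 0 →
      ((Bad H a δ m).ncard : ℝ) ≤ C * (H : ℝ) ^ (3 / 2 + ε) / rad (a (Fin.last d)) := by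
  have hd0 : (0 : ℝ) < d := by exact_mod_cast (by omega : 0 < d)
  have hd3 : (3 : ℝ) ≤ d := by exact_mod_cast hd
  have hd1 : (0 : ℝ) < (d : ℝ) - 1 := by linarith
  obtain ⟨j, C, hj2, -, hC1, hC⟩ := prs_bound d (by omega) (ε / 2) (by positivity)
  refine ⟨4 * C ^ 2, by positivity, fun H hH a δ m ha hδ hm had hm0 => ?_⟩
  have hH1 : (1 : ℝ) ≤ H := by exact_mod_cast hH
  have hH0 : (0 : ℝ) < H := by linarith
  obtain ⟨h0, h2'⟩ := hC H hH a δ m ha hδ hm had hm0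
  have h2 : ((Bad H a δ m).ncard : ℝ) ≤
      (C * (H : ℝ) ^ (ε / 2) * (yF d H j (a (Fin.last d)) + 1)) ^ 2 :=
    le_trans (by exact_mod_cast bad_le_prs H a δ m h0) h2'
  have h2t := bad_trivial H a δ m
  set b := a (Fin.last d) with hb
  have hb0 : 0 < b.natAbs := Int.natAbs_pos.2 had
  have hbR : (0 : ℝ) < b.natAbs := by exact_mod_cast hb0
  have hbH : (b.natAbs : ℝ) ≤ H := by
    have h5 : ((b.natAbs : ℕ) : ℤ) ≤ H := by rw [Int.natCast_natAbs]; exact ha _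
    exact_mod_cast h5
  have hm0' : (0 : ℝ) < MF d j b := by exact_mod_cast MF_pos d j b
  have hr0 : (0 : ℝ) < rad b := by exact_mod_cast rad_pos b
  have hradH : (rad b : ℝ) ≤ H := by
    have h5 : rad b ≤ b.natAbs := Nat.le_of_dvd hb0 (Nat.prod_primeFactors_dvd _)
    have h6 : (rad b : ℝ) ≤ b.natAbs := by exact_mod_cast h5
    linarith
  have h1r : 1 ≤ (H : ℝ) / rad b := by rw [le_div_iff₀ hr0]; linarith
  set y := yF d H j b with hy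
  have hy0 : 0 ≤ y := yF_nonneg _ _ _ _
  have hHe : 0 < (H : ℝ) ^ (ε / 2) := Real.rpow_pos_of_pos hH0 _
  have hHe1 : 1 ≤ (H : ℝ) ^ (ε / 2) := Real.one_le_rpow hH1 (by positivity)
  have hyr : y ≤ H / rad b := by
    have h2d : (0 : ℝ) ≤ 1 - 1 / (d - 1) := by
      rw [sub_nonneg, div_le_one hd1]
      linarith
    have h5 : (b.natAbs : ℝ) ^ (1 - 1 / (d - 1) : ℝ) ≤ (H : ℝ) ^ (1 - 1 / (d - 1) : ℝ) :=
      Real.rpow_le_rpow hbR.le hbH h2d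
    have h6 : (H : ℝ) ^ (1 / (d - 1) : ℝ) * (H : ℝ) ^ (1 - 1 / (d - 1) : ℝ) = H := by
      rw [← Real.rpow_add hH0]
      simp
    have h7 : (rad b : ℝ) ≤ MF d j b := by exact_mod_cast rad_le_MF hd (by omega : 1 ≤ j) b
    rw [hy]
    unfold yF
    calc (H : ℝ) ^ (1 / (d - 1) : ℝ) * (b.natAbs : ℝ) ^ (1 - 1 / (d - 1) : ℝ) / MF d j b ≤
        ((H : ℝ) ^ (1 / (d - 1) : ℝ) * (H : ℝ) ^ (1 - 1 / (d - 1) : ℝ)) / rad b := by gcongr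
      _ = H / rad b := by rw [h6]
  have hN1 : C * (H : ℝ) ^ (ε / 2) * (y + 1) ≤ 2 * C * (H : ℝ) ^ (ε / 2) * (H / rad b) := by
    calc C * (H : ℝ) ^ (ε / 2) * (y + 1)
        ≤ C * (H : ℝ) ^ (ε / 2) * (H / rad b + H / rad b) := by gcongr
      _ = _ := by ring
  set x : ℝ := ((Bad H a δ m).ncard : ℝ) with hx
  have hx0 : 0 ≤ x := Nat.cast_nonneg _
  have hx1 : x ≤ 3 * H := by
    have : x ≤ ((2 * H + 1 : ℕ) : ℝ) := by rw [hx]; exact_mod_cast h2t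
    push_cast at this
    linarith
  set N : ℝ := C * (H : ℝ) ^ (ε / 2) * (y + 1) with hN
  have hN0 : 0 ≤ N := by positivity
  have hx3 : x ≤ 2 * (H : ℝ) ^ (1 / 2 : ℝ) * N := by
    have e1 : x ^ 2 ≤ (2 * (H : ℝ) ^ (1 / 2 : ℝ) * N) ^ 2 := by
      have e2 : ((H : ℝ) ^ (1 / 2 : ℝ)) ^ 2 = H := by
        rw [← Real.rpow_natCast, ← Real.rpow_mul hH0.le]; norm_num
      calc x ^ 2 = x * x := sq x
        _ ≤ (3 * H) * N ^ 2 := by gcongr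
        _ ≤ (4 * H) * N ^ 2 := by gcongr; norm_num
        _ = 4 * ((H : ℝ) ^ (1 / 2 : ℝ)) ^ 2 * N ^ 2 := by rw [e2]
        _ = (2 * (H : ℝ) ^ (1 / 2 : ℝ) * N) ^ 2 := by ring
    exact le_of_pow_le_pow_left₀ (by norm_num) (by positivity) e1
  calc x ≤ 2 * (H : ℝ) ^ (1 / 2 : ℝ) * N := hx3
    _ ≤ 2 * (H : ℝ) ^ (1 / 2 : ℝ) * (2 * C * (H : ℝ) ^ (ε / 2) * (H / rad b)) := by gcongr
    _ = 4 * C * ((H : ℝ) ^ (1 / 2 : ℝ) * H * (H : ℝ) ^ (ε / 2)) / rad b := by ring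
    _ = 4 * C * (H : ℝ) ^ (3 / 2 + ε / 2 : ℝ) / rad b := by
        congr 2
        rw [Real.rpow_add hH0, show (3 / 2 : ℝ) = 1 / 2 + 1 by norm_num, Real.rpow_add hH0,
          Real.rpow_one]
    _ ≤ 4 * C ^ 2 * (H : ℝ) ^ (3 / 2 + ε : ℝ) / rad b := by
        have e1 : C ≤ C ^ 2 := by nlinarith
        have e2 : (H : ℝ) ^ (3 / 2 + ε / 2 : ℝ) ≤ (H : ℝ) ^ (3 / 2 + ε : ℝ) :=
          Real.rpow_le_rpow_of_exponent_le hH1 (by linarith)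
        gcongr

end Pool.Agent.W5h37.HF
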