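import Pool.Agent.W5h37.HF.Seq

/-!
# The number of the second coordinates of the points of given first coordinate
-/

set_option autoImplicit false

namespace Pool.Agent.W5h37.HF

open Finset Polynomial

/-- the sequences -/
def IsOrb (P A : ℤ[X]) (μ μ' w t : ℤ) (y : ℕ → ℤ) : Prop :=
  y 0 = w ∧ y 1 = t ∧ ∀ k, μ * y (k + 2) = P.eval (y (k + 1)) + A.eval t - μ' * y k

/-- the homogenisation -/
noncomputable def hm (P : ℤ[X]) (d : ℕ) (s : ℤ) (Q : ℤ[X]) : ℤ[X] :=
  Q ^ d + ∑ i ∈ Finset.range d, C (P.coeff i * s ^ (d - i)) * Q ^ i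

lemma hm_eval {P : ℤ[X]} {d : ℕ} (hP : P.Monic) (hd : P.natDegree = d) (s y t : ℤ) (Q : ℤ[X])
    (hQ : Q.eval t = s * y) : (hm P d s Q).eval t = s ^ d * P.eval y := by
  unfold hm
  rw [eval_add, eval_pow, eval_finsetSum, hQ, eval_eq_sum_range, hd, Finset.sum_range_succ,
    show P.coeff d = 1 by rw [← hd]; exact hP.coeff_natDegree, one_mul, mul_add, Finset.mul_sum,
    mul_pow, add_comm]
  congr 1
  refine Finset.sum_congr rfl fun i hi => ?_
  have hi' : i < d := Finset.mem_range.1 hi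
  rw [eval_mul, eval_C, eval_pow, hQ, mul_pow]
  have h1 : s ^ d = s ^ (d - i) * s ^ i := by rw [← pow_add]; congr 1; omega
  rw [h1]
  ring

/-- the iterated polynomials -/
theorem slice_poly {P : ℤ[X]} {d : ℕ} (hP : P.Monic) (hd : P.natDegree = d) (hd2 : 2 ≤ d)
    (A : ℤ[X]) (hA : A.natDegree ≤ 1) (μ μ' w : ℤ) (j : ℕ) :
    ∃ (Q Q' : ℤ[X]) (e e' : ℕ), Q.Monic ∧ Q.natDegree = d ^ j ∧ Q'.natDegree ≤ d ^ j ∧
      (d - 1) * e + 1 = d ^ j ∧ e' ≤ d * e ∧
      ∀ (t : ℤ) (y : ℕ → ℤ), IsOrb P A μ μ' w t y →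
        Q.eval t = μ ^ e * y (j + 1) ∧ Q'.eval t = μ ^ e' * y j := by
  induction j with
  | zero =>
    refine ⟨X, C w, 0, 0, monic_X, by simp, by simp, by simp, by simp, ?_⟩
    rintro t y ⟨h0, h1, -⟩
    simp [h0, h1]
  | succ j ih =>
    obtain ⟨Q, Q', e, e', hQ, hQd, hQ'd, he, he', hev⟩ := ih
    have hdj : 1 ≤ d ^ j := Nat.one_le_pow _ _ (by omega)
    have hpow : d ^ (j + 1) = d * d ^ j := by rw [pow_succ, mul_comm]
    have hlt : d ^ j < d ^ (j + 1) := by rw [hpow]; nlinarith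
    set R : ℤ[X] := ∑ i ∈ Finset.range d, C (P.coeff i * (μ ^ e) ^ (d - i)) * Q ^ i with hR
    set Rr : ℤ[X] := R + C (μ ^ (d * e)) * A - C (μ' * μ ^ (d * e - e')) * Q' with hRr
    have hRd : R.degree < ((d ^ (j + 1) : ℕ) : WithBot ℕ) := by
      rw [hR]
      refine mem_degreeLT.1 (Submodule.sum_mem _ fun i hi => mem_degreeLT.2 ?_)
      have hi' : i < d := Finset.mem_range.1 hi
      have h1 : (C (P.coeff i * (μ ^ e) ^ (d - i)) * Q ^ i).natDegree ≤ i * d ^ j := by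
        refine (natDegree_C_mul_le _ _).trans ?_
        refine natDegree_pow_le.trans ?_
        rw [hQd]
      refine (degree_le_natDegree).trans_lt ?_
      have h2 : i * d ^ j < d ^ (j + 1) := by
        rw [hpow]
        exact Nat.mul_lt_mul_of_pos_right hi' (by omega)
      exact_mod_cast lt_of_le_of_lt h1 h2
    have hRrd : Rr.degree < ((d ^ (j + 1) : ℕ) : WithBot ℕ) := by
      rw [hRr]
      refine mem_degreeLT.1 (Submodule.sub_mem _ (Submodule.add_mem _ (mem_degreeLT.2 hRd) ?_) ?_)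
      · refine mem_degreeLT.2 ((degree_le_natDegree).trans_lt ?_)
        have h1 : (C (μ ^ (d * e)) * A).natDegree ≤ 1 := (natDegree_C_mul_le _ _).trans hA
        have h2 : 1 < d ^ (j + 1) := by omega
        exact_mod_cast lt_of_le_of_lt h1 h2
      · refine mem_degreeLT.2 ((degree_le_natDegree).trans_lt ?_)
        have h1 : (C (μ' * μ ^ (d * e - e')) * Q').natDegree ≤ d ^ j :=
          (natDegree_C_mul_le _ _).trans hQ'd
        exact_mod_cast lt_of_le_of_lt h1 hlt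
    have hQdeg : (Q ^ d).natDegree = d ^ (j + 1) := by
      rw [hQ.natDegree_pow, hQd, hpow]
    have hQdeg' : (Q ^ d).degree = ((d ^ (j + 1) : ℕ) : WithBot ℕ) := by
      rw [degree_eq_natDegree (hQ.pow d).ne_zero, hQdeg]
    refine ⟨Q ^ d + Rr, Q, d * e + 1, e, ?_, ?_, ?_, ?_, ?_, ?_⟩
    · exact (hQ.pow d).add_of_left (by rw [hQdeg']; exact hRrd)
    · refine natDegree_eq_of_degree_eq_some ?_
      rw [degree_add_eq_left_of_degree_lt (by rw [hQdeg']; exact hRrd), hQdeg']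
    · rw [hQd]; exact hlt.le
    · obtain ⟨f, rfl⟩ : ∃ f, d = f + 1 := ⟨d - 1, by omega⟩
      rw [Nat.add_sub_cancel] at he ⊢
      rw [hpow, ← he]
      ring
    · nlinarith
    · intro t y hy
      obtain ⟨h1, h2⟩ := hev t y hy
      refine ⟨?_, h1⟩
      have h3 := hm_eval hP hd (μ ^ e) (y (j + 1)) t Q h1
      unfold hm at h3
      rw [← hR] at h3
      have h4 := hy.2.2 j
      rw [hRr, eval_add, eval_sub, eval_add, eval_mul, eval_C, eval_mul, eval_C, h2]
      rw [eval_add] at h3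
      have h5 : μ ^ (d * e) = (μ ^ e) ^ d := by rw [← pow_mul, mul_comm]
      have h6 : μ' * μ ^ (d * e - e') * (μ ^ e' * y j) = μ ^ (d * e) * (μ' * y j) := by
        have : μ ^ (d * e) = μ ^ (d * e - e') * μ ^ e' := by rw [← pow_add]; congr 1; omega
        rw [this]; ring
      rw [h6]
      have h7 : μ ^ (d * e + 1) * y (j + 1 + 1) = μ ^ (d * e) * (μ * y (j + 2)) := by
        rw [pow_succ]; ring
      rw [h7, h4, h5]
      linear_combination h3

/-- the number of the `t` -/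
theorem slice_count {P : ℤ[X]} {d : ℕ} (hP : P.Monic) (hd : P.natDegree = d) (hd2 : 2 ≤ d)
    (A : ℤ[X]) (hA : A.natDegree ≤ 1) (μ μ' w : ℤ) (hμ : μ ≠ 0) (M : ℕ) (j : ℕ) (T : Finset ℤ)
    (hT : ∀ t ∈ T, ∃ y : ℕ → ℤ, IsOrb P A μ μ' w t y ∧ ∀ k, |y k| ≤ (M : ℤ)) :
    (T.card : ℝ) ≤ (((d ^ j) ^ μ.natAbs.primeFactors.card : ℕ) : ℝ) *
      (d ^ j * (2 * (((d : ℝ) ^ j + 1) * M) ^ ((1 / d : ℝ) ^ j) + 3)) := by
  classical
  obtain ⟨Q, Q', e, e', hQ, hQd, -, he, -, hev⟩ := slice_poly hP hd hd2 A hA μ μ' w j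
  set D := d ^ j with hD
  have hD1 : 1 ≤ D := Nat.one_le_pow _ _ (by omega)
  have hDR : (0 : ℝ) < D := by exact_mod_cast hD1
  have hμ0 : 0 < μ.natAbs := Int.natAbs_pos.2 hμ
  have hμR : (0 : ℝ) < μ.natAbs := by exact_mod_cast hμ0
  set W : ℕ := μ.natAbs ^ e * M with hW
  have hval : ∀ t ∈ T, μ ^ e ∣ Q.eval t ∧ |Q.eval t| ≤ (W : ℤ) := by
    intro t ht
    obtain ⟨y, hy, hyM⟩ := hT t ht
    obtain ⟨h1, -⟩ := hev t y hy
    refine ⟨⟨_, h1⟩, ?_⟩
    rw [h1, abs_mul, abs_pow, hW]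
    push_cast
    exact mul_le_mul_of_nonneg_left (hyM _) (by positivity)
  -- radius
  set V : ℕ := (D + 1) * W with hV
  have hV0 : (0 : ℝ) ≤ V := Nat.cast_nonneg _
  set L : ℕ := ⌊(V : ℝ) ^ (1 / D : ℝ)⌋₊ + 1 with hL
  have hVL : V < L ^ D := by
    have h1 : (V : ℝ) ^ (1 / D : ℝ) < L := by
      rw [hL]; push_cast; exact Nat.lt_floor_add_one _
    have h2 : ((V : ℝ) ^ (1 / D : ℝ)) ^ D = V := by
      rw [← Real.rpow_natCast, ← Real.rpow_mul hV0, one_div, inv_mul_cancel₀ hDR.ne', Real.rpow_one]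
    have h3 : ((V : ℝ) ^ (1 / D : ℝ)) ^ D < (L : ℝ) ^ D :=
      pow_lt_pow_left₀ h1 (by positivity) (by omega)
    rw [h2] at h3
    exact_mod_cast h3
  obtain ⟨U, hU1, hU2⟩ := arch_clusters hQ hQd hVL T fun t ht => (hval t ht).2
  -- classes
  set c : ℕ → ℕ := fun p => (e * μ.natAbs.factorization p + (D - 1)) / D with hc
  have hcl : ∀ p ∈ μ.natAbs.primeFactors, (T.image (res p (c p))).card ≤ D := by
    intro p hp
    have hpp := Nat.prime_of_mem_primeFactors hp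
    refine padic_res hQ hQd hD1 hpp (w := e * μ.natAbs.factorization p) ?_ T ?_
    · by_cases h0 : e * μ.natAbs.factorization p = 0
      · right
        simp only [hc]
        rw [h0, zero_add]
        exact Nat.div_eq_of_lt (by omega)
      · left
        simp only [hc]
        set x := e * μ.natAbs.factorization p with hx
        have h2 : D * ((x + (D - 1)) / D) ≤ x + (D - 1) := Nat.mul_div_le _ _
        have h3 : 1 ≤ (x + (D - 1)) / D := by
          rw [Nat.one_le_div_iff (by omega)]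
          omega
        rw [Nat.mul_sub, mul_one]
        have h4 : D ≤ D * ((x + (D - 1)) / D) := Nat.le_mul_of_pos_right _ h3
        omega
    · intro t ht
      refine dvd_trans ?_ (hval t ht).1
      rw [mul_comm, pow_mul]
      push_cast
      refine pow_dvd_pow_of_dvd ?_ _
      have h5 := Nat.ordProj_dvd μ.natAbs p
      have h6 := Int.natCast_dvd.2 h5
      push_cast at h6
      exact h6
  have hmain := combine μ.natAbs.primeFactors (fun p hp => Nat.prime_of_mem_primeFactors hp) c D D L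
    T U hcl hU1 hU2
  set Mo := ∏ p ∈ μ.natAbs.primeFactors, p ^ c p with hMo
  have hMo0 : 0 < Mo := Finset.prod_pos fun p hp =>
    pow_pos (Nat.prime_of_mem_primeFactors hp).pos _
  have hMoR : (0 : ℝ) < Mo := by exact_mod_cast hMo0
  have hMo1 : (1 : ℝ) ≤ Mo := by exact_mod_cast hMo0
  have hMoge : μ.natAbs ^ e ≤ Mo ^ D := by
    have h0 : μ.natAbs = ∏ p ∈ μ.natAbs.primeFactors, p ^ μ.natAbs.factorization p :=
      (Nat.prod_factorization_pow_eq_self hμ0.ne').symm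
    have h1 : μ.natAbs ^ e = ∏ p ∈ μ.natAbs.primeFactors, p ^ (e * μ.natAbs.factorization p) := by
      conv_lhs => rw [h0]
      rw [← Finset.prod_pow]
      refine Finset.prod_congr rfl fun p _ => ?_
      rw [← pow_mul, mul_comm]
    rw [h1, hMo, ← Finset.prod_pow]
    refine Finset.prod_le_prod' fun p hp => ?_
    rw [← pow_mul]
    refine Nat.pow_le_pow_right (Nat.prime_of_mem_primeFactors hp).pos ?_
    simp only [hc]
    set x := e * μ.natAbs.factorization p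
    have h := Nat.lt_mul_div_succ (x + (D - 1)) (by omega : 0 < D)
    rw [mul_add, mul_one] at h
    rw [mul_comm]
    omega
  -- the quotient
  have hexp : (1 / D : ℝ) = (1 / d : ℝ) ^ j := by
    rw [hD]; push_cast; rw [one_div, one_div, inv_pow]
  have hLM : (L : ℝ) / Mo ≤ (((d : ℝ) ^ j + 1) * M) ^ ((1 / d : ℝ) ^ j) + 1 := by
    have h1 : (L : ℝ) ≤ (V : ℝ) ^ (1 / D : ℝ) + 1 := by
      rw [hL]; push_cast
      linarith [Nat.floor_le (Real.rpow_nonneg hV0 (1 / D : ℝ))]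
    have h2 : (V : ℝ) = (((d : ℝ) ^ j + 1) * M) * ((μ.natAbs : ℝ) ^ e) := by
      rw [hV, hW, hD]; push_cast; ring
    have h3 : (V : ℝ) ^ (1 / D : ℝ) ≤ (((d : ℝ) ^ j + 1) * M) ^ ((1 / d : ℝ) ^ j) * Mo := by
      rw [h2, Real.mul_rpow (by positivity) (by positivity), ← hexp]
      refine mul_le_mul_of_nonneg_left ?_ (by positivity)
      have h4 : ((μ.natAbs : ℝ)) ^ e ≤ (Mo : ℝ) ^ D := by exact_mod_cast hMoge
      calc ((μ.natAbs : ℝ) ^ e) ^ (1 / D : ℝ) ≤ ((Mo : ℝ) ^ D) ^ (1 / D : ℝ) :=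
            Real.rpow_le_rpow (by positivity) h4 (by positivity)
        _ = Mo := by
            rw [← Real.rpow_natCast, ← Real.rpow_mul hMoR.le, mul_one_div_cancel hDR.ne',
              Real.rpow_one]
    rw [div_le_iff₀ hMoR]
    calc (L : ℝ) ≤ (V : ℝ) ^ (1 / D : ℝ) + 1 := h1
      _ ≤ (((d : ℝ) ^ j + 1) * M) ^ ((1 / d : ℝ) ^ j) * Mo + 1 * Mo := by linarith
      _ = _ := by ring
  calc (T.card : ℝ) ≤ ((D ^ μ.natAbs.primeFactors.card * (D * (2 * L / Mo + 1)) : ℕ) : ℝ) := by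
        exact_mod_cast hmain
    _ = ((D ^ μ.natAbs.primeFactors.card : ℕ) : ℝ) * (D * (((2 * L / Mo : ℕ) : ℝ) + 1)) := by
        push_cast; ring
    _ ≤ ((D ^ μ.natAbs.primeFactors.card : ℕ) : ℝ) *
        (D * (2 * (((d : ℝ) ^ j + 1) * M) ^ ((1 / d : ℝ) ^ j) + 3)) := by
        have h1 : ((2 * L / Mo : ℕ) : ℝ) ≤ 2 * (L / Mo) := by
          refine Nat.cast_div_le.trans (le_of_eq ?_)
          push_cast; ring
        have h2 : ((2 * L / Mo : ℕ) : ℝ) + 1 ≤
            2 * (((d : ℝ) ^ j + 1) * M) ^ ((1 / d : ℝ) ^ j) + 3 := by linarith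
        gcongr
    _ = _ := by rw [hD]; push_cast; rfl

end Pool.Agent.W5h37.HF
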