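import Pool.Agent.H674R3.HenG
import Pool.Agent.W5h37.HF.Slice

/-!
# The orbits of the rational periodic points of the Hénon maps in a fibre
-/

set_option autoImplicit false

namespace Pool.Agent.W5h37.HF

open Finset Polynomial Pool.Agent.H674R3

/-- the map -/
def hen {d : ℕ} (a : Fin (d + 1) → ℤ) (δ m : ℤ) : ℚ × ℚ → ℚ × ℚ :=
  fun P => (P.2, ((∑ i : Fin (d + 1), (a i : ℚ) * P.2 ^ (i : ℕ)) - (δ : ℚ) * P.1) / (m : ℚ))

/-- the periodic points -/
def Per {d : ℕ} (a : Fin (d + 1) → ℤ) (δ m : ℤ) : Set (ℚ × ℚ) :=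
  {P | ∃ n : ℕ, 1 ≤ n ∧ (hen a δ m)^[n] P = P}

/-- the polynomial -/
noncomputable def pg (d : ℕ) (c : ℕ → ℤ) : ℤ[X] :=
  X ^ d + ∑ i ∈ Finset.Ico 1 d, C (c i * c d ^ (d - 1 - i)) * X ^ i

lemma pg_degree (d : ℕ) (c : ℕ → ℤ) :
    degree (∑ i ∈ Finset.Ico 1 d, C (c i * c d ^ (d - 1 - i)) * X ^ i) < (d : WithBot ℕ) := by
  refine mem_degreeLT.1 (Submodule.sum_mem _ fun i hi => mem_degreeLT.2 ?_)
  refine (degree_C_mul_X_pow_le _ _).trans_lt ?_
  exact_mod_cast (Finset.mem_Ico.1 hi).2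

lemma pg_monic (d : ℕ) (c : ℕ → ℤ) : (pg d c).Monic := monic_X_pow_add (pg_degree d c)

lemma pg_natDegree (d : ℕ) (c : ℕ → ℤ) : (pg d c).natDegree = d := by
  refine natDegree_eq_of_degree_eq_some ?_
  unfold pg
  rw [degree_add_eq_left_of_degree_lt, degree_X_pow]
  rw [degree_X_pow]
  exact pg_degree d c

lemma pg_eval (d : ℕ) (c : ℕ → ℤ) (z : ℤ) :
    (pg d c).eval z = z ^ d + ∑ i ∈ Finset.Ico 1 d, c i * c d ^ (d - 1 - i) * z ^ i := by
  unfold pg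
  rw [eval_add, eval_pow, eval_X, eval_finsetSum]
  congr 1
  refine Finset.sum_congr rfl fun i _ => ?_
  rw [eval_mul, eval_C, eval_pow, eval_X]

lemma cg_coe {d : ℕ} (a : Fin (d + 1) → ℤ) (i : Fin (d + 1)) : cg a (i : ℕ) = a i := by
  unfold cg
  rw [dif_pos i.2]

lemma cg_last {d : ℕ} (a : Fin (d + 1) → ℤ) : cg a d = a (Fin.last d) := cg_coe a (Fin.last d)

lemma cg_update {d : ℕ} (a : Fin (d + 1) → ℤ) (t : ℤ) {i : ℕ} (hi : 1 ≤ i) :
    cg (Function.update a 0 t) i = cg a i := by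
  unfold cg
  by_cases h : i < d + 1
  · rw [dif_pos h, dif_pos h, Function.update_of_ne]
    intro h0
    have := congrArg Fin.val h0
    simp only [Fin.val_zero] at this
    omega
  · rw [dif_neg h, dif_neg h]

lemma pg_update {d : ℕ} (hd : 2 ≤ d) (a : Fin (d + 1) → ℤ) (t : ℤ) :
    pg d (cg (Function.update a 0 t)) = pg d (cg a) := by
  unfold pg
  congr 1
  refine Finset.sum_congr rfl fun i hi => ?_
  rw [cg_update a t (Finset.mem_Ico.1 hi).1, cg_update a t (by omega : 1 ≤ d)]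

/-- the sequences of the numerators -/
def OrbSeq (d H : ℕ) (P : ℤ[X]) (b δ m t : ℤ) (z : ℕ → ℤ) : Prop :=
  (∃ n : ℕ, 1 ≤ n ∧ ∀ k, z (k + n) = z k) ∧ (∀ k, |z k| ≤ (((d + 2) * H : ℕ) : ℤ)) ∧
    ∀ k, P.eval (z (k + 1)) + t * b ^ (d - 1) = b ^ (d - 2) * (m * z (k + 2) + δ * z k)

lemma OrbSeq.shift {d H : ℕ} {P : ℤ[X]} {b δ m t : ℤ} {z : ℕ → ℤ} (h : OrbSeq d H P b δ m t z)
    (s : ℕ) : OrbSeq d H P b δ m t fun k => z (k + s) := by
  obtain ⟨⟨n, hn, hper⟩, h2, h3⟩ := h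
  refine ⟨⟨n, hn, fun k => ?_⟩, fun k => h2 _, fun k => ?_⟩
  · have := hper (k + s)
    simp only
    rw [← this]
    congr 1
    ring
  · have := h3 (k + s)
    rw [show k + s + 1 = k + 1 + s by ring, show k + s + 2 = k + 2 + s by ring] at this
    exact this

/-- the orbit of a rational periodic point -/
theorem orbit {d H : ℕ} (hd : 2 ≤ d) (hH : 1 ≤ H) (a : Fin (d + 1) → ℤ) (δ m : ℤ)
    (ha : ∀ i, |a i| ≤ (H : ℤ)) (hδ : |δ| ≤ (H : ℤ)) (hm : |m| ≤ (H : ℤ))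
    (had : a (Fin.last d) ≠ 0) (hm0 : m ≠ 0) (P : ℚ × ℚ) (hP : P ∈ Per a δ m) :
    ∃ z : ℕ → ℤ, OrbSeq d H (pg d (cg a)) (a (Fin.last d)) δ m (a 0) z ∧
      (z 0 : ℚ) = a (Fin.last d) * P.1 ∧ (z 1 : ℚ) = a (Fin.last d) * P.2 := by
  obtain ⟨n, hn, hPn⟩ := hP
  have hlast := cg_last a
  have hcd : (cg a d : ℚ) ≠ 0 := by rw [hlast]; exact_mod_cast had
  have hle : ∀ i, i ≤ d → |cg a i| ≤ (H : ℤ) := by
    intro i hi
    have := cg_coe a ⟨i, by omega⟩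
    simp only at this
    rw [this]; exact ha _
  have hb0 : (m : ℚ) ≠ 0 := by exact_mod_cast hm0
  have hf1 : ∀ Q, (hen a δ m Q).1 = Q.2 := fun Q => rfl
  have h1 : ∀ k, ((hen a δ m)^[k + 1] P).1 = ((hen a δ m)^[k] P).2 := by
    intro k
    rw [Function.iterate_succ_apply', hf1]
  set x : ℕ → ℚ := fun k => ((hen a δ m)^[k] P).1 with hx
  have hper : Function.Periodic x n := by
    intro k
    simp only [hx]
    rw [Function.iterate_add_apply, hPn]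
  have hrec : ∀ k, (m : ℚ) * x (k + 2)
      = ∑ i ∈ range (d + 1), (cg a i : ℚ) * x (k + 1) ^ i - (δ : ℚ) * x k := by
    intro k
    simp only [hx]
    rw [show k + 2 = (k + 1) + 1 from rfl, h1 (k + 1), h1 k, Function.iterate_succ_apply']
    unfold hen
    simp only
    rw [Finset.sum_range, mul_div_cancel₀ _ hb0]
    congr 1
    apply Finset.sum_congr rfl
    intro i _
    rw [cg_coe a i]
  have hint : ∀ k, ∃ z : ℤ, (z : ℚ) = (cg a d : ℚ) * x k :=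
    fun k => int_orbB (by omega) hn hper hrec k
  choose z hz using hint
  have hzper : ∀ k, z (k + n) = z k := by
    intro k
    have h2 : (z (k + n) : ℚ) = z k := by rw [hz, hz, hper k]
    exact_mod_cast h2
  have hsize : ∀ k, |z k| ≤ (((d + 2) * H : ℕ) : ℤ) := by
    intro k
    have h5 := size_orbB (by omega) hn hper hrec hH hm hle hδ k
    rw [← hz k] at h5
    have h6 : ((|z k| : ℤ) : ℚ) ≤ (((d + 2) * H : ℕ) : ℚ) := by
      rw [Int.cast_abs]; exact h5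
    exact_mod_cast h6
  have heq : ∀ k, (pg d (cg a)).eval (z (k + 1)) + a 0 * a (Fin.last d) ^ (d - 1) =
      a (Fin.last d) ^ (d - 2) * (m * z (k + 2) + δ * z k) := by
    intro k
    have h2 := rec_intB (by omega) hn hper hrec hz k
    rw [← hlast, ← h2, pg_eval]
    obtain ⟨e, rfl⟩ : ∃ e, d = e + 1 := ⟨d - 1, by omega⟩
    rw [Finset.range_eq_Ico, Finset.sum_eq_sum_Ico_succ_bot (by omega : 0 < e + 1)]
    have h0 : cg a 0 = a 0 := cg_coe a 0
    rw [h0]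
    simp only [zero_add, Nat.add_sub_cancel, Nat.sub_zero, pow_zero, mul_one]
    ring
  refine ⟨z, ⟨⟨n, hn, hzper⟩, hsize, heq⟩, ?_, ?_⟩
  · rw [hz 0, hlast]
    rfl
  · rw [hz 1, hlast]
    congr 1

open Classical in
/-- the coordinates -/
noncomputable def SA (d H : ℕ) (P : ℤ[X]) (b δ m : ℤ) (𝒜 : Set ℤ) : Finset ℤ :=
  (Finset.Icc (-(((d + 2) * H : ℕ) : ℤ)) (((d + 2) * H : ℕ) : ℤ)).filter fun x =>
    ∃ t ∈ 𝒜, ∃ z : ℕ → ℤ, OrbSeq d H P b δ m t z ∧ z 0 = x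

lemma mem_SA {d H : ℕ} {P : ℤ[X]} {b δ m : ℤ} {𝒜 : Set ℤ} {t : ℤ} (ht : t ∈ 𝒜) {z : ℕ → ℤ}
    (h : OrbSeq d H P b δ m t z) (k : ℕ) : z k ∈ SA d H P b δ m 𝒜 := by
  classical
  unfold SA
  rw [Finset.mem_filter, Finset.mem_Icc]
  exact ⟨abs_le.1 (h.2.1 k), t, ht, _, h.shift k, by simp⟩

lemma SA_size {d H : ℕ} {P : ℤ[X]} {b δ m : ℤ} {𝒜 : Set ℤ} {x : ℤ}
    (hx : x ∈ SA d H P b δ m 𝒜) : |x| < (((d + 2) * H + 1 : ℕ) : ℤ) := by
  classical
  have := abs_le.2 (Finset.mem_Icc.1 (Finset.mem_filter.1 hx).1)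
  push_cast at this ⊢
  linarith

lemma SA_closed {d H : ℕ} {P : ℤ[X]} {b δ m : ℤ} {𝒜 : Set ℤ} {x : ℤ}
    (hx : x ∈ SA d H P b δ m 𝒜) : ∃ z' ∈ SA d H P b δ m 𝒜, ∃ z'' ∈ SA d H P b δ m 𝒜, ∃ t ∈ 𝒜,
      P.eval x = (b ^ (d - 2) * m) * z' + (b ^ (d - 2) * δ) * z'' + -(t * b ^ (d - 1)) := by
  classical
  obtain ⟨t, ht, z, hz, rfl⟩ := (Finset.mem_filter.1 hx).2
  obtain ⟨n, hn, hper⟩ := hz.1
  obtain ⟨k, rfl⟩ : ∃ k, n = k + 1 := ⟨n - 1, by omega⟩
  refine ⟨z (k + 2), mem_SA ht hz _, z k, mem_SA ht hz _, t, ht, ?_⟩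
  have h1 := hz.2.2 k
  have h2 : z (k + 1) = z 0 := by
    have := hper 0
    rw [zero_add] at this
    exact this
  rw [h2] at h1
  linear_combination h1

lemma cs_le {d : ℕ} (hd : 2 ≤ d) (v j : ℕ) : cs d ((d - 2) * v) j ≤ v := by
  induction j with
  | zero => exact Nat.zero_le _
  | succ j ih =>
    rw [cs_succ]
    refine Nat.le_of_lt_succ ?_
    rw [Nat.div_lt_iff_lt_mul (by omega)]
    obtain ⟨e, rfl⟩ : ∃ e, d = e + 2 := ⟨d - 2, by omega⟩
    have h1 : e + 2 - 2 = e := by omega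
    have h2 : e + 2 - 1 = e + 1 := by omega
    rw [h1] at ih ⊢
    rw [h2]
    nlinarith

/-- **The number of the coordinates of the rational periodic points, all `a_0` together.** -/
theorem fibre_coords {d H : ℕ} (hd : 2 ≤ d) (hH : 1 ≤ H) (P : ℤ[X]) (hP : P.Monic)
    (hPd : P.natDegree = d) (b δ m : ℤ) (hb : |b| ≤ (H : ℤ)) (hδ : |δ| ≤ (H : ℤ))
    (hm : |m| ≤ (H : ℤ)) (hb0 : b ≠ 0) (j : ℕ) :
    (SA d H P b δ m {t | |t| ≤ (H : ℤ)}).card ≤
      nn d j ^ (b.natAbs ^ (d - 2)).primeFactors.card * (nn d j *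
        (2 * Lq d (3 * H * b.natAbs ^ (d - 2)) ((d + 2) * H + 1) j / Mj d (b.natAbs ^ (d - 2)) j + 1)) := by
  have hbn : 0 < b.natAbs := Int.natAbs_pos.2 hb0
  have hbH : b.natAbs ≤ H := by
    have h5 : ((b.natAbs : ℕ) : ℤ) ≤ H := by rw [Int.natCast_natAbs]; exact hb
    exact_mod_cast h5
  refine self_similar hP hPd (by omega) (μ := b ^ (d - 2) * m) (μ' := b ^ (d - 2) * δ) (r₀ := 0)
    (Wr := (H : ℤ) * |b| ^ (d - 1)) (A := b.natAbs) (pow_pos hbn _).ne' ?_ ?_ ?_ ?_ ?_ _ ?_ ?_ j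
  · rw [← Int.natAbs_pow]
    exact (Int.natAbs_dvd.2 dvd_rfl).mul_right _
  · rw [← Int.natAbs_pow]
    exact (Int.natAbs_dvd.2 dvd_rfl).mul_right _
  · obtain ⟨e, rfl⟩ : ∃ e, d = e + 2 := ⟨d - 2, by omega⟩
    rw [Nat.add_sub_cancel]
    calc b.natAbs ^ (e + 2) = b.natAbs ^ e * b.natAbs * b.natAbs := by ring
      _ ≤ b.natAbs ^ e * b.natAbs * H := Nat.mul_le_mul_left _ hbH
      _ ≤ (e + 2 + 1) * (3 * H * b.natAbs ^ e * b.natAbs) := by
          have : b.natAbs ^ e * b.natAbs * H ≤ b.natAbs ^ e * b.natAbs * H * (3 * (e + 3)) :=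
            Nat.le_mul_of_pos_right _ (by omega)
          refine this.trans (le_of_eq ?_)
          ring
  · nlinarith
  · intro L hL
    have hL' : |b| ≤ (L : ℤ) := by
      rw [← Int.natCast_natAbs]; exact_mod_cast hL
    push_cast
    rw [abs_mul, abs_mul, abs_pow]
    have e1 : |b| ^ (d - 1) = |b| ^ (d - 2) * |b| := by rw [← pow_succ]; congr 1; omega
    rw [e1]
    have h0 : (0 : ℤ) ≤ |b| ^ (d - 2) := by positivity
    have hHp : (0 : ℤ) ≤ H := by positivity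
    have hLp : (0 : ℤ) ≤ L := by positivity
    calc (|b| ^ (d - 2) * |m| + |b| ^ (d - 2) * |δ|) * L + H * (|b| ^ (d - 2) * |b|)
        ≤ (|b| ^ (d - 2) * H + |b| ^ (d - 2) * H) * L + H * (|b| ^ (d - 2) * L) := by gcongr
      _ = 3 * H * |b| ^ (d - 2) * L := by ring
  · intro z hz
    exact SA_size hz
  · intro x hx
    obtain ⟨z', hz', z'', hz'', t, ht, heq⟩ := SA_closed hx
    refine ⟨z', hz', z'', hz'', _, heq, ?_, ?_⟩
    · rw [sub_zero, abs_neg, abs_mul, abs_pow]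
      have h1 : |t| ≤ (H : ℤ) := ht
      gcongr
    · intro p hp i
      rw [sub_zero]
      refine Dvd.dvd.neg_right ?_
      refine Dvd.dvd.mul_left ?_ _
      have hpp := Nat.prime_of_mem_primeFactors hp
      have h1 : (b.natAbs ^ (d - 2)).factorization p = (d - 2) * b.natAbs.factorization p := by
        rw [Nat.factorization_pow]
        simp
      rw [h1]
      set v := b.natAbs.factorization p with hv
      have h2 : (d - 2) * v + cs d ((d - 2) * v) i ≤ (d - 1) * v := by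
        have := cs_le hd v i
        obtain ⟨e, rfl⟩ : ∃ e, d = e + 2 := ⟨d - 2, by omega⟩
        have h3 : e + 2 - 2 = e := by omega
        have h4 : e + 2 - 1 = e + 1 := by omega
        rw [h3] at this ⊢
        rw [h4]
        nlinarith
      have h3 : p ^ ((d - 2) * v + cs d ((d - 2) * v) i) ∣ b.natAbs ^ (d - 1) := by
        refine (pow_dvd_pow p h2).trans ?_
        rw [mul_comm, pow_mul]
        exact pow_dvd_pow_of_dvd (Nat.ordProj_dvd b.natAbs p) _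
      rw [Int.natCast_dvd, Int.natAbs_pow]
      exact h3

/-- **The number of the coordinates of the rational periodic points, one map.** -/
theorem single_coords {d H : ℕ} (hd : 2 ≤ d) (P : ℤ[X]) (hP : P.Monic)
    (hPd : P.natDegree = d) (b δ m t₀ : ℤ) (hb0 : b ≠ 0) (hm0 : m ≠ 0) (j : ℕ) :
    (SA d H P b δ m {t₀}).card ≤
      nn d j ^ ((b ^ (d - 2) * m).natAbs.gcd (b ^ (d - 2) * δ).natAbs).primeFactors.card * (nn d j *
        (2 * Lq d ((b ^ (d - 2) * m).natAbs + (b ^ (d - 2) * δ).natAbs) ((d + 2) * H + 1) j /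
          Mj d ((b ^ (d - 2) * m).natAbs.gcd (b ^ (d - 2) * δ).natAbs) j + 1)) := by
  have hμ0 : b ^ (d - 2) * m ≠ 0 := mul_ne_zero (pow_ne_zero _ hb0) hm0
  refine self_similar hP hPd (by omega) (μ := b ^ (d - 2) * m) (μ' := b ^ (d - 2) * δ)
    (r₀ := -(t₀ * b ^ (d - 1))) (Wr := 0) (A := 0) ?_ ?_ ?_ ?_ ?_ ?_ _ ?_ ?_ j
  · exact (Nat.gcd_pos_of_pos_left _ (Int.natAbs_pos.2 hμ0)).ne'
  · exact Int.natCast_dvd.2 (Nat.gcd_dvd_left _ _)
  · exact Int.natCast_dvd.2 (Nat.gcd_dvd_right _ _)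
  · rw [zero_pow (by omega)]; exact Nat.zero_le _
  · exact Nat.zero_le _
  · intro L _
    push_cast
    rw [add_zero]
  · intro z hz
    exact SA_size hz
  · intro x hx
    obtain ⟨z', hz', z'', hz'', t, ht, heq⟩ := SA_closed hx
    rw [Set.mem_singleton_iff] at ht
    subst ht
    refine ⟨z', hz', z'', hz'', _, heq, ?_, ?_⟩
    · rw [sub_self, abs_zero]
    · intro p _ i
      rw [sub_self]
      exact dvd_zero _

end Pool.Agent.W5h37.HF
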