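import Pool.Agent.W5h37.HF.Cluster
import Pool.Agent.W5h37.Thin.Rad

/-!
# The number of the elements of a self-similar set of integers
-/

set_option autoImplicit false

namespace Pool.Agent.W5h37.HF

open Finset Polynomial

/-- the exponents -/
def cs (d b : ℕ) : ℕ → ℕ
  | 0 => 0
  | j + 1 => (b + cs d b j + (d - 1)) / d

/-- the numbers of the classes -/
def nn (d : ℕ) : ℕ → ℕ
  | 0 => 1
  | j + 1 => d * nn d j ^ 2

/-- the radii -/
noncomputable def Lq (d G L0 : ℕ) : ℕ → ℕ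
  | 0 => L0
  | j + 1 => ⌊(((d + 1) * G * Lq d G L0 j : ℕ) : ℝ) ^ (1 / d : ℝ)⌋₊ + 1

/-- the modulus -/
def Mj (d D j : ℕ) : ℕ := ∏ p ∈ D.primeFactors, p ^ cs d (D.factorization p) j

lemma Mj_pos (d D j : ℕ) : 0 < Mj d D j :=
  Finset.prod_pos fun _ hp => pow_pos (Nat.prime_of_mem_primeFactors hp).pos _

lemma cs_succ (d b j : ℕ) : cs d b (j + 1) = (b + cs d b j + (d - 1)) / d := rfl

lemma cs_step {d b : ℕ} (hd : 1 ≤ d) (j : ℕ) : b + cs d b j ≤ d * cs d b (j + 1) := by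
  rw [cs_succ]
  set x := b + cs d b j
  have h := Nat.lt_mul_div_succ (x + (d - 1)) (by omega : 0 < d)
  rw [mul_add, mul_one] at h
  omega

lemma cs_valid {d b : ℕ} (hd : 1 ≤ d) (hb : 1 ≤ b) (j : ℕ) :
    d * (cs d b (j + 1) - 1) < b + cs d b j := by
  rw [cs_succ]
  set x := b + cs d b j with hx
  have h2 : d * ((x + (d - 1)) / d) ≤ x + (d - 1) := Nat.mul_div_le _ _
  have h3 : 1 ≤ (x + (d - 1)) / d := by
    rw [Nat.one_le_div_iff (by omega)]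
    omega
  rw [Nat.mul_sub, mul_one]
  have h4 : d ≤ d * ((x + (d - 1)) / d) := Nat.le_mul_of_pos_right _ h3
  omega

lemma cs_lower {d : ℕ} (hd : 1 ≤ d) (b j : ℕ) : b * (d ^ j - 1) ≤ (d - 1) * d ^ j * cs d b j := by
  induction j with
  | zero => simp
  | succ j ih =>
    have h1 := cs_step (b := b) hd j
    obtain ⟨e, rfl⟩ : ∃ e, d = e + 1 := ⟨d - 1, by omega⟩
    rw [Nat.add_sub_cancel] at ih ⊢
    obtain ⟨q, hq⟩ : ∃ q, (e + 1) ^ j = q + 1 := ⟨(e + 1) ^ j - 1, by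
      have : 0 < (e + 1) ^ j := by positivity
      omega⟩
    rw [hq, Nat.add_sub_cancel] at ih
    rw [pow_succ, hq]
    have e1 : (q + 1) * (e + 1) - 1 = q * (e + 1) + e := by
      have : (q + 1) * (e + 1) = q * (e + 1) + e + 1 := by ring
      omega
    rw [e1]
    calc b * (q * (e + 1) + e) = e * (q + 1) * b + b * q := by ring
      _ ≤ e * (q + 1) * b + e * (q + 1) * cs (e + 1) b j := by omega
      _ = e * (q + 1) * (b + cs (e + 1) b j) := by ring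
      _ ≤ e * (q + 1) * ((e + 1) * cs (e + 1) b (j + 1)) := Nat.mul_le_mul_left _ h1
      _ = _ := by ring

lemma Mj_lower {d D : ℕ} (hd : 1 ≤ d) (hD : D ≠ 0) (j : ℕ) :
    D ^ (d ^ j - 1) ≤ Mj d D j ^ ((d - 1) * d ^ j) := by
  have h0 : D = ∏ p ∈ D.primeFactors, p ^ D.factorization p :=
    (Nat.prod_factorization_pow_eq_self hD).symm
  have h1 : D ^ (d ^ j - 1) = ∏ p ∈ D.primeFactors, p ^ (D.factorization p * (d ^ j - 1)) := by
    conv_lhs => rw [h0]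
    rw [← Finset.prod_pow]
    refine Finset.prod_congr rfl fun p _ => ?_
    rw [← pow_mul]
  rw [h1]
  unfold Mj
  rw [← Finset.prod_pow]
  refine Finset.prod_le_prod' fun p hp => ?_
  rw [← pow_mul]
  refine Nat.pow_le_pow_right (Nat.prime_of_mem_primeFactors hp).pos ?_
  rw [mul_comm (cs _ _ _)]
  exact cs_lower hd _ j

lemma Lq_spec {d : ℕ} (hd : 1 ≤ d) (G L0 j : ℕ) :
    (d + 1) * (G * Lq d G L0 j) < Lq d G L0 (j + 1) ^ d := by
  have hd0 : (0 : ℝ) < d := by exact_mod_cast hd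
  set V : ℕ := (d + 1) * G * Lq d G L0 j with hV
  have hL : Lq d G L0 (j + 1) = ⌊(V : ℝ) ^ (1 / d : ℝ)⌋₊ + 1 := rfl
  have hV0 : (0 : ℝ) ≤ V := Nat.cast_nonneg _
  have h1 : (V : ℝ) ^ (1 / d : ℝ) < Lq d G L0 (j + 1) := by
    rw [hL]; push_cast; exact Nat.lt_floor_add_one _
  have h2 : ((V : ℝ) ^ (1 / d : ℝ)) ^ d = V := by
    rw [← Real.rpow_natCast, ← Real.rpow_mul hV0, one_div, inv_mul_cancel₀ hd0.ne', Real.rpow_one]
  have h3 : ((V : ℝ) ^ (1 / d : ℝ)) ^ d < (Lq d G L0 (j + 1) : ℝ) ^ d :=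
    pow_lt_pow_left₀ h1 (by positivity) (by omega)
  rw [h2] at h3
  rw [← mul_assoc]
  exact_mod_cast h3

lemma Lq_ge {d : ℕ} (hd : 1 ≤ d) {G L0 A : ℕ} (hA : A ^ d ≤ (d + 1) * (G * A)) (h0 : A ≤ L0) (j : ℕ) :
    A ≤ Lq d G L0 j := by
  induction j with
  | zero => exact h0
  | succ j ih =>
    have h1 := Lq_spec hd G L0 j
    have h2 : (d + 1) * (G * A) ≤ (d + 1) * (G * Lq d G L0 j) :=
      Nat.mul_le_mul_left _ (Nat.mul_le_mul_left _ ih)
    have h3 : A ^ d < Lq d G L0 (j + 1) ^ d := by omega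
    exact (lt_of_pow_lt_pow_left' d h3).le

lemma Lq_pos (d G L0 : ℕ) (h0 : 1 ≤ L0) (j : ℕ) : 1 ≤ Lq d G L0 j := by
  cases j with
  | zero => exact h0
  | succ j =>
    have : Lq d G L0 (j + 1) = ⌊(((d + 1) * G * Lq d G L0 j : ℕ) : ℝ) ^ (1 / d : ℝ)⌋₊ + 1 := rfl
    omega

lemma Lq_le {d : ℕ} (hd : 2 ≤ d) {G L0 : ℕ} (hG : 1 ≤ G) (h0 : 1 ≤ L0) (j : ℕ) :
    (Lq d G L0 j : ℝ) ≤ 4 * (d + 1) * (G : ℝ) ^ (1 / (d - 1) : ℝ) *
      (L0 : ℝ) ^ ((1 / d : ℝ) ^ j) := by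
  have hd0 : (0 : ℝ) < d := by exact_mod_cast (by omega : 0 < d)
  have hd2 : (2 : ℝ) ≤ d := by exact_mod_cast hd
  have hd1 : (0 : ℝ) < (d : ℝ) - 1 := by linarith
  have hGR : (1 : ℝ) ≤ G := by exact_mod_cast hG
  have hLR : (1 : ℝ) ≤ L0 := by exact_mod_cast h0
  induction j with
  | zero =>
    rw [pow_zero, Real.rpow_one]
    have h1 : (1 : ℝ) ≤ (G : ℝ) ^ (1 / (d - 1) : ℝ) := Real.one_le_rpow hGR (by positivity)
    have h2 : (1 : ℝ) ≤ 4 * (d + 1) := by linarith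
    have h3 : (1 : ℝ) ≤ 4 * (d + 1) * (G : ℝ) ^ (1 / (d - 1) : ℝ) := one_le_mul_of_one_le_of_one_le h2 h1
    calc (Lq d G L0 0 : ℝ) = 1 * (L0 : ℝ) := by rw [one_mul]; rfl
      _ ≤ _ := by gcongr
  | succ j ih =>
    set V : ℕ := (d + 1) * G * Lq d G L0 j with hV
    have hL : Lq d G L0 (j + 1) = ⌊(V : ℝ) ^ (1 / d : ℝ)⌋₊ + 1 := rfl
    have hV1 : (1 : ℝ) ≤ V := by
      have : 1 ≤ V := Nat.mul_pos (Nat.mul_pos (by omega) (by omega)) (Lq_pos d G L0 h0 j)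
      exact_mod_cast this
    have hV0 : (0 : ℝ) ≤ V := by linarith
    have h1 : (Lq d G L0 (j + 1) : ℝ) ≤ 2 * (V : ℝ) ^ (1 / d : ℝ) := by
      rw [hL]
      push_cast
      have h2 := Nat.floor_le (Real.rpow_nonneg hV0 (1 / d : ℝ))
      have h3 : (1 : ℝ) ≤ (V : ℝ) ^ (1 / d : ℝ) := Real.one_le_rpow hV1 (by positivity)
      linarith
    set K : ℝ := (d : ℝ) + 1 with hK
    have hK1 : 1 ≤ K := by rw [hK]; linarith
    have hGp : 0 < (G : ℝ) := by linarith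
    have hLp : 0 < (L0 : ℝ) := by linarith
    have h4 : (V : ℝ) ≤ (4 * K ^ 2) * ((G : ℝ) ^ (1 / (d - 1) + 1 : ℝ) *
        (L0 : ℝ) ^ ((1 / d : ℝ) ^ j)) := by
      rw [hV]
      push_cast
      calc ((d : ℝ) + 1) * G * Lq d G L0 j ≤
          ((d : ℝ) + 1) * G * (4 * (d + 1) * (G : ℝ) ^ (1 / (d - 1) : ℝ) *
            (L0 : ℝ) ^ ((1 / d : ℝ) ^ j)) := by gcongr
        _ = (4 * K ^ 2) * (((G : ℝ) ^ (1 / (d - 1) : ℝ) * G) * (L0 : ℝ) ^ ((1 / d : ℝ) ^ j)) := by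
            rw [hK]; ring
        _ = _ := by rw [Real.rpow_add hGp, Real.rpow_one]
    have h5 : (V : ℝ) ^ (1 / d : ℝ) ≤ (2 * K) * ((G : ℝ) ^ (1 / (d - 1) : ℝ) *
        (L0 : ℝ) ^ ((1 / d : ℝ) ^ (j + 1))) := by
      calc (V : ℝ) ^ (1 / d : ℝ) ≤ ((4 * K ^ 2) * ((G : ℝ) ^ (1 / (d - 1) + 1 : ℝ) *
            (L0 : ℝ) ^ ((1 / d : ℝ) ^ j))) ^ (1 / d : ℝ) :=
            Real.rpow_le_rpow hV0 h4 (by positivity)
        _ = (4 * K ^ 2) ^ (1 / d : ℝ) * (((G : ℝ) ^ (1 / (d - 1) + 1 : ℝ)) ^ (1 / d : ℝ) *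
            ((L0 : ℝ) ^ ((1 / d : ℝ) ^ j)) ^ (1 / d : ℝ)) := by
            have g1 : (0 : ℝ) ≤ 4 * K ^ 2 := by positivity
            have g2 : (0 : ℝ) ≤ (G : ℝ) ^ (1 / (d - 1) + 1 : ℝ) := by positivity
            have g3 : (0 : ℝ) ≤ (L0 : ℝ) ^ ((1 / d : ℝ) ^ j) := by positivity
            rw [Real.mul_rpow g1 (mul_nonneg g2 g3), Real.mul_rpow g2 g3]
        _ = (4 * K ^ 2) ^ (1 / d : ℝ) * ((G : ℝ) ^ (1 / (d - 1) : ℝ) *
            (L0 : ℝ) ^ ((1 / d : ℝ) ^ (j + 1))) := by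
            rw [← Real.rpow_mul hGp.le, ← Real.rpow_mul hLp.le, pow_succ]
            congr 3
            field_simp
            ring
        _ ≤ (2 * K) * ((G : ℝ) ^ (1 / (d - 1) : ℝ) * (L0 : ℝ) ^ ((1 / d : ℝ) ^ (j + 1))) := by
            have h6 : (4 * K ^ 2) ^ (1 / d : ℝ) ≤ 2 * K := by
              have h7 : (1 : ℝ) ≤ 4 * K ^ 2 := by nlinarith
              calc (4 * K ^ 2) ^ (1 / d : ℝ) ≤ (4 * K ^ 2) ^ (1 / 2 : ℝ) :=
                    Real.rpow_le_rpow_of_exponent_le h7 (one_div_le_one_div_of_le (by norm_num) hd2)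
                _ = 2 * K := by
                    rw [← Real.sqrt_eq_rpow, show 4 * K ^ 2 = (2 * K) ^ 2 by ring,
                      Real.sqrt_sq (by linarith)]
            gcongr
    calc (Lq d G L0 (j + 1) : ℝ) ≤ 2 * (V : ℝ) ^ (1 / d : ℝ) := h1
      _ ≤ 2 * ((2 * K) * ((G : ℝ) ^ (1 / (d - 1) : ℝ) *
        (L0 : ℝ) ^ ((1 / d : ℝ) ^ (j + 1)))) := by gcongr
      _ = _ := by rw [hK]; ring

/-- **The number of the elements of a self-similar set of integers.** -/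
theorem self_similar {P : ℤ[X]} {d : ℕ} (hP : P.Monic) (hd : P.natDegree = d) (hd1 : 1 ≤ d)
    {μ μ' r₀ Wr : ℤ} {D G L0 A : ℕ} (hD : D ≠ 0) (hDμ : (D : ℤ) ∣ μ) (hDμ' : (D : ℤ) ∣ μ')
    (hA : A ^ d ≤ (d + 1) * (G * A)) (hA0 : A ≤ L0)
    (hW : ∀ L : ℕ, A ≤ L → (|μ| + |μ'|) * (L : ℤ) + Wr ≤ ((G * L : ℕ) : ℤ))
    (S : Finset ℤ) (hL0 : ∀ z ∈ S, |z| < (L0 : ℤ))
    (hS : ∀ z ∈ S, ∃ z' ∈ S, ∃ z'' ∈ S, ∃ r : ℤ, P.eval z = μ * z' + μ' * z'' + r ∧
      |r - r₀| ≤ Wr ∧ ∀ p ∈ D.primeFactors, ∀ j : ℕ,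
        ((p ^ (D.factorization p + cs d (D.factorization p) j) : ℕ) : ℤ) ∣ r - r₀) (j : ℕ) :
    S.card ≤ nn d j ^ D.primeFactors.card * (nn d j * (2 * Lq d G L0 j / Mj d D j + 1)) := by
  classical
  have hprime : ∀ p ∈ D.primeFactors, p.Prime := fun p hp => Nat.prime_of_mem_primeFactors hp
  have hpad : ∀ p ∈ D.primeFactors, ∀ j, (S.image (res p (cs d (D.factorization p) j))).card ≤
      nn d j := by
    intro p hp j
    have hpp := hprime p hp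
    have hv : 1 ≤ D.factorization p :=
      (hpp.dvd_iff_one_le_factorization hD).1 (Nat.dvd_of_mem_primeFactors hp)
    have hpD : ((p ^ D.factorization p : ℕ) : ℤ) ∣ (D : ℤ) := by
      exact_mod_cast Nat.ordProj_dvd D p
    induction j with
    | zero =>
      have h1 : S.image (res p (cs d (D.factorization p) 0)) ⊆ {0} := by
        intro y hy
        obtain ⟨z, -, rfl⟩ := Finset.mem_image.1 hy
        unfold res cs
        simp
      refine (Finset.card_le_card h1).trans ?_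
      simp [nn]
    | succ j ih =>
      refine padic_step hP hd hd1 hpp (μ := μ) (μ' := μ') (r₀ := r₀)
        (w := D.factorization p + cs d (D.factorization p) j)
        (Or.inl (cs_valid hd1 hv j)) ?_ ?_ S ?_ ih
      · rw [pow_add]
        push_cast
        refine mul_dvd_mul ?_ dvd_rfl
        have := hpD.trans hDμ
        push_cast at this
        exact this
      · rw [pow_add]
        push_cast
        refine mul_dvd_mul ?_ dvd_rfl
        have := hpD.trans hDμ'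
        push_cast at this
        exact this
      · intro z hz
        obtain ⟨z', hz', z'', hz'', r, h1, -, h3⟩ := hS z hz
        exact ⟨z', hz', z'', hz'', r, h1, h3 p hp j⟩
  have harch : ∀ j, ∃ T : Finset ℤ, T.card ≤ nn d j ∧
      ∀ z ∈ S, ∃ t ∈ T, |z - t| < (Lq d G L0 j : ℤ) := by
    intro j
    induction j with
    | zero =>
      refine ⟨{0}, by simp [nn], fun z hz => ⟨0, by simp, ?_⟩⟩
      rw [sub_zero]
      exact hL0 z hz
    | succ j ih =>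
      refine arch_step hP hd hd1 (μ := μ) (μ' := μ') (r₀ := r₀) (Lq_spec hd1 G L0 j) Wr
        (hW _ (Lq_ge hd1 hA hA0 j)) S ?_ ih
      intro z hz
      obtain ⟨z', hz', z'', hz'', r, h1, h2, -⟩ := hS z hz
      exact ⟨z', hz', z'', hz'', r, h1, h2⟩
  obtain ⟨T, hT1, hT2⟩ := harch j
  exact combine D.primeFactors hprime (fun p => cs d (D.factorization p) j) (nn d j) (nn d j)
    (Lq d G L0 j) S T (fun p hp => hpad p hp j) hT1 hT2

lemma omega_pow (n : ℕ) (hn : 1 ≤ n) (ε : ℝ) (hε : 0 < ε) : ∃ C : ℝ, 1 ≤ C ∧ ∀ D : ℕ, D ≠ 0 →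
    ((n ^ D.primeFactors.card : ℕ) : ℝ) ≤ C * (D : ℝ) ^ ε := by
  obtain ⟨Cd, hCd0, hCd⟩ := Pool.Agent.W5h37.Thin.divisor_bound (ε / n)
    (by have : (0 : ℝ) < n := by exact_mod_cast hn
        positivity)
  have hn0 : (0 : ℝ) < n := by exact_mod_cast hn
  refine ⟨(Cd + 1) ^ n, one_le_pow₀ (by linarith), fun D hD => ?_⟩
  have hDR : (0 : ℝ) < D := by exact_mod_cast Nat.pos_of_ne_zero hD
  have h1 : 2 ^ D.primeFactors.card ≤ D.divisors.card := by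
    rw [← Finset.card_powerset]
    refine Finset.card_le_card_of_injOn (fun T => ∏ p ∈ T, p) ?_ ?_
    · intro T hT
      rw [Finset.mem_coe, Finset.mem_powerset] at hT
      rw [Finset.mem_coe, Nat.mem_divisors]
      refine ⟨?_, hD⟩
      exact Finset.prod_primes_dvd _ (fun p hp => (Nat.prime_of_mem_primeFactors (hT hp)).prime)
        fun p hp => Nat.dvd_of_mem_primeFactors (hT hp)
    · intro T hT T' hT' heq
      rw [Finset.mem_coe, Finset.mem_powerset] at hT hT'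
      rw [← Nat.primeFactors_prod fun p hp => Nat.prime_of_mem_primeFactors (hT hp),
        ← Nat.primeFactors_prod fun p hp => Nat.prime_of_mem_primeFactors (hT' hp)]
      exact congrArg Nat.primeFactors heq
  have h2 : n ^ D.primeFactors.card ≤ D.divisors.card ^ n := by
    calc n ^ D.primeFactors.card ≤ (2 ^ n) ^ D.primeFactors.card :=
          Nat.pow_le_pow_left Nat.lt_two_pow_self.le _
      _ = (2 ^ D.primeFactors.card) ^ n := by rw [← pow_mul, ← pow_mul, mul_comm]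
      _ ≤ _ := Nat.pow_le_pow_left h1 n
  have h3 : ((D.divisors.card : ℕ) : ℝ) ≤ (Cd + 1) * (D : ℝ) ^ (ε / n) := by
    refine (hCd D hD).trans ?_
    have h6 : (0 : ℝ) ≤ (D : ℝ) ^ (ε / n) := by positivity
    nlinarith
  calc ((n ^ D.primeFactors.card : ℕ) : ℝ) ≤ ((D.divisors.card ^ n : ℕ) : ℝ) := by exact_mod_cast h2
    _ = ((D.divisors.card : ℕ) : ℝ) ^ n := by push_cast; rfl
    _ ≤ ((Cd + 1) * (D : ℝ) ^ (ε / n)) ^ n := pow_le_pow_left₀ (by positivity) h3 n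
    _ = (Cd + 1) ^ n * (D : ℝ) ^ ε := by
        rw [mul_pow, ← Real.rpow_natCast ((D : ℝ) ^ (ε / n)), ← Real.rpow_mul hDR.le,
          div_mul_cancel₀ _ hn0.ne']

end Pool.Agent.W5h37.HF
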