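import Pool.Agent.W5h37.HF.Main

/-!
# The number of all maps with a rational periodic point
-/

set_option autoImplicit false

namespace Pool.Agent.W5h37.HF

open Finset Filter Pool.Agent.H674R3 Pool.Agent.W5h37.Thin

/-- the exponent -/
noncomputable def sexp (d : ℕ) : ℝ := if 7 ≤ d then 1 else 5 / 3

/-- the number of the bad constant terms in terms of the radical -/
theorem bad_rad (d : ℕ) (hd : 3 ≤ d) (ε : ℝ) (hε : 0 < ε) : ∃ C : ℝ, 0 < C ∧ ∀ H : ℕ, 1 ≤ H →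
    ∀ (a : Fin (d + 1) → ℤ) (δ m : ℤ), (∀ i, |a i| ≤ (H : ℤ)) → |δ| ≤ (H : ℤ) → |m| ≤ (H : ℤ) →
      a (Fin.last d) ≠ 0 → m ≠ 0 →
      ((Bad H a δ m).ncard : ℝ) ≤ C * (H : ℝ) ^ (sexp d + ε) / rad (a (Fin.last d)) := by
  obtain ⟨C, hC1, hC⟩ := adm_bound d hd (ε / 3) (by positivity)
  have hd0 : (0 : ℝ) < d := by exact_mod_cast (by omega : 0 < d)
  refine ⟨8 * C ^ 3, by positivity, fun H hH a δ m ha hδ hm had hm0 => ?_⟩
  have hH1 : (1 : ℝ) ≤ H := by exact_mod_cast hH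
  have hH0 : (0 : ℝ) < H := by linarith
  have h2 := bad_card hd hH a δ m ha hδ hm had hm0
  have h2t := bad_trivial H a δ m
  have h4 := hC H hH (cg a) (by rw [cg_last]; exact had) (by rw [cg_last]; exact ha _)
  rw [cg_last] at h4
  set N := (admG d (cg a) ((d + 2) * H) (WW d H (a (Fin.last d)))).card with hN
  set b := a (Fin.last d) with hb
  have hb0 : 0 < b.natAbs := Int.natAbs_pos.2 had
  have hbR : (0 : ℝ) < b.natAbs := by exact_mod_cast hb0
  have hbH : (b.natAbs : ℝ) ≤ H := by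
    have h5 : ((b.natAbs : ℕ) : ℤ) ≤ H := by rw [Int.natCast_natAbs]; exact ha _
    exact_mod_cast h5
  have hm0' : (0 : ℝ) < mdl d b := by exact_mod_cast mdl_pos d b
  have hr0 : (0 : ℝ) < rad b := by exact_mod_cast rad_pos b
  have hradH : (rad b : ℝ) ≤ H := by
    have h5 : rad b ≤ b.natAbs := Nat.le_of_dvd hb0 (Nat.prod_primeFactors_dvd _)
    have h6 : (rad b : ℝ) ≤ b.natAbs := by exact_mod_cast h5
    linarith
  have h1r : 1 ≤ (H : ℝ) / rad b := by rw [le_div_iff₀ hr0]; linarith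
  set y := (H : ℝ) ^ (2 / d : ℝ) * (b.natAbs : ℝ) ^ (1 - 2 / d : ℝ) / mdl d b with hy
  have hy0 : 0 ≤ y := by positivity
  have hHe : 0 < (H : ℝ) ^ (ε / 3) := Real.rpow_pos_of_pos hH0 _
  have hHe1 : 1 ≤ (H : ℝ) ^ (ε / 3) := Real.one_le_rpow hH1 (by positivity)
  have hN0 : (0 : ℝ) ≤ N := Nat.cast_nonneg _
  unfold sexp
  split_ifs with h7
  · -- `d ≥ 7`
    have hcube : ((b.natAbs : ℝ)) ^ 2 * rad b ≤ (mdl d b : ℝ) ^ 3 := by
      exact_mod_cast mdl_cube h7 had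
    have hy3 : y ^ 3 ≤ H / rad b := by
      have e1 : y ^ 3 = (H : ℝ) ^ (6 / d : ℝ) * (b.natAbs : ℝ) ^ (3 - 6 / d : ℝ) / (mdl d b : ℝ) ^ 3 := by
        rw [hy, div_pow, mul_pow, ← Real.rpow_natCast ((H : ℝ) ^ (2 / d : ℝ)), ← Real.rpow_mul hH0.le,
          ← Real.rpow_natCast ((b.natAbs : ℝ) ^ (1 - 2 / d : ℝ)), ← Real.rpow_mul hbR.le]
        congr 3
        · push_cast; ring
        · push_cast; ring
      have e2 : (H : ℝ) ^ (6 / d : ℝ) * (b.natAbs : ℝ) ^ (3 - 6 / d : ℝ) ≤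
          H * (b.natAbs : ℝ) ^ 2 := by
        have f1 : (b.natAbs : ℝ) ^ (3 - 6 / d : ℝ) =
            (b.natAbs : ℝ) ^ (1 - 6 / d : ℝ) * (b.natAbs : ℝ) ^ 2 := by
          rw [← Real.rpow_natCast (b.natAbs : ℝ) 2, ← Real.rpow_add hbR]
          congr 1; push_cast; ring
        have f2 : (b.natAbs : ℝ) ^ (1 - 6 / d : ℝ) ≤ (H : ℝ) ^ (1 - 6 / d : ℝ) := by
          apply Real.rpow_le_rpow hbR.le hbH
          rw [sub_nonneg, div_le_one hd0]
          exact_mod_cast (by omega : 6 ≤ d)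
        have f3 : (H : ℝ) ^ (6 / d : ℝ) * (H : ℝ) ^ (1 - 6 / d : ℝ) = H := by
          rw [← Real.rpow_add hH0]; simp
        rw [f1, ← mul_assoc]
        apply mul_le_mul_of_nonneg_right _ (by positivity)
        calc (H : ℝ) ^ (6 / d : ℝ) * (b.natAbs : ℝ) ^ (1 - 6 / d : ℝ) ≤
            (H : ℝ) ^ (6 / d : ℝ) * (H : ℝ) ^ (1 - 6 / d : ℝ) := by gcongr
          _ = H := f3
      rw [e1, div_le_div_iff₀ (by positivity) hr0]
      calc (H : ℝ) ^ (6 / d : ℝ) * (b.natAbs : ℝ) ^ (3 - 6 / d : ℝ) * rad b ≤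
          H * (b.natAbs : ℝ) ^ 2 * rad b := by gcongr
        _ = H * ((b.natAbs : ℝ) ^ 2 * rad b) := by ring
        _ ≤ H * (mdl d b : ℝ) ^ 3 := by gcongr
    have hy4 : (y + 1) ^ 3 ≤ 8 * ((H : ℝ) / rad b) := by
      have e1 : (y + 1) ^ 3 ≤ 4 * (y ^ 3 + 1) := by nlinarith [sq_nonneg (y - 1), mul_nonneg hy0 (sq_nonneg (y - 1))]
      linarith
    calc ((Bad H a δ m).ncard : ℝ) ≤ (N : ℝ) ^ 3 := by exact_mod_cast h2
      _ ≤ (C * (H : ℝ) ^ (ε / 3) * (y + 1)) ^ 3 := pow_le_pow_left₀ hN0 h4 3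
      _ = C ^ 3 * ((H : ℝ) ^ (ε / 3)) ^ 3 * (y + 1) ^ 3 := by ring
      _ ≤ C ^ 3 * ((H : ℝ) ^ (ε / 3)) ^ 3 * (8 * ((H : ℝ) / rad b)) := by gcongr
      _ = 8 * C ^ 3 * (H * ((H : ℝ) ^ (ε / 3)) ^ 3) / rad b := by ring
      _ = 8 * C ^ 3 * (H : ℝ) ^ (1 + ε) / rad b := by
          congr 2
          rw [← Real.rpow_natCast ((H : ℝ) ^ (ε / 3)), ← Real.rpow_mul hH0.le,
            Real.rpow_add hH0, Real.rpow_one]
          congr 2
          push_cast; ring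
  · -- all `d ≥ 3`
    have hyr : y ≤ H / rad b := by
      have h2d : (0 : ℝ) ≤ 1 - 2 / d := by
        rw [sub_nonneg, div_le_one hd0]
        exact_mod_cast (by omega : 2 ≤ d)
      have h5 : (b.natAbs : ℝ) ^ (1 - 2 / d : ℝ) ≤ (H : ℝ) ^ (1 - 2 / d : ℝ) :=
        Real.rpow_le_rpow hbR.le hbH h2d
      have h6 : (H : ℝ) ^ (2 / d : ℝ) * (H : ℝ) ^ (1 - 2 / d : ℝ) = H := by
        rw [← Real.rpow_add hH0]
        simp
      have h7 : (rad b : ℝ) ≤ mdl d b := by exact_mod_cast rad_le_mdl hd b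
      rw [hy]
      calc (H : ℝ) ^ (2 / d : ℝ) * (b.natAbs : ℝ) ^ (1 - 2 / d : ℝ) / mdl d b ≤
          ((H : ℝ) ^ (2 / d : ℝ) * (H : ℝ) ^ (1 - 2 / d : ℝ)) / rad b := by gcongr
        _ = H / rad b := by rw [h6]
    have hN1 : (N : ℝ) ≤ 2 * C * (H : ℝ) ^ (ε / 3) * (H / rad b) := by
      calc (N : ℝ) ≤ C * (H : ℝ) ^ (ε / 3) * (y + 1) := h4
        _ ≤ C * (H : ℝ) ^ (ε / 3) * (H / rad b + H / rad b) := by gcongr
        _ = _ := by ring
    set x : ℝ := ((Bad H a δ m).ncard : ℝ) with hx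
    have hx0 : 0 ≤ x := Nat.cast_nonneg _
    have hx1 : x ≤ 3 * H := by
      have : x ≤ ((2 * H + 1 : ℕ) : ℝ) := by rw [hx]; exact_mod_cast h2t
      push_cast at this
      linarith
    have hx2 : x ≤ (N : ℝ) ^ 3 := by rw [hx]; exact_mod_cast h2
    have hx3 : x ≤ 3 * (H : ℝ) ^ (2 / 3 : ℝ) * N := by
      have e1 : x ^ (1 / 3 : ℝ) ≤ N := by
        calc x ^ (1 / 3 : ℝ) ≤ ((N : ℝ) ^ 3) ^ (1 / 3 : ℝ) := Real.rpow_le_rpow hx0 hx2 (by norm_num)
          _ = N := by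
              rw [← Real.rpow_natCast, ← Real.rpow_mul hN0]
              norm_num
      have e2 : x ^ (2 / 3 : ℝ) ≤ 3 * (H : ℝ) ^ (2 / 3 : ℝ) := by
        calc x ^ (2 / 3 : ℝ) ≤ (3 * H : ℝ) ^ (2 / 3 : ℝ) := Real.rpow_le_rpow hx0 hx1 (by norm_num)
          _ = (3 : ℝ) ^ (2 / 3 : ℝ) * (H : ℝ) ^ (2 / 3 : ℝ) := Real.mul_rpow (by norm_num) hH0.le
          _ ≤ (3 : ℝ) ^ (1 : ℝ) * (H : ℝ) ^ (2 / 3 : ℝ) := by
              gcongr
              · norm_num
              · norm_num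
          _ = _ := by rw [Real.rpow_one]
      have e3 : x = x ^ (2 / 3 : ℝ) * x ^ (1 / 3 : ℝ) := by
        rcases hx0.eq_or_lt with h0 | h0
        · rw [← h0, Real.zero_rpow (by norm_num), zero_mul]
        · rw [← Real.rpow_add h0]; norm_num
      rw [e3]
      have e4 : 0 ≤ x ^ (1 / 3 : ℝ) := Real.rpow_nonneg hx0 _
      have e5 : 0 ≤ x ^ (2 / 3 : ℝ) := Real.rpow_nonneg hx0 _
      exact mul_le_mul e2 e1 e4 (by positivity)
    calc x ≤ 3 * (H : ℝ) ^ (2 / 3 : ℝ) * N := hx3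
      _ ≤ 3 * (H : ℝ) ^ (2 / 3 : ℝ) * (2 * C * (H : ℝ) ^ (ε / 3) * (H / rad b)) := by gcongr
      _ = 6 * C * ((H : ℝ) ^ (2 / 3 : ℝ) * H * (H : ℝ) ^ (ε / 3)) / rad b := by ring
      _ = 6 * C * (H : ℝ) ^ (5 / 3 + ε / 3 : ℝ) / rad b := by
          congr 2
          rw [Real.rpow_add hH0, show (5 / 3 : ℝ) = 2 / 3 + 1 by norm_num, Real.rpow_add hH0,
            Real.rpow_one]
      _ ≤ 8 * C ^ 3 * (H : ℝ) ^ (5 / 3 + ε : ℝ) / rad b := by
          have e1 : C ≤ C ^ 3 := by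
            calc C = C ^ 1 := (pow_one C).symm
              _ ≤ C ^ 3 := pow_le_pow_right₀ hC1 (by norm_num)
          have e2 : (H : ℝ) ^ (5 / 3 + ε / 3 : ℝ) ≤ (H : ℝ) ^ (5 / 3 + ε : ℝ) :=
            Real.rpow_le_rpow_of_exponent_le hH1 (by linarith)
          have e3 : 6 * C ≤ 8 * C ^ 3 := by linarith
          gcongr

/-- the maps with the denominator `m` -/
def MapsPer (d H : ℕ) (m : ℤ) : Set ((Fin (d + 1) → ℤ) × ℤ) :=
  {q | (∀ i, |q.1 i| ≤ (H : ℤ)) ∧ |q.2| ≤ (H : ℤ) ∧ q.1 (Fin.last d) ≠ 0 ∧ q.2 ≠ 0 ∧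
    (Per q.1 q.2 m).Nonempty}

lemma mapsPer_finite (d H : ℕ) (m : ℤ) : (MapsPer d H m).Finite := by
  refine (Finset.finite_toSet ((Fintype.piFinset fun _ : Fin (d + 1) =>
    Finset.Icc (-(H : ℤ)) H) ×ˢ Finset.Icc (-(H : ℤ)) H)).subset ?_
  rintro q ⟨h1, h2, -⟩
  rw [Finset.mem_coe, Finset.mem_product, Fintype.mem_piFinset]
  exact ⟨fun i => Finset.mem_Icc.2 (abs_le.1 (h1 i)), Finset.mem_Icc.2 (abs_le.1 h2)⟩

/-- the box of the other coefficients -/
noncomputable def box (e H : ℕ) (v : ℤ) : Finset (Fin (e + 2) → ℤ) :=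
  Fintype.piFinset fun i => if i = 0 then {0} else if i = Fin.last (e + 1) then {v} else
    Finset.Icc (-(H : ℤ)) H

lemma box_card (e H : ℕ) (v : ℤ) : (box e H v).card ≤ (2 * H + 1) ^ e := by
  unfold box
  rw [Fintype.card_piFinset, Fin.prod_univ_succ, Fin.prod_univ_castSucc]
  have h0 : (if (0 : Fin (e + 2)) = 0 then ({0} : Finset ℤ) else
      if (0 : Fin (e + 2)) = Fin.last (e + 1) then {v} else Finset.Icc (-(H : ℤ)) H).card = 1 := by
    simp
  have h1 : (if (Fin.last e).succ = 0 then ({0} : Finset ℤ) else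
      if (Fin.last e).succ = Fin.last (e + 1) then {v} else Finset.Icc (-(H : ℤ)) H).card = 1 := by
    rw [if_neg (Fin.succ_ne_zero _), if_pos (Fin.succ_last e)]
    simp
  rw [h0, h1, one_mul, mul_one]
  calc ∏ i : Fin e, (if i.castSucc.succ = 0 then ({0} : Finset ℤ) else
        if i.castSucc.succ = Fin.last (e + 1) then {v} else Finset.Icc (-(H : ℤ)) H).card
      ≤ ∏ _i : Fin e, (2 * H + 1) := by
        refine Finset.prod_le_prod' fun i _ => ?_
        split_ifs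
        · simp
        · simp
        · rw [Int.card_Icc]; omega
    _ = _ := by rw [Finset.prod_const, Finset.card_univ, Fintype.card_fin]

/-- the maps with given leading coefficient -/
lemma lead_card {e H : ℕ} (m v : ℤ) (B : Finset ((Fin (e + 2) → ℤ) × ℤ))
    (hB : ∀ q ∈ B, (∀ i, |q.1 i| ≤ (H : ℤ)) ∧ |q.2| ≤ (H : ℤ) ∧ q.1 (Fin.last (e + 1)) = v ∧
      (Per q.1 q.2 m).Nonempty) (g : ℕ)
    (hg : ∀ (a : Fin (e + 2) → ℤ) (δ : ℤ), (∀ i, |a i| ≤ (H : ℤ)) → |δ| ≤ (H : ℤ) →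
      a (Fin.last (e + 1)) = v → (Bad (d := e + 1) H a δ m).ncard ≤ g) :
    B.card ≤ g * (2 * H + 1) ^ (e + 1) := by
  classical
  set f : (Fin (e + 2) → ℤ) × ℤ → (Fin (e + 2) → ℤ) × ℤ := fun q => (Function.update q.1 0 0, q.2)
    with hf
  have hlast0 : (Fin.last (e + 1)) ≠ 0 := by
    intro h0
    have := congrArg Fin.val h0
    simp at this
  have him : B.image f ⊆ box e H v ×ˢ Finset.Icc (-(H : ℤ)) H := by
    intro y hy
    obtain ⟨q, hq, rfl⟩ := Finset.mem_image.1 hy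
    obtain ⟨h1, h2, h3, -⟩ := hB q hq
    rw [Finset.mem_product]
    refine ⟨?_, Finset.mem_Icc.2 (abs_le.1 h2)⟩
    unfold box
    rw [Fintype.mem_piFinset]
    intro i
    simp only [hf]
    split_ifs with h4 h5
    · subst h4; simp
    · subst h5
      rw [Function.update_of_ne hlast0, h3]
      simp
    · rw [Function.update_of_ne h4]
      exact Finset.mem_Icc.2 (abs_le.1 (h1 i))
  have hfib : ∀ y ∈ B.image f, (B.filter fun q => f q = y).card ≤ g := by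
    intro y hy
    obtain ⟨q₀, hq₀, rfl⟩ := Finset.mem_image.1 hy
    obtain ⟨h1, h2, h3, -⟩ := hB q₀ hq₀
    have hfin := bad_finite (d := e + 1) H q₀.1 q₀.2 m
    refine le_trans ?_ (hg q₀.1 q₀.2 h1 h2 h3)
    rw [Set.ncard_eq_toFinset_card _ hfin]
    refine Finset.card_le_card_of_injOn (fun q => q.1 0) ?_ ?_
    · intro q hq
      rw [Finset.mem_coe, Finset.mem_filter] at hq
      rw [Finset.mem_coe, Set.Finite.mem_toFinset]
      obtain ⟨g1, g2, g3, g4⟩ := hB q hq.1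
      have heq := hq.2
      simp only [hf, Prod.mk.injEq] at heq
      refine ⟨g1 0, ?_⟩
      have : Function.update q₀.1 0 (q.1 0) = q.1 := by
        funext i
        by_cases hi : i = 0
        · subst hi; simp
        · rw [Function.update_of_ne hi]
          have := congrFun heq.1 i
          rw [Function.update_of_ne hi, Function.update_of_ne hi] at this
          exact this.symm
      rw [this, ← heq.2]
      exact g4
    · intro q hq q' hq' h0
      rw [Finset.mem_coe, Finset.mem_filter] at hq hq'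
      have heq := hq.2.trans hq'.2.symm
      simp only [hf, Prod.mk.injEq] at heq
      refine Prod.ext ?_ heq.2
      funext i
      by_cases hi : i = 0
      · subst hi; exact h0
      · have := congrFun heq.1 i
        rw [Function.update_of_ne hi, Function.update_of_ne hi] at this
        exact this
  have h1 := Finset.card_le_mul_card_image B g hfib
  refine h1.trans (Nat.mul_le_mul_left _ ?_)
  refine (Finset.card_le_card him).trans ?_
  rw [Finset.card_product, pow_succ]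
  refine Nat.mul_le_mul (box_card e H v) ?_
  rw [Int.card_Icc]
  omega

lemma sum_rad_int (ε : ℝ) (hε : 0 < ε) : ∃ C : ℝ, 0 < C ∧ ∀ H : ℕ, 1 ≤ H →
    ∑ v ∈ (Finset.Icc (-(H : ℤ)) H).erase 0, (1 : ℝ) / (rad v : ℝ) ≤ C * (H : ℝ) ^ ε := by
  obtain ⟨C, hC0, hC⟩ := Pool.Agent.H328R2.ABC.sum_inv_rad ε hε
  refine ⟨2 * C, by positivity, fun H hH => ?_⟩
  have hmaps : ∀ v ∈ (Finset.Icc (-(H : ℤ)) H).erase 0, v.natAbs ∈ Finset.Icc 1 H := by
    intro v hv
    rw [Finset.mem_erase, Finset.mem_Icc] at hv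
    rw [Finset.mem_Icc]
    omega
  rw [← Finset.sum_fiberwise_of_maps_to hmaps]
  have h1 : ∀ n ∈ Finset.Icc 1 H, ∑ v ∈ ((Finset.Icc (-(H : ℤ)) H).erase 0).filter
      (fun v => v.natAbs = n), (1 : ℝ) / (rad v : ℝ) ≤
      2 * ((1 : ℝ) / (Pool.Agent.H328R2.ABC.rad n : ℝ)) := by
    intro n _
    have h2 : ∀ v ∈ ((Finset.Icc (-(H : ℤ)) H).erase 0).filter (fun v => v.natAbs = n),
        (1 : ℝ) / (rad v : ℝ) = (1 : ℝ) / (Pool.Agent.H328R2.ABC.rad n : ℝ) := by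
      intro v hv
      rw [Finset.mem_filter] at hv
      unfold rad Pool.Agent.H328R2.ABC.rad
      rw [hv.2]
    rw [Finset.sum_congr rfl h2, Finset.sum_const, nsmul_eq_mul]
    have h3 : (((Finset.Icc (-(H : ℤ)) H).erase 0).filter (fun v => v.natAbs = n)).card ≤ 2 := by
      have h4 : ((Finset.Icc (-(H : ℤ)) H).erase 0).filter (fun v => v.natAbs = n) ⊆
          {(n : ℤ), -(n : ℤ)} := by
        intro v hv
        rw [Finset.mem_filter] at hv
        rw [Finset.mem_insert, Finset.mem_singleton]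
        omega
      refine (Finset.card_le_card h4).trans ?_
      exact Finset.card_le_two
    have h5 : (((((Finset.Icc (-(H : ℤ)) H).erase 0).filter (fun v => v.natAbs = n)).card : ℕ) : ℝ) ≤
        2 := by exact_mod_cast h3
    gcongr
  calc _ ≤ ∑ n ∈ Finset.Icc 1 H, 2 * ((1 : ℝ) / (Pool.Agent.H328R2.ABC.rad n : ℝ)) :=
        Finset.sum_le_sum h1
    _ = 2 * ∑ n ∈ Finset.Icc 1 H, ((1 : ℝ) / (Pool.Agent.H328R2.ABC.rad n : ℝ)) := by
        rw [Finset.mul_sum]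
    _ ≤ 2 * (C * (H : ℝ) ^ ε) := by
        have := hC H hH
        linarith
    _ = _ := by ring

/-- **The number of the maps with given denominator.** -/
theorem total (d : ℕ) (hd : 3 ≤ d) (ε : ℝ) (hε : 0 < ε) : ∃ C : ℝ, 0 < C ∧ ∀ H : ℕ, 1 ≤ H →
    ∀ m : ℤ, |m| ≤ (H : ℤ) → m ≠ 0 →
      ((MapsPer d H m).ncard : ℝ) ≤ C * (H : ℝ) ^ (d + sexp d + ε) := by
  classical
  obtain ⟨C1, hC10, hC1⟩ := bad_rad d hd (ε / 2) (by positivity)
  obtain ⟨C2, hC20, hC2⟩ := sum_rad_int (ε / 2) (by positivity)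
  obtain ⟨e, rfl⟩ : ∃ e, d = e + 1 := ⟨d - 1, by omega⟩
  refine ⟨3 ^ (e + 1) * C1 * C2, by positivity, fun H hH m hm hm0 => ?_⟩
  have hH1 : (1 : ℝ) ≤ H := by exact_mod_cast hH
  have hH0 : (0 : ℝ) < H := by linarith
  rw [Set.ncard_eq_toFinset_card _ (mapsPer_finite (e + 1) H m)]
  set B := (mapsPer_finite (e + 1) H m).toFinset with hB
  have hBm : ∀ q ∈ B, (∀ i, |q.1 i| ≤ (H : ℤ)) ∧ |q.2| ≤ (H : ℤ) ∧ q.1 (Fin.last (e + 1)) ≠ 0 ∧
      q.2 ≠ 0 ∧ (Per q.1 q.2 m).Nonempty := fun q hq => by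
    rw [hB, Set.Finite.mem_toFinset] at hq
    exact hq
  have hmaps : ∀ q ∈ B, q.1 (Fin.last (e + 1)) ∈ (Finset.Icc (-(H : ℤ)) H).erase 0 := by
    intro q hq
    obtain ⟨h1, -, h3, -⟩ := hBm q hq
    rw [Finset.mem_erase, Finset.mem_Icc]
    exact ⟨h3, abs_le.1 (h1 _)⟩
  rw [Finset.card_eq_sum_card_fiberwise hmaps]
  push_cast
  have hv : ∀ v ∈ (Finset.Icc (-(H : ℤ)) H).erase 0,
      (((B.filter fun q => q.1 (Fin.last (e + 1)) = v).card : ℕ) : ℝ) ≤
        (C1 * (H : ℝ) ^ (sexp (e + 1) + ε / 2) * (3 * H : ℝ) ^ (e + 1)) * (1 / (rad v : ℝ)) := by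
    intro v hv
    have hv0 : v ≠ 0 := (Finset.mem_erase.1 hv).1
    have hr0 : (0 : ℝ) < rad v := by exact_mod_cast rad_pos v
    set gr : ℝ := C1 * (H : ℝ) ^ (sexp (e + 1) + ε / 2) / rad v with hgr
    have hgr0 : 0 ≤ gr := by positivity
    have h1 := lead_card (e := e) (H := H) m v (B.filter fun q => q.1 (Fin.last (e + 1)) = v)
      (by
        intro q hq
        rw [Finset.mem_filter] at hq
        obtain ⟨h1, h2, h3, h4, h5⟩ := hBm q hq.1
        exact ⟨h1, h2, hq.2, h5⟩) ⌊gr⌋₊ (by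
        intro a δ ha hδ hav
        apply Nat.le_floor
        have := hC1 H hH a δ m ha hδ hm (by rw [hav]; exact hv0) hm0
        rw [hav] at this
        exact this)
    have h2 : (((B.filter fun q => q.1 (Fin.last (e + 1)) = v).card : ℕ) : ℝ) ≤
        (⌊gr⌋₊ : ℝ) * (2 * H + 1) ^ (e + 1) := by exact_mod_cast h1
    refine h2.trans ?_
    have h3 : (⌊gr⌋₊ : ℝ) ≤ gr := Nat.floor_le hgr0
    calc (⌊gr⌋₊ : ℝ) * (2 * H + 1) ^ (e + 1) ≤ gr * (3 * H) ^ (e + 1) := by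
          gcongr
          linarith
      _ = _ := by rw [hgr]; ring
  refine (Finset.sum_le_sum hv).trans ?_
  rw [← Finset.mul_sum]
  calc (C1 * (H : ℝ) ^ (sexp (e + 1) + ε / 2) * (3 * H : ℝ) ^ (e + 1)) *
        ∑ v ∈ (Finset.Icc (-(H : ℤ)) H).erase 0, 1 / (rad v : ℝ)
      ≤ (C1 * (H : ℝ) ^ (sexp (e + 1) + ε / 2) * (3 * H : ℝ) ^ (e + 1)) *
        (C2 * (H : ℝ) ^ (ε / 2)) := by
        have := hC2 H hH
        gcongr
    _ = 3 ^ (e + 1) * C1 * C2 * ((H : ℝ) ^ (sexp (e + 1) + ε / 2) * (H : ℝ) ^ (e + 1) *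
          (H : ℝ) ^ (ε / 2)) := by rw [mul_pow]; ring
    _ = _ := by
        congr 1
        rw [← Real.rpow_natCast (H : ℝ) (e + 1), ← Real.rpow_add hH0, ← Real.rpow_add hH0]
        congr 1
        push_cast
        ring

/-- a lower bound -/
theorem total_lower (d H : ℕ) (hd : 1 ≤ d) (m : ℤ) : H ^ (d + 1) ≤ (MapsPer d H m).ncard := by
  classical
  rw [Set.ncard_eq_toFinset_card _ (mapsPer_finite d H m)]
  have h1 : ((Fintype.piFinset fun i : Fin (d + 1) => if i = 0 then ({0} : Finset ℤ) else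
      Finset.Icc 1 (H : ℤ)) ×ˢ Finset.Icc 1 (H : ℤ)) ⊆ (mapsPer_finite d H m).toFinset := by
    intro q hq
    rw [Finset.mem_product, Fintype.mem_piFinset, Finset.mem_Icc] at hq
    rw [Set.Finite.mem_toFinset]
    obtain ⟨h1, h2, h3⟩ := hq
    have h0 : q.1 0 = 0 := by
      have := h1 0
      simpa using this
    have hne : ∀ i, i ≠ 0 → 1 ≤ q.1 i ∧ q.1 i ≤ (H : ℤ) := by
      intro i hi
      have := h1 i
      rw [if_neg hi, Finset.mem_Icc] at this
      exact this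
    have hlast0 : (Fin.last d) ≠ 0 := by
      intro h0
      have := congrArg Fin.val h0
      simp at this
      omega
    refine ⟨?_, ?_, ?_, ?_, (0, 0), 1, le_rfl, ?_⟩
    · intro i
      by_cases hi : i = 0
      · subst hi; rw [h0]; simp
      · have := hne i hi
        rw [abs_le]
        constructor <;> linarith [this.1, this.2]
    · rw [abs_le]; constructor <;> linarith
    · have := hne _ hlast0
      intro hh
      rw [hh] at this
      linarith [this.1]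
    · intro hh
      rw [hh] at h2
      linarith
    · simp only [Function.iterate_one]
      unfold hen
      have h4 : ∑ i : Fin (d + 1), (q.1 i : ℚ) * (0 : ℚ) ^ (i : ℕ) = 0 := by
        rw [Fin.sum_univ_succ, h0]
        simp
      rw [h4]
      simp
  refine le_trans (le_of_eq ?_) (Finset.card_le_card h1)
  rw [Finset.card_product, Fintype.card_piFinset, Fin.prod_univ_succ]
  simp [Fin.succ_ne_zero, pow_succ]

end Pool.Agent.W5h37.HF
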