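import Pool.Agent.W5h37.HF.Main2

/-!
# The number of all maps with a rational periodic point
-/

set_option autoImplicit false

namespace Pool.Agent.W5h37.HF

open Finset Filter Pool.Agent.H674R3 Pool.Agent.W5h37.Thin

/-- the maps with the denominator `m` -/
def MapsPer (d H : ℕ) (m : ℤ) : Set ((Fin (d + 1) → ℤ) × ℤ) :=
  {q | (∀ i, |q.1 i| ≤ (H : ℤ)) ∧ |q.2| ≤ (H : ℤ) ∧ q.1 (Fin.last d) ≠ 0 ∧ q.2 ≠ 0 ∧
    (Per q.1 q.2 m).Nonempty}

lemma mapsPer_finite (d H : ℕ) (m : ℤ) : (MapsPer d H m).Finite := by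
  refine (Finset.finite_toSet ((Fintype.piFinset fun _ : Fin (d + 1) =>
    Finset.Icc (-(H : ℤ)) H) ×ˢ Finset.Icc (-(H : ℤ)) H)).subset ?_
  rintro q ⟨h1, h2, -⟩
  rw [Finset.mem_coe, Finset.mem_product, Fintype.mem_piFinset]
  exact ⟨fun i => Finset.mem_Icc.2 (abs_le.1 (h1 i)), Finset.mem_Icc.2 (abs_le.1 h2)⟩

/-- the box of the other coefficients -/
noncomputable def box (e H : ℕ) (v : ℤ) : Finset (Fin (e + 2) → ℤ) :=
  Fintype.piFinset fun i => if i = 0 then {0} else if i = Fin.last (e + 1) then {v} else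
    Finset.Icc (-(H : ℤ)) H

lemma box_card (e H : ℕ) (v : ℤ) : (box e H v).card ≤ (2 * H + 1) ^ e := by
  unfold box
  rw [Fintype.card_piFinset, Fin.prod_univ_succ, Fin.prod_univ_castSucc]
  have h0 : (if (0 : Fin (e + 2)) = 0 then ({0} : Finset ℤ) else
      if (0 : Fin (e + 2)) = Fin.last (e + 1) then {v} else Finset.Icc (-(H : ℤ)) H).card = 1 := by
    simp
  have h1 : (if (Fin.last e).succ = 0 then ({0} : Finset ℤ) else
      if (Fin.last e).succ = Fin.last (e + 1) then {v} else Finset.Icc (-(H : ℤ)) H).card = 1 := by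
    rw [if_neg (Fin.succ_ne_zero _), if_pos (Fin.succ_last e)]
    simp
  rw [h0, h1, one_mul, mul_one]
  calc ∏ i : Fin e, (if i.castSucc.succ = 0 then ({0} : Finset ℤ) else
        if i.castSucc.succ = Fin.last (e + 1) then {v} else Finset.Icc (-(H : ℤ)) H).card
      ≤ ∏ _i : Fin e, (2 * H + 1) := by
        refine Finset.prod_le_prod' fun i _ => ?_
        split_ifs
        · simp
        · simp
        · rw [Int.card_Icc]; omega
    _ = _ := by rw [Finset.prod_const, Finset.card_univ, Fintype.card_fin]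

/-- the maps with given leading coefficient -/
lemma lead_card {e H : ℕ} (m v : ℤ) (B : Finset ((Fin (e + 2) → ℤ) × ℤ))
    (hB : ∀ q ∈ B, (∀ i, |q.1 i| ≤ (H : ℤ)) ∧ |q.2| ≤ (H : ℤ) ∧ q.1 (Fin.last (e + 1)) = v ∧
      (Per q.1 q.2 m).Nonempty) (g : ℕ)
    (hg : ∀ (a : Fin (e + 2) → ℤ) (δ : ℤ), (∀ i, |a i| ≤ (H : ℤ)) → |δ| ≤ (H : ℤ) →
      a (Fin.last (e + 1)) = v → (Bad (d := e + 1) H a δ m).ncard ≤ g) :
    B.card ≤ g * (2 * H + 1) ^ (e + 1) := by
  classical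
  set f : (Fin (e + 2) → ℤ) × ℤ → (Fin (e + 2) → ℤ) × ℤ := fun q => (Function.update q.1 0 0, q.2)
    with hf
  have hlast0 : (Fin.last (e + 1)) ≠ 0 := by
    intro h0
    have := congrArg Fin.val h0
    simp at this
  have him : B.image f ⊆ box e H v ×ˢ Finset.Icc (-(H : ℤ)) H := by
    intro y hy
    obtain ⟨q, hq, rfl⟩ := Finset.mem_image.1 hy
    obtain ⟨h1, h2, h3, -⟩ := hB q hq
    rw [Finset.mem_product]
    refine ⟨?_, Finset.mem_Icc.2 (abs_le.1 h2)⟩
    unfold box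
    rw [Fintype.mem_piFinset]
    intro i
    simp only [hf]
    split_ifs with h4 h5
    · subst h4; simp
    · subst h5
      rw [Function.update_of_ne hlast0, h3]
      simp
    · rw [Function.update_of_ne h4]
      exact Finset.mem_Icc.2 (abs_le.1 (h1 i))
  have hfib : ∀ y ∈ B.image f, (B.filter fun q => f q = y).card ≤ g := by
    intro y hy
    obtain ⟨q₀, hq₀, rfl⟩ := Finset.mem_image.1 hy
    obtain ⟨h1, h2, h3, -⟩ := hB q₀ hq₀
    have hfin := bad_finite (d := e + 1) H q₀.1 q₀.2 m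
    refine le_trans ?_ (hg q₀.1 q₀.2 h1 h2 h3)
    rw [Set.ncard_eq_toFinset_card _ hfin]
    refine Finset.card_le_card_of_injOn (fun q => q.1 0) ?_ ?_
    · intro q hq
      rw [Finset.mem_coe, Finset.mem_filter] at hq
      rw [Finset.mem_coe, Set.Finite.mem_toFinset]
      obtain ⟨g1, g2, g3, g4⟩ := hB q hq.1
      have heq := hq.2
      simp only [hf, Prod.mk.injEq] at heq
      refine ⟨g1 0, ?_⟩
      have : Function.update q₀.1 0 (q.1 0) = q.1 := by
        funext i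
        by_cases hi : i = 0
        · subst hi; simp
        · rw [Function.update_of_ne hi]
          have := congrFun heq.1 i
          rw [Function.update_of_ne hi, Function.update_of_ne hi] at this
          exact this.symm
      rw [this, ← heq.2]
      exact g4
    · intro q hq q' hq' h0
      rw [Finset.mem_coe, Finset.mem_filter] at hq hq'
      have heq := hq.2.trans hq'.2.symm
      simp only [hf, Prod.mk.injEq] at heq
      refine Prod.ext ?_ heq.2
      funext i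
      by_cases hi : i = 0
      · subst hi; exact h0
      · have := congrFun heq.1 i
        rw [Function.update_of_ne hi, Function.update_of_ne hi] at this
        exact this
  have h1 := Finset.card_le_mul_card_image B g hfib
  refine h1.trans (Nat.mul_le_mul_left _ ?_)
  refine (Finset.card_le_card him).trans ?_
  rw [Finset.card_product, pow_succ]
  refine Nat.mul_le_mul (box_card e H v) ?_
  rw [Int.card_Icc]
  omega

lemma sum_rad_int (ε : ℝ) (hε : 0 < ε) : ∃ C : ℝ, 0 < C ∧ ∀ H : ℕ, 1 ≤ H →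
    ∑ v ∈ (Finset.Icc (-(H : ℤ)) H).erase 0, (1 : ℝ) / (rad v : ℝ) ≤ C * (H : ℝ) ^ ε := by
  obtain ⟨C, hC0, hC⟩ := Pool.Agent.H328R2.ABC.sum_inv_rad ε hε
  refine ⟨2 * C, by positivity, fun H hH => ?_⟩
  have hmaps : ∀ v ∈ (Finset.Icc (-(H : ℤ)) H).erase 0, v.natAbs ∈ Finset.Icc 1 H := by
    intro v hv
    rw [Finset.mem_erase, Finset.mem_Icc] at hv
    rw [Finset.mem_Icc]
    omega
  rw [← Finset.sum_fiberwise_of_maps_to hmaps]
  have h1 : ∀ n ∈ Finset.Icc 1 H, ∑ v ∈ ((Finset.Icc (-(H : ℤ)) H).erase 0).filter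
      (fun v => v.natAbs = n), (1 : ℝ) / (rad v : ℝ) ≤
      2 * ((1 : ℝ) / (Pool.Agent.H328R2.ABC.rad n : ℝ)) := by
    intro n _
    have h2 : ∀ v ∈ ((Finset.Icc (-(H : ℤ)) H).erase 0).filter (fun v => v.natAbs = n),
        (1 : ℝ) / (rad v : ℝ) = (1 : ℝ) / (Pool.Agent.H328R2.ABC.rad n : ℝ) := by
      intro v hv
      rw [Finset.mem_filter] at hv
      unfold rad Pool.Agent.H328R2.ABC.rad
      rw [hv.2]
    rw [Finset.sum_congr rfl h2, Finset.sum_const, nsmul_eq_mul]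
    have h3 : (((Finset.Icc (-(H : ℤ)) H).erase 0).filter (fun v => v.natAbs = n)).card ≤ 2 := by
      have h4 : ((Finset.Icc (-(H : ℤ)) H).erase 0).filter (fun v => v.natAbs = n) ⊆
          {(n : ℤ), -(n : ℤ)} := by
        intro v hv
        rw [Finset.mem_filter] at hv
        rw [Finset.mem_insert, Finset.mem_singleton]
        omega
      refine (Finset.card_le_card h4).trans ?_
      exact Finset.card_le_two
    have h5 : (((((Finset.Icc (-(H : ℤ)) H).erase 0).filter (fun v => v.natAbs = n)).card : ℕ) : ℝ) ≤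
        2 := by exact_mod_cast h3
    gcongr
  calc _ ≤ ∑ n ∈ Finset.Icc 1 H, 2 * ((1 : ℝ) / (Pool.Agent.H328R2.ABC.rad n : ℝ)) :=
        Finset.sum_le_sum h1
    _ = 2 * ∑ n ∈ Finset.Icc 1 H, ((1 : ℝ) / (Pool.Agent.H328R2.ABC.rad n : ℝ)) := by
        rw [Finset.mul_sum]
    _ ≤ 2 * (C * (H : ℝ) ^ ε) := by
        have := hC H hH
        linarith
    _ = _ := by ring

/-- **The number of the maps with given denominator.** -/
theorem total3 (d : ℕ) (hd : 3 ≤ d) (ε : ℝ) (hε : 0 < ε) : ∃ C : ℝ, 0 < C ∧ ∀ H : ℕ, 1 ≤ H →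
    ∀ m : ℤ, |m| ≤ (H : ℤ) → m ≠ 0 →
      ((MapsPer d H m).ncard : ℝ) ≤ C * (H : ℝ) ^ (d + 3 / 2 + ε) := by
  classical
  obtain ⟨C1, hC10, hC1⟩ := bad_rad d hd (ε / 2) (by positivity)
  obtain ⟨C2, hC20, hC2⟩ := sum_rad_int (ε / 2) (by positivity)
  obtain ⟨e, rfl⟩ : ∃ e, d = e + 1 := ⟨d - 1, by omega⟩
  refine ⟨3 ^ (e + 1) * C1 * C2, by positivity, fun H hH m hm hm0 => ?_⟩
  have hH1 : (1 : ℝ) ≤ H := by exact_mod_cast hH
  have hH0 : (0 : ℝ) < H := by linarith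
  rw [Set.ncard_eq_toFinset_card _ (mapsPer_finite (e + 1) H m)]
  set B := (mapsPer_finite (e + 1) H m).toFinset with hB
  have hBm : ∀ q ∈ B, (∀ i, |q.1 i| ≤ (H : ℤ)) ∧ |q.2| ≤ (H : ℤ) ∧ q.1 (Fin.last (e + 1)) ≠ 0 ∧
      q.2 ≠ 0 ∧ (Per q.1 q.2 m).Nonempty := fun q hq => by
    rw [hB, Set.Finite.mem_toFinset] at hq
    exact hq
  have hmaps : ∀ q ∈ B, q.1 (Fin.last (e + 1)) ∈ (Finset.Icc (-(H : ℤ)) H).erase 0 := by
    intro q hq
    obtain ⟨h1, -, h3, -⟩ := hBm q hq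
    rw [Finset.mem_erase, Finset.mem_Icc]
    exact ⟨h3, abs_le.1 (h1 _)⟩
  rw [Finset.card_eq_sum_card_fiberwise hmaps]
  push_cast
  have hv : ∀ v ∈ (Finset.Icc (-(H : ℤ)) H).erase 0,
      (((B.filter fun q => q.1 (Fin.last (e + 1)) = v).card : ℕ) : ℝ) ≤
        (C1 * (H : ℝ) ^ (3 / 2 + ε / 2) * (3 * H : ℝ) ^ (e + 1)) * (1 / (rad v : ℝ)) := by
    intro v hv
    have hv0 : v ≠ 0 := (Finset.mem_erase.1 hv).1
    have hr0 : (0 : ℝ) < rad v := by exact_mod_cast rad_pos v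
    set gr : ℝ := C1 * (H : ℝ) ^ (3 / 2 + ε / 2) / rad v with hgr
    have hgr0 : 0 ≤ gr := by positivity
    have h1 := lead_card (e := e) (H := H) m v (B.filter fun q => q.1 (Fin.last (e + 1)) = v)
      (by
        intro q hq
        rw [Finset.mem_filter] at hq
        obtain ⟨h1, h2, h3, h4, h5⟩ := hBm q hq.1
        exact ⟨h1, h2, hq.2, h5⟩) ⌊gr⌋₊ (by
        intro a δ ha hδ hav
        apply Nat.le_floor
        have := hC1 H hH a δ m ha hδ hm (by rw [hav]; exact hv0) hm0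
        rw [hav] at this
        exact this)
    have h2 : (((B.filter fun q => q.1 (Fin.last (e + 1)) = v).card : ℕ) : ℝ) ≤
        (⌊gr⌋₊ : ℝ) * (2 * H + 1) ^ (e + 1) := by exact_mod_cast h1
    refine h2.trans ?_
    have h3 : (⌊gr⌋₊ : ℝ) ≤ gr := Nat.floor_le hgr0
    calc (⌊gr⌋₊ : ℝ) * (2 * H + 1) ^ (e + 1) ≤ gr * (3 * H) ^ (e + 1) := by
          gcongr
          linarith
      _ = _ := by rw [hgr]; ring
  refine (Finset.sum_le_sum hv).trans ?_
  rw [← Finset.mul_sum]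
  calc (C1 * (H : ℝ) ^ (3 / 2 + ε / 2) * (3 * H : ℝ) ^ (e + 1)) *
        ∑ v ∈ (Finset.Icc (-(H : ℤ)) H).erase 0, 1 / (rad v : ℝ)
      ≤ (C1 * (H : ℝ) ^ (3 / 2 + ε / 2) * (3 * H : ℝ) ^ (e + 1)) *
        (C2 * (H : ℝ) ^ (ε / 2)) := by
        have := hC2 H hH
        gcongr
    _ = 3 ^ (e + 1) * C1 * C2 * ((H : ℝ) ^ (3 / 2 + ε / 2) * (H : ℝ) ^ (e + 1) *
          (H : ℝ) ^ (ε / 2)) := by rw [mul_pow]; ring
    _ = _ := by
        congr 1
        rw [← Real.rpow_natCast (H : ℝ) (e + 1), ← Real.rpow_add hH0, ← Real.rpow_add hH0]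
        congr 1
        push_cast
        ring

/-- a lower bound -/
theorem total_lower (d H : ℕ) (hd : 1 ≤ d) (m : ℤ) : H ^ (d + 1) ≤ (MapsPer d H m).ncard := by
  classical
  rw [Set.ncard_eq_toFinset_card _ (mapsPer_finite d H m)]
  have h1 : ((Fintype.piFinset fun i : Fin (d + 1) => if i = 0 then ({0} : Finset ℤ) else
      Finset.Icc 1 (H : ℤ)) ×ˢ Finset.Icc 1 (H : ℤ)) ⊆ (mapsPer_finite d H m).toFinset := by
    intro q hq
    rw [Finset.mem_product, Fintype.mem_piFinset, Finset.mem_Icc] at hq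
    rw [Set.Finite.mem_toFinset]
    obtain ⟨h1, h2, h3⟩ := hq
    have h0 : q.1 0 = 0 := by
      have := h1 0
      simpa using this
    have hne : ∀ i, i ≠ 0 → 1 ≤ q.1 i ∧ q.1 i ≤ (H : ℤ) := by
      intro i hi
      have := h1 i
      rw [if_neg hi, Finset.mem_Icc] at this
      exact this
    have hlast0 : (Fin.last d) ≠ 0 := by
      intro h0
      have := congrArg Fin.val h0
      simp at this
      omega
    refine ⟨?_, ?_, ?_, ?_, (0, 0), 1, le_rfl, ?_⟩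
    · intro i
      by_cases hi : i = 0
      · subst hi; rw [h0]; simp
      · have := hne i hi
        rw [abs_le]
        constructor <;> linarith [this.1, this.2]
    · rw [abs_le]; constructor <;> linarith
    · have := hne _ hlast0
      intro hh
      rw [hh] at this
      linarith [this.1]
    · intro hh
      rw [hh] at h2
      linarith
    · simp only [Function.iterate_one]
      unfold hen
      have h4 : ∑ i : Fin (d + 1), (q.1 i : ℚ) * (0 : ℚ) ^ (i : ℕ) = 0 := by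
        rw [Fin.sum_univ_succ, h0]
        simp
      rw [h4]
      simp
  refine le_trans (le_of_eq ?_) (Finset.card_le_card h1)
  rw [Finset.card_product, Fintype.card_piFinset, Fin.prod_univ_succ]
  simp [Fin.succ_ne_zero, pow_succ]

/-- the pairs of a map with the denominator `m` and a rational periodic point -/
def AllPrs (d H : ℕ) (m : ℤ) : Set (((Fin (d + 1) → ℤ) × ℤ) × (ℚ × ℚ)) :=
  {q | (∀ i, |q.1.1 i| ≤ (H : ℤ)) ∧ |q.1.2| ≤ (H : ℤ) ∧ q.1.1 (Fin.last d) ≠ 0 ∧ q.1.2 ≠ 0 ∧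
    q.2 ∈ Per q.1.1 q.1.2 m}

lemma allPrs_finite {d H : ℕ} (hd : 2 ≤ d) (hH : 1 ≤ H) {m : ℤ} (hm : |m| ≤ (H : ℤ))
    (hm0 : m ≠ 0) : (AllPrs d H m).Finite := by
  obtain ⟨C, hC⟩ := single d hd 1 one_pos
  have h1 : AllPrs d H m ⊆ ⋃ f ∈ MapsPer d H m, (fun Q => (f, Q)) '' (Per f.1 f.2 m) := by
    rintro ⟨f, Q⟩ ⟨h1, h2, h3, h4, h5⟩
    simp only at h1 h2 h3 h4 h5
    rw [Set.mem_iUnion₂]
    exact ⟨f, ⟨h1, h2, h3, h4, ⟨Q, h5⟩⟩, Q, h5, rfl⟩
  refine (Set.Finite.biUnion (mapsPer_finite d H m) fun f hf => ?_).subset h1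
  obtain ⟨g1, g2, g3, -, -⟩ := hf
  exact ((hC H hH f.1 f.2 m g1 g2 hm g3 hm0).1).image _

/-- the pairs with given leading coefficient -/
lemma lead_cardP {e H : ℕ} (m v : ℤ) (B : Finset (((Fin (e + 2) → ℤ) × ℤ) × (ℚ × ℚ)))
    (hB : ∀ q ∈ B, (∀ i, |q.1.1 i| ≤ (H : ℤ)) ∧ |q.1.2| ≤ (H : ℤ) ∧
      q.1.1 (Fin.last (e + 1)) = v ∧ q.2 ∈ Per q.1.1 q.1.2 m) (g : ℕ)
    (hg : ∀ (a : Fin (e + 2) → ℤ) (δ : ℤ), (∀ i, |a i| ≤ (H : ℤ)) → |δ| ≤ (H : ℤ) →
      a (Fin.last (e + 1)) = v → (Prs (d := e + 1) H a δ m).Finite ∧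
        (Prs (d := e + 1) H a δ m).ncard ≤ g) :
    B.card ≤ g * (2 * H + 1) ^ (e + 1) := by
  classical
  set f : ((Fin (e + 2) → ℤ) × ℤ) × (ℚ × ℚ) → (Fin (e + 2) → ℤ) × ℤ :=
    fun q => (Function.update q.1.1 0 0, q.1.2) with hf
  have hlast0 : (Fin.last (e + 1)) ≠ 0 := by
    intro h0
    have := congrArg Fin.val h0
    simp at this
  have him : B.image f ⊆ box e H v ×ˢ Finset.Icc (-(H : ℤ)) H := by
    intro y hy
    obtain ⟨q, hq, rfl⟩ := Finset.mem_image.1 hy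
    obtain ⟨h1, h2, h3, -⟩ := hB q hq
    rw [Finset.mem_product]
    refine ⟨?_, Finset.mem_Icc.2 (abs_le.1 h2)⟩
    unfold box
    rw [Fintype.mem_piFinset]
    intro i
    simp only [hf]
    split_ifs with h4 h5
    · subst h4; simp
    · subst h5
      rw [Function.update_of_ne hlast0, h3]
      simp
    · rw [Function.update_of_ne h4]
      exact Finset.mem_Icc.2 (abs_le.1 (h1 i))
  have hfib : ∀ y ∈ B.image f, (B.filter fun q => f q = y).card ≤ g := by
    intro y hy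
    obtain ⟨q₀, hq₀, rfl⟩ := Finset.mem_image.1 hy
    obtain ⟨h1, h2, h3, -⟩ := hB q₀ hq₀
    obtain ⟨hfin, hle⟩ := hg q₀.1.1 q₀.1.2 h1 h2 h3
    refine le_trans ?_ hle
    rw [Set.ncard_eq_toFinset_card _ hfin]
    refine Finset.card_le_card_of_injOn (fun q => (q.1.1 0, q.2)) ?_ ?_
    · intro q hq
      rw [Finset.mem_coe, Finset.mem_filter] at hq
      rw [Finset.mem_coe, Set.Finite.mem_toFinset]
      obtain ⟨g1, g2, g3, g4⟩ := hB q hq.1
      have heq := hq.2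
      simp only [hf, Prod.mk.injEq] at heq
      refine ⟨g1 0, ?_⟩
      have : Function.update q₀.1.1 0 (q.1.1 0) = q.1.1 := by
        funext i
        by_cases hi : i = 0
        · subst hi; simp
        · rw [Function.update_of_ne hi]
          have := congrFun heq.1 i
          rw [Function.update_of_ne hi, Function.update_of_ne hi] at this
          exact this.symm
      simp only
      rw [this, ← heq.2]
      exact g4
    · intro q hq q' hq' h0
      rw [Finset.mem_coe, Finset.mem_filter] at hq hq'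
      have heq := hq.2.trans hq'.2.symm
      simp only [hf, Prod.mk.injEq] at heq
      simp only [Prod.mk.injEq] at h0
      refine Prod.ext (Prod.ext ?_ heq.2) h0.2
      funext i
      by_cases hi : i = 0
      · subst hi; exact h0.1
      · have := congrFun heq.1 i
        rw [Function.update_of_ne hi, Function.update_of_ne hi] at this
        exact this
  have h1 := Finset.card_le_mul_card_image B g hfib
  refine h1.trans (Nat.mul_le_mul_left _ ?_)
  refine (Finset.card_le_card him).trans ?_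
  rw [Finset.card_product, pow_succ]
  refine Nat.mul_le_mul (box_card e H v) ?_
  rw [Int.card_Icc]
  omega

/-- **The number of the pairs of a map with given denominator and a rational periodic point.** -/
theorem totalP (d : ℕ) (hd : 4 ≤ d) (ε : ℝ) (hε : 0 < ε) : ∃ C : ℝ, 0 < C ∧ ∀ H : ℕ, 1 ≤ H →
    ∀ m : ℤ, |m| ≤ (H : ℤ) → m ≠ 0 → (AllPrs d H m).Finite ∧
      ((AllPrs d H m).ncard : ℝ) ≤ C * (H : ℝ) ^ (d + 1 + ε) := by
  classical
  obtain ⟨C1, hC10, hC1⟩ := prs_rad d hd (ε / 2) (by positivity)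
  obtain ⟨C2, hC20, hC2⟩ := sum_rad_int (ε / 2) (by positivity)
  obtain ⟨e, rfl⟩ : ∃ e, d = e + 1 := ⟨d - 1, by omega⟩
  refine ⟨3 ^ (e + 1) * C1 * C2, by positivity, fun H hH m hm hm0 => ?_⟩
  have hH1 : (1 : ℝ) ≤ H := by exact_mod_cast hH
  have hH0 : (0 : ℝ) < H := by linarith
  have hfinA := allPrs_finite (by omega : 2 ≤ e + 1) hH hm hm0
  refine ⟨hfinA, ?_⟩
  rw [Set.ncard_eq_toFinset_card _ hfinA]
  set B := hfinA.toFinset with hB
  have hBm : ∀ q ∈ B, (∀ i, |q.1.1 i| ≤ (H : ℤ)) ∧ |q.1.2| ≤ (H : ℤ) ∧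
      q.1.1 (Fin.last (e + 1)) ≠ 0 ∧ q.1.2 ≠ 0 ∧ q.2 ∈ Per q.1.1 q.1.2 m := fun q hq => by
    rw [hB, Set.Finite.mem_toFinset] at hq
    exact hq
  have hmaps : ∀ q ∈ B, q.1.1 (Fin.last (e + 1)) ∈ (Finset.Icc (-(H : ℤ)) H).erase 0 := by
    intro q hq
    obtain ⟨h1, -, h3, -⟩ := hBm q hq
    rw [Finset.mem_erase, Finset.mem_Icc]
    exact ⟨h3, abs_le.1 (h1 _)⟩
  rw [Finset.card_eq_sum_card_fiberwise hmaps]
  push_cast
  have hv : ∀ v ∈ (Finset.Icc (-(H : ℤ)) H).erase 0,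
      (((B.filter fun q => q.1.1 (Fin.last (e + 1)) = v).card : ℕ) : ℝ) ≤
        (C1 * (H : ℝ) ^ (1 + ε / 2) * (3 * H : ℝ) ^ (e + 1)) * (1 / (rad v : ℝ)) := by
    intro v hv
    have hv0 : v ≠ 0 := (Finset.mem_erase.1 hv).1
    have hr0 : (0 : ℝ) < rad v := by exact_mod_cast rad_pos v
    set gr : ℝ := C1 * (H : ℝ) ^ (1 + ε / 2) / rad v with hgr
    have hgr0 : 0 ≤ gr := by positivity
    have h1 := lead_cardP (e := e) (H := H) m v (B.filter fun q => q.1.1 (Fin.last (e + 1)) = v)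
      (by
        intro q hq
        rw [Finset.mem_filter] at hq
        obtain ⟨h1, h2, h3, h4, h5⟩ := hBm q hq.1
        exact ⟨h1, h2, hq.2, h5⟩) ⌊gr⌋₊ (by
        intro a δ ha hδ hav
        obtain ⟨g1, g2⟩ := hC1 H hH a δ m ha hδ hm (by rw [hav]; exact hv0) hm0
        refine ⟨g1, Nat.le_floor ?_⟩
        rw [hav] at g2
        exact g2)
    have h2 : (((B.filter fun q => q.1.1 (Fin.last (e + 1)) = v).card : ℕ) : ℝ) ≤
        (⌊gr⌋₊ : ℝ) * (2 * H + 1) ^ (e + 1) := by exact_mod_cast h1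
    refine h2.trans ?_
    have h3 : (⌊gr⌋₊ : ℝ) ≤ gr := Nat.floor_le hgr0
    calc (⌊gr⌋₊ : ℝ) * (2 * H + 1) ^ (e + 1) ≤ gr * (3 * H) ^ (e + 1) := by
          gcongr
          linarith
      _ = _ := by rw [hgr]; ring
  refine (Finset.sum_le_sum hv).trans ?_
  rw [← Finset.mul_sum]
  calc (C1 * (H : ℝ) ^ (1 + ε / 2) * (3 * H : ℝ) ^ (e + 1)) *
        ∑ v ∈ (Finset.Icc (-(H : ℤ)) H).erase 0, 1 / (rad v : ℝ)
      ≤ (C1 * (H : ℝ) ^ (1 + ε / 2) * (3 * H : ℝ) ^ (e + 1)) *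
        (C2 * (H : ℝ) ^ (ε / 2)) := by
        have := hC2 H hH
        gcongr
    _ = 3 ^ (e + 1) * C1 * C2 * ((H : ℝ) ^ (1 + ε / 2) * (H : ℝ) ^ (e + 1) *
          (H : ℝ) ^ (ε / 2)) := by rw [mul_pow]; ring
    _ = _ := by
        congr 1
        rw [← Real.rpow_natCast (H : ℝ) (e + 1), ← Real.rpow_add hH0, ← Real.rpow_add hH0]
        congr 1
        push_cast
        ring

end Pool.Agent.W5h37.HF
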